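import Mathlib

set_option autoImplicit false
open Filter
open scoped Topology

namespace Pool.Agent.Lib.MP_274522_pr

/-- Clamp to `[0, 1]`. -/
noncomputable def cl (x : ℝ) : ℝ := max 0 (min 1 x)

lemma cl_nonneg (x : ℝ) : 0 ≤ cl x := le_max_left _ _

lemma cl_le_one (x : ℝ) : cl x ≤ 1 := max_le zero_le_one (min_le_left _ _)

lemma cl_of_nonpos {x : ℝ} (h : x ≤ 0) : cl x = 0 := by
  unfold cl; rw [min_eq_right (by linarith), max_eq_left h]

lemma cl_of_one_le {x : ℝ} (h : 1 ≤ x) : cl x = 1 := by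
  unfold cl; rw [min_eq_left h, max_eq_right zero_le_one]

lemma cl_of_mem {x : ℝ} (h0 : 0 ≤ x) (h1 : x ≤ 1) : cl x = x := by
  unfold cl; rw [min_eq_right h1, max_eq_right h0]

lemma cl_mono : Monotone cl := by
  intro x y h
  unfold cl
  exact max_le_max le_rfl (min_le_min le_rfl h)

lemma continuous_cl : Continuous cl := by unfold cl; fun_prop

lemma cl_double (x : ℝ) : cl x = (cl (2 * x) + cl (2 * x - 1)) / 2 := by
  rcases le_total x 0 with h | h
  · rw [cl_of_nonpos h, cl_of_nonpos (by linarith), cl_of_nonpos (by linarith)]; norm_num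
  rcases le_total 1 x with h1 | h1
  · rw [cl_of_one_le h1, cl_of_one_le (by linarith), cl_of_one_le (by linarith)]; norm_num
  rcases le_total x (1 / 2) with h2 | h2
  · rw [cl_of_mem h h1, cl_of_mem (by linarith) (by linarith), cl_of_nonpos (by linarith)]; ring
  · rw [cl_of_mem h h1, cl_of_one_le (by linarith), cl_of_mem (by linarith) (by linarith)]; ring

/-- The fraction of the `i`-th dyadic interval of level `n` that lies in `[0, t]`. -/
noncomputable def pn (n i : ℕ) (t : ℝ) : ℝ := cl (2 ^ n * t - i)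

lemma pn_nonneg (n i : ℕ) (t : ℝ) : 0 ≤ pn n i t := cl_nonneg _
lemma pn_le_one (n i : ℕ) (t : ℝ) : pn n i t ≤ 1 := cl_le_one _
lemma pn_mono (n i : ℕ) : Monotone (pn n i) := fun s t h => by
  unfold pn
  apply cl_mono
  have : (2 : ℝ) ^ n * s ≤ 2 ^ n * t := mul_le_mul_of_nonneg_left h (by positivity)
  linarith
lemma continuous_pn (n i : ℕ) : Continuous (pn n i) := by
  unfold pn; exact continuous_cl.comp (by fun_prop)

lemma pn_anti (n : ℕ) (i : ℕ) (t : ℝ) : pn n (i + 1) t ≤ pn n i t := by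
  unfold pn
  apply cl_mono
  push_cast; linarith

lemma pn_split (n i : ℕ) (t : ℝ) :
    pn n i t = (pn (n + 1) (2 * i) t + pn (n + 1) (2 * i + 1) t) / 2 := by
  unfold pn
  rw [cl_double]
  push_cast
  ring_nf

/-- Tent function (Schauder function of height one half). -/
noncomputable def tent (n j : ℕ) (t : ℝ) : ℝ :=
  (pn (n + 1) (2 * j) t - pn (n + 1) (2 * j + 1) t) / 2

lemma tent_nonneg (n j : ℕ) (t : ℝ) : 0 ≤ tent n j t := by
  unfold tent
  have := pn_anti (n + 1) (2 * j) t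
  linarith

lemma tent_le (n j : ℕ) (t : ℝ) : tent n j t ≤ 1 / 2 := by
  unfold tent
  have := pn_nonneg (n + 1) (2 * j + 1) t
  have := pn_le_one (n + 1) (2 * j) t
  linarith

lemma continuous_tent (n j : ℕ) : Continuous (tent n j) := by
  unfold tent
  exact ((continuous_pn _ _).sub (continuous_pn _ _)).div_const _

lemma sum_range_two_mul (f : ℕ → ℝ) (N : ℕ) :
    ∑ i ∈ Finset.range (2 * N), f i = ∑ i ∈ Finset.range N, (f (2 * i) + f (2 * i + 1)) := by
  induction N with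
  | zero => simp
  | succ N ih =>
    rw [Finset.sum_range_succ, ← ih, show 2 * (N + 1) = 2 * N + 1 + 1 by ring,
      Finset.sum_range_succ, Finset.sum_range_succ]
    ring

/-- Covariance of the partial sums of the tent expansion. -/
lemma tent_identity (n : ℕ) (s t : ℝ) :
    cl s * cl t + ∑ m ∈ Finset.range n, (1 / 2 : ℝ) ^ m *
      ∑ j ∈ Finset.range (2 ^ m), tent m j s * tent m j t =
    (1 / 2 : ℝ) ^ n * ∑ i ∈ Finset.range (2 ^ n), pn n i s * pn n i t := by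
  induction n with
  | zero => simp [pn]
  | succ n ih =>
    rw [Finset.sum_range_succ, ← add_assoc, ih, pow_succ 2 n, mul_comm (2 ^ n) 2,
      sum_range_two_mul, ← mul_add, ← Finset.sum_add_distrib, pow_succ (1 / 2 : ℝ) n, mul_assoc]
    congr 1
    rw [Finset.mul_sum]
    refine Finset.sum_congr rfl fun i _ => ?_
    rw [pn_split n i s, pn_split n i t]
    unfold tent
    ring

lemma sum_pn (n : ℕ) (s : ℝ) :
    (1 / 2 : ℝ) ^ n * ∑ i ∈ Finset.range (2 ^ n), pn n i s = cl s := by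
  induction n with
  | zero => simp [pn]
  | succ n ih =>
    rw [← ih, pow_succ 2 n, mul_comm (2 ^ n) 2, sum_range_two_mul, pow_succ (1 / 2 : ℝ) n,
      mul_assoc]
    congr 1
    rw [Finset.mul_sum]
    refine Finset.sum_congr rfl fun i _ => ?_
    rw [pn_split n i s]; ring

lemma pn_mul_one_sub_le (n i : ℕ) (s : ℝ) :
    pn n i s * (1 - pn n i s) ≤ pn n i s - pn n (i + 1) s := by
  by_cases h : 2 ^ n * s - i ≤ 1
  · have h1 : pn n (i + 1) s = 0 := by
      unfold pn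
      apply cl_of_nonpos
      push_cast; linarith
    rw [h1]
    nlinarith [pn_nonneg n i s, sq_nonneg (pn n i s)]
  · have h1 : pn n i s = 1 := by
      unfold pn
      exact cl_of_one_le (by linarith)
    rw [h1]
    have := pn_le_one n (i + 1) s
    linarith

lemma sum_pn_mul_one_sub_le (n : ℕ) {s t : ℝ} (hst : s ≤ t) :
    ∑ i ∈ Finset.range (2 ^ n), pn n i s * (1 - pn n i t) ≤ 1 := by
  calc ∑ i ∈ Finset.range (2 ^ n), pn n i s * (1 - pn n i t)
      ≤ ∑ i ∈ Finset.range (2 ^ n), (pn n i s - pn n (i + 1) s) := by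
        refine Finset.sum_le_sum fun i _ => ?_
        refine le_trans ?_ (pn_mul_one_sub_le n i s)
        have := pn_mono n i hst
        exact mul_le_mul_of_nonneg_left (by linarith) (pn_nonneg n i s)
    _ = pn n 0 s - pn n (2 ^ n) s := Finset.sum_range_sub' (fun i => pn n i s) (2 ^ n)
    _ ≤ 1 := by
        have := pn_le_one n 0 s
        have := pn_nonneg n (2 ^ n) s
        linarith

/-- The covariance kernel of the partial sums up to level `n`. -/
noncomputable def cov (n : ℕ) (s t : ℝ) : ℝ :=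
  cl s * cl t + ∑ m ∈ Finset.range n, (1 / 2 : ℝ) ^ m *
      ∑ j ∈ Finset.range (2 ^ m), tent m j s * tent m j t

lemma cov_comm (n : ℕ) (s t : ℝ) : cov n s t = cov n t s := by
  unfold cov
  simp only [mul_comm]

lemma cov_bound (n : ℕ) {s t : ℝ} (hst : s ≤ t) :
    |cov n s t - cl s| ≤ (1 / 2) ^ n := by
  have h1 : cov n s t - cl s =
      -((1 / 2 : ℝ) ^ n * ∑ i ∈ Finset.range (2 ^ n), pn n i s * (1 - pn n i t)) := by
    unfold cov
    rw [tent_identity, ← sum_pn n s, ← mul_sub, ← Finset.sum_sub_distrib, ← mul_neg,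
      ← Finset.sum_neg_distrib]
    congr 1
    refine Finset.sum_congr rfl fun i _ => ?_
    ring
  rw [h1, abs_neg, abs_of_nonneg]
  · have := sum_pn_mul_one_sub_le n hst
    have h2 : (0 : ℝ) ≤ (1 / 2) ^ n := by positivity
    nlinarith
  · refine mul_nonneg (by positivity) (Finset.sum_nonneg fun i _ => ?_)
    have := pn_le_one n i t
    exact mul_nonneg (pn_nonneg n i s) (by linarith)

lemma tendsto_cov (s t : ℝ) : Tendsto (fun n => cov n s t) atTop (𝓝 (cl (min s t))) := by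
  have h0 : Tendsto (fun n : ℕ => (1 / 2 : ℝ) ^ n) atTop (𝓝 0) :=
    tendsto_pow_atTop_nhds_zero_of_lt_one (by norm_num) (by norm_num)
  have aux : ∀ {s t : ℝ}, s ≤ t → Tendsto (fun n => cov n s t) atTop (𝓝 (cl s)) := by
    intro s t hst
    rw [tendsto_iff_norm_sub_tendsto_zero]
    refine squeeze_zero (fun _ => norm_nonneg _) (fun n => ?_) h0
    exact cov_bound n hst
  rcases le_total s t with h | h
  · rw [min_eq_left h]; exact aux h
  · rw [min_eq_right h]
    simp_rw [cov_comm _ s t]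
    exact aux h

lemma sum_two_tent_le (n : ℕ) (t : ℝ) : ∑ j ∈ Finset.range (2 ^ n), 2 * tent n j t ≤ 1 := by
  calc ∑ j ∈ Finset.range (2 ^ n), 2 * tent n j t
      ≤ ∑ j ∈ Finset.range (2 ^ n), (pn (n + 1) (2 * j) t - pn (n + 1) (2 * (j + 1)) t) := by
        refine Finset.sum_le_sum fun j _ => ?_
        unfold tent
        have h := pn_anti (n + 1) (2 * j + 1) t
        rw [show 2 * (j + 1) = 2 * j + 1 + 1 by ring]
        linarith
    _ = pn (n + 1) (2 * 0) t - pn (n + 1) (2 * 2 ^ n) t :=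
        Finset.sum_range_sub' (fun j => pn (n + 1) (2 * j) t) (2 ^ n)
    _ ≤ 1 := by
        have := pn_le_one (n + 1) (2 * 0) t
        have := pn_nonneg (n + 1) (2 * 2 ^ n) t
        linarith

lemma pn_of_nonpos (n i : ℕ) {t : ℝ} (ht : t ≤ 0) : pn n i t = 0 := by
  unfold pn
  apply cl_of_nonpos
  have h1 : (2 : ℝ) ^ n * t ≤ 0 := mul_nonpos_of_nonneg_of_nonpos (by positivity) ht
  have h2 : (0 : ℝ) ≤ i := Nat.cast_nonneg i
  linarith

lemma tent_of_nonpos (n j : ℕ) {t : ℝ} (ht : t ≤ 0) : tent n j t = 0 := by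
  unfold tent; rw [pn_of_nonpos _ _ ht, pn_of_nonpos _ _ ht]; simp

lemma pn_of_one_le (n i : ℕ) (hi : i < 2 ^ n) {t : ℝ} (ht : 1 ≤ t) : pn n i t = 1 := by
  unfold pn
  apply cl_of_one_le
  have h1 : (2 : ℝ) ^ n * 1 ≤ 2 ^ n * t := mul_le_mul_of_nonneg_left ht (by positivity)
  have h2 : ((i : ℝ) + 1) ≤ 2 ^ n := by exact_mod_cast hi
  linarith

lemma tent_of_one_le (n j : ℕ) (hj : j < 2 ^ n) {t : ℝ} (ht : 1 ≤ t) : tent n j t = 0 := by
  unfold tent
  rw [pn_of_one_le _ _ _ ht, pn_of_one_le _ _ _ ht]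
  · simp
  · rw [pow_succ]; omega
  · rw [pow_succ]; omega

/-- Second difference over the `j`-th dyadic interval of level `n`. -/
noncomputable def Dn (n j : ℕ) (f : ℝ → ℝ) : ℝ :=
  2 * f ((2 * j + 1) / 2 ^ (n + 1)) - f (2 * j / 2 ^ (n + 1)) - f ((2 * j + 2) / 2 ^ (n + 1))

lemma cl_int (x : ℤ) : cl (x : ℝ) = if 1 ≤ x then 1 else 0 := by
  split_ifs with h
  · exact cl_of_one_le (by exact_mod_cast h)
  · exact cl_of_nonpos (by exact_mod_cast (by omega : x ≤ 0))

/-- `cl` is affine on dyadic intervals that do not contain an integer in the interior. -/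
lemma cl_affine (d : ℕ) (x : ℤ) (hx : Even x) (hd : 1 ≤ d) :
    2 * cl (((x : ℝ) + 1) / 2 ^ d) = cl ((x : ℝ) / 2 ^ d) + cl (((x : ℝ) + 2) / 2 ^ d) := by
  have hpos : (0 : ℝ) < 2 ^ d := by positivity
  have heven : Even ((2 : ℤ) ^ d) := by
    obtain ⟨d', rfl⟩ : ∃ d', d = d' + 1 := ⟨d - 1, by omega⟩
    rw [pow_succ]; exact even_two.mul_left _
  rcases lt_or_ge x 0 with h | h
  · have h2 : x ≤ -2 := by
      obtain ⟨y, hy⟩ := hx
      omega
    have h2' : (x : ℝ) ≤ -2 := by exact_mod_cast h2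
    rw [cl_of_nonpos, cl_of_nonpos, cl_of_nonpos]
    · ring
    all_goals
      apply div_nonpos_of_nonpos_of_nonneg _ hpos.le
      linarith
  rcases le_or_gt ((2 : ℤ) ^ d) x with h1 | h1
  · have h1' : (2 : ℝ) ^ d ≤ x := by exact_mod_cast h1
    rw [cl_of_one_le, cl_of_one_le, cl_of_one_le]
    · ring
    all_goals
      rw [le_div_iff₀ hpos]
      linarith
  · have h2 : x + 2 ≤ 2 ^ d := by
      obtain ⟨y, hy⟩ := hx
      obtain ⟨w, hw⟩ := heven
      omega
    have h2' : (x : ℝ) + 2 ≤ 2 ^ d := by exact_mod_cast h2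
    have h0 : (0 : ℝ) ≤ x := by exact_mod_cast h
    rw [cl_of_mem, cl_of_mem, cl_of_mem]
    · ring
    all_goals first
      | positivity
      | (rw [div_le_one hpos]; linarith)

lemma Dn_cl (n j : ℕ) : Dn n j cl = 0 := by
  unfold Dn
  have h := cl_affine (n + 1) (2 * j) (even_two_mul _) (by omega)
  push_cast at h
  rw [h]; ring

/-- value of `pn` at a dyadic point -/
lemma pn_dyadic_coarse (m i n : ℕ) (q : ℕ) (hmn : n ≤ m) :
    pn (m + 1) i ((q : ℝ) / 2 ^ (n + 1)) = if i + 1 ≤ q * 2 ^ (m - n) then 1 else 0 := by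
  unfold pn
  have h1 : (2 : ℝ) ^ (m + 1) * ((q : ℝ) / 2 ^ (n + 1)) - i = ((q * 2 ^ (m - n) - i : ℤ) : ℝ) := by
    have h2 : (2 : ℝ) ^ (m + 1) = 2 ^ (m - n) * 2 ^ (n + 1) := by
      rw [← pow_add]; congr 1; omega
    push_cast
    rw [h2]
    field_simp
  rw [h1, cl_int]
  have h3 : (1 : ℤ) ≤ (q : ℤ) * 2 ^ (m - n) - i ↔ i + 1 ≤ q * 2 ^ (m - n) := by
    constructor
    · intro h
      have : ((i : ℤ) + 1) ≤ (q : ℤ) * 2 ^ (m - n) := by linarith
      exact_mod_cast this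
    · intro h
      have : ((i : ℤ) + 1) ≤ (q : ℤ) * 2 ^ (m - n) := by exact_mod_cast h
      linarith
  simp only [h3]

lemma tent_dyadic_fine (m i n q : ℕ) (hmn : n < m) : tent m i ((q : ℝ) / 2 ^ (n + 1)) = 0 := by
  unfold tent
  rw [pn_dyadic_coarse _ _ _ _ hmn.le, pn_dyadic_coarse _ _ _ _ hmn.le]
  have heven : Even (q * 2 ^ (m - n)) := by
    obtain ⟨d', hd'⟩ : ∃ d', m - n = d' + 1 := ⟨m - n - 1, by omega⟩
    rw [hd', pow_succ, ← mul_assoc]; exact even_two.mul_left _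
  obtain ⟨y, hy⟩ := heven
  have : (2 * i + 1 ≤ q * 2 ^ (m - n)) ↔ (2 * i + 1 + 1 ≤ q * 2 ^ (m - n)) := by omega
  simp only [this, sub_self, zero_div]

lemma tent_dyadic_same (n i q : ℕ) :
    tent n i ((q : ℝ) / 2 ^ (n + 1)) = if q = 2 * i + 1 then 1 / 2 else 0 := by
  unfold tent
  rw [pn_dyadic_coarse _ _ _ _ le_rfl, pn_dyadic_coarse _ _ _ _ le_rfl]
  simp only [Nat.sub_self, pow_zero, mul_one]
  split_ifs with h1 h2 h3 <;> first | omega | norm_num

lemma Dn_tent_same (n j i : ℕ) : Dn n j (tent n i) = if i = j then 1 else 0 := by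
  unfold Dn
  have e1 : ((2 : ℝ) * j + 1) / 2 ^ (n + 1) = ((2 * j + 1 : ℕ) : ℝ) / 2 ^ (n + 1) := by
    push_cast; ring
  have e2 : ((2 : ℝ) * j) / 2 ^ (n + 1) = ((2 * j : ℕ) : ℝ) / 2 ^ (n + 1) := by
    push_cast; ring
  have e3 : ((2 : ℝ) * j + 2) / 2 ^ (n + 1) = ((2 * j + 2 : ℕ) : ℝ) / 2 ^ (n + 1) := by
    push_cast; ring
  rw [e1, e2, e3, tent_dyadic_same, tent_dyadic_same, tent_dyadic_same]
  have h2 : ¬ (2 * j = 2 * i + 1) := by omega
  have h3 : ¬ (2 * j + 2 = 2 * i + 1) := by omega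
  rw [if_neg h2, if_neg h3]
  by_cases h : i = j
  · subst h; simp
  · have h1 : ¬ (2 * j + 1 = 2 * i + 1) := by omega
    rw [if_neg h1, if_neg h]; ring

lemma Dn_tent_fine (n j m i : ℕ) (hmn : n < m) : Dn n j (tent m i) = 0 := by
  unfold Dn
  have e1 : ((2 : ℝ) * j + 1) / 2 ^ (n + 1) = ((2 * j + 1 : ℕ) : ℝ) / 2 ^ (n + 1) := by
    push_cast; ring
  have e2 : ((2 : ℝ) * j) / 2 ^ (n + 1) = ((2 * j : ℕ) : ℝ) / 2 ^ (n + 1) := by
    push_cast; ring
  have e3 : ((2 : ℝ) * j + 2) / 2 ^ (n + 1) = ((2 * j + 2 : ℕ) : ℝ) / 2 ^ (n + 1) := by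
    push_cast; ring
  rw [e1, e2, e3, tent_dyadic_fine _ _ _ _ hmn, tent_dyadic_fine _ _ _ _ hmn,
    tent_dyadic_fine _ _ _ _ hmn]
  ring

lemma Dn_pn_coarse (n j m i : ℕ) (hmn : m < n) : Dn n j (pn (m + 1) i) = 0 := by
  unfold Dn pn
  have h := cl_affine (n - m) (2 * j - i * 2 ^ (n - m)) ?_ (by omega)
  · have hpow : (2 : ℝ) ^ (n + 1) = 2 ^ (m + 1) * 2 ^ (n - m) := by
      rw [← pow_add]; congr 1; omega
    have hp1 : (2 : ℝ) ^ (m + 1) ≠ 0 := by positivity
    have hp2 : (2 : ℝ) ^ (n - m) ≠ 0 := by positivity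
    have f1 : ∀ y : ℝ, (2 : ℝ) ^ (m + 1) * (y / 2 ^ (n + 1)) - i = (y - i * 2 ^ (n - m)) / 2 ^ (n - m) := by
      intro y
      rw [hpow]
      field_simp
    rw [f1, f1, f1]
    push_cast at h
    have g1 : (2 * (j : ℝ) + 1 - i * 2 ^ (n - m)) = (2 * (j : ℝ) - i * 2 ^ (n - m) + 1) := by ring
    have g2 : (2 * (j : ℝ) + 2 - i * 2 ^ (n - m)) = (2 * (j : ℝ) - i * 2 ^ (n - m) + 2) := by ring
    rw [g1, g2, h]
    ring
  · obtain ⟨d', hd'⟩ : ∃ d', n - m = d' + 1 := ⟨n - m - 1, by omega⟩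
    rw [hd', pow_succ, ← mul_assoc]
    exact (even_two_mul _).sub (even_two.mul_left _)

lemma Dn_tent_coarse (n j m i : ℕ) (hmn : m < n) : Dn n j (tent m i) = 0 := by
  have h1 := Dn_pn_coarse n j m (2 * i) hmn
  have h2 := Dn_pn_coarse n j m (2 * i + 1) hmn
  unfold Dn at h1 h2 ⊢
  unfold tent
  linarith

end Pool.Agent.Lib.MP_274522_pr
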