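import Pool.Agent.Lib.MP_274522_pr.Space
import Pool.Agent.Lib.MP_274522_pr.Tent

set_option autoImplicit false
open MeasureTheory ProbabilityTheory Filter
open scoped Topology ENNReal

namespace Pool.Agent.Lib.MP_274522_pr

/-- Scaling factor of the Schauder functions of level `n`. -/
noncomputable def am (n : ℕ) : ℝ := (√(1 / 2)) ^ n

lemma am_pos (n : ℕ) : 0 < am n := by unfold am; positivity

lemma am_sq (n : ℕ) : am n ^ 2 = (1 / 2) ^ n := by
  unfold am
  rw [← pow_mul, mul_comm, pow_mul, Real.sq_sqrt (by norm_num)]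

lemma am_four (n : ℕ) : am n ^ 4 = (1 / 4) ^ n := by
  rw [show 4 = 2 * 2 by norm_num, pow_mul, am_sq, ← pow_mul, mul_comm, pow_mul]; norm_num

/-- The part of level `n` of the tent expansion. -/
noncomputable def lev (n : ℕ) (z : Blk) (t : ℝ) : ℝ :=
  am n * ∑ j ∈ Finset.range (2 ^ n), z (2 ^ n + j) * tent n j t

/-- Weight that controls level `n`. -/
noncomputable def wgt (n : ℕ) (z : Blk) : ℝ :=
  (125 / 256) ^ n * ∑ j ∈ Finset.range (2 ^ n), z (2 ^ n + j) ^ 4

lemma wgt_nonneg (n : ℕ) (z : Blk) : 0 ≤ wgt n z :=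
  mul_nonneg (by positivity) (Finset.sum_nonneg fun _ _ => by positivity)

lemma le_eps_add (x ε : ℝ) (hx : 0 ≤ x) (hε : 0 < ε) : x ≤ ε + x ^ 4 / ε ^ 3 := by
  rcases le_total x ε with h | h
  · have : 0 ≤ x ^ 4 / ε ^ 3 := by positivity
    linarith
  · have h1 : ε ^ 3 ≤ x ^ 3 := pow_le_pow_left₀ hε.le h 3
    have h2 : x ≤ x ^ 4 / ε ^ 3 := by
      rw [le_div_iff₀ (by positivity)]
      calc x * ε ^ 3 ≤ x * x ^ 3 := mul_le_mul_of_nonneg_left h1 hx
        _ = x ^ 4 := by ring
    linarith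

lemma abs_lev_le (n : ℕ) (z : Blk) (t : ℝ) : |lev n z t| ≤ (4 / 5) ^ n + wgt n z := by
  have hε : (0 : ℝ) < (4 / 5) ^ n := by positivity
  have h1 : ∀ j, |am n * (z (2 ^ n + j) * tent n j t)| ≤
      (4 / 5) ^ n * (2 * tent n j t) + (125 / 256) ^ n * z (2 ^ n + j) ^ 4 := by
    intro j
    have ht0 := tent_nonneg n j t
    have ht1 := tent_le n j t
    have h2 := le_eps_add (am n * |z (2 ^ n + j)|) ((4 / 5) ^ n)
      (mul_nonneg (am_pos n).le (abs_nonneg _)) hε
    have h3 : (am n * |z (2 ^ n + j)|) ^ 4 / ((4 / 5) ^ n) ^ 3 =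
        (125 / 256) ^ n * z (2 ^ n + j) ^ 4 := by
      have e1 : |z (2 ^ n + j)| ^ 4 = z (2 ^ n + j) ^ 4 := by
        rw [show 4 = 2 * 2 by norm_num, pow_mul, pow_mul, sq_abs]
      rw [mul_pow, am_four, e1, ← pow_mul, mul_comm n 3, pow_mul]
      rw [mul_div_right_comm, ← div_pow]
      norm_num
    rw [h3] at h2
    have h4 : 0 ≤ (125 / 256 : ℝ) ^ n * z (2 ^ n + j) ^ 4 := by positivity
    rw [abs_mul, abs_mul, abs_of_pos (am_pos n), abs_of_nonneg ht0, ← mul_assoc]
    calc am n * |z (2 ^ n + j)| * tent n j t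
        ≤ ((4 / 5) ^ n + (125 / 256) ^ n * z (2 ^ n + j) ^ 4) * tent n j t :=
          mul_le_mul_of_nonneg_right h2 ht0
      _ ≤ (4 / 5) ^ n * (2 * tent n j t) + (125 / 256) ^ n * z (2 ^ n + j) ^ 4 := by
          nlinarith
  unfold lev wgt
  rw [Finset.mul_sum]
  calc |∑ j ∈ Finset.range (2 ^ n), am n * (z (2 ^ n + j) * tent n j t)|
      ≤ ∑ j ∈ Finset.range (2 ^ n), |am n * (z (2 ^ n + j) * tent n j t)| :=
        Finset.abs_sum_le_sum_abs _ _
    _ ≤ ∑ j ∈ Finset.range (2 ^ n),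
          ((4 / 5) ^ n * (2 * tent n j t) + (125 / 256) ^ n * z (2 ^ n + j) ^ 4) :=
        Finset.sum_le_sum fun j _ => h1 j
    _ = (4 / 5) ^ n * ∑ j ∈ Finset.range (2 ^ n), 2 * tent n j t +
          (125 / 256) ^ n * ∑ j ∈ Finset.range (2 ^ n), z (2 ^ n + j) ^ 4 := by
        rw [Finset.sum_add_distrib, Finset.mul_sum, Finset.mul_sum]
    _ ≤ (4 / 5) ^ n * 1 + (125 / 256) ^ n * ∑ j ∈ Finset.range (2 ^ n), z (2 ^ n + j) ^ 4 := by
        have := sum_two_tent_le n t
        gcongr
    _ = _ := by rw [mul_one]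

/-- Blocks for which the expansion converges uniformly. -/
def good : Set Blk := {z | ∑' n, ENNReal.ofReal (wgt n z) ≠ ⊤}

lemma measurable_wgt (n : ℕ) : Measurable (wgt n) := by
  unfold wgt
  refine Measurable.const_mul ?_ _
  refine Finset.measurable_sum _ fun j _ => ?_
  fun_prop

lemma measurableSet_good : MeasurableSet good := by
  have h : Measurable fun z : Blk => ∑' n, ENNReal.ofReal (wgt n z) :=
    Measurable.tsum fun n => (measurable_wgt n).ennreal_ofReal
  have : good = (fun z : Blk => ∑' n, ENNReal.ofReal (wgt n z)) ⁻¹' {⊤}ᶜ := rfl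
  rw [this]
  exact h (measurableSet_singleton _).compl

lemma good_summable {z : Blk} (hz : z ∈ good) : Summable fun n => wgt n z := by
  have h := ENNReal.summable_toReal (f := fun n => ENNReal.ofReal (wgt n z)) hz
  refine h.congr fun n => ?_
  rw [ENNReal.toReal_ofReal (wgt_nonneg n z)]

lemma zero_mem_good : (0 : Blk) ∈ good := by
  have : ∀ n, wgt n 0 = 0 := fun n => by simp [wgt]
  simp [good, this]

/-- Fourth moment of the standard Gaussian. -/
noncomputable def mom4 : ℝ≥0∞ := ∫⁻ x, ENNReal.ofReal (x ^ 4) ∂(gaussianReal 0 1)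

lemma mom4_ne_top : mom4 ≠ ⊤ := by
  have h := (memLp_id_gaussianReal (μ := 0) (v := 1) 4)
  have h2 := h.integrable_norm_pow (p := 4) (by norm_num)
  have h3 := h2.lintegral_lt_top
  refine ne_top_of_lt (lt_of_le_of_lt (lintegral_mono fun x => ?_) h3)
  apply ENNReal.ofReal_le_ofReal
  rw [id_eq, Real.norm_eq_abs]
  rw [show 4 = 2 * 2 by norm_num, pow_mul, pow_mul, sq_abs]

lemma ae_good : ∀ᵐ z ∂blkLaw, z ∈ good := by
  have h1 : ∫⁻ z, ∑' n, ENNReal.ofReal (wgt n z) ∂blkLaw ≠ ⊤ := by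
    rw [lintegral_tsum fun n => (measurable_wgt n).ennreal_ofReal.aemeasurable]
    have h2 : ∀ n, ∫⁻ z, ENNReal.ofReal (wgt n z) ∂blkLaw =
        mom4 * ENNReal.ofReal ((125 / 128) ^ n) := by
      intro n
      have h3 : ∀ z : Blk, ENNReal.ofReal (wgt n z) = ENNReal.ofReal ((125 / 256) ^ n) *
          ∑ j ∈ Finset.range (2 ^ n), ENNReal.ofReal (z (2 ^ n + j) ^ 4) := by
        intro z
        unfold wgt
        rw [ENNReal.ofReal_mul (by positivity), ENNReal.ofReal_sum_of_nonneg]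
        intro j _; positivity
      simp_rw [h3]
      rw [lintegral_const_mul _ (by fun_prop), lintegral_finsetSum _ (by fun_prop)]
      have h4 : ∀ k : ℕ, ∫⁻ z : Blk, ENNReal.ofReal (z k ^ 4) ∂blkLaw = mom4 := by
        intro k
        have := (measurePreserving_eval_infinitePi (fun _ : ℕ => gaussianReal 0 1) k)
        exact this.lintegral_comp (f := fun x : ℝ => ENNReal.ofReal (x ^ 4)) (by fun_prop)
      simp_rw [h4]
      rw [Finset.sum_const, Finset.card_range, nsmul_eq_mul, mul_comm mom4, ← mul_assoc]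
      congr 1
      have h5 : ((2 ^ n : ℕ) : ℝ≥0∞) = ENNReal.ofReal (2 ^ n) := by
        rw [← ENNReal.ofReal_natCast]; push_cast; rfl
      rw [h5, ← ENNReal.ofReal_mul (by positivity), ← mul_pow]
      norm_num
    simp_rw [h2]
    rw [ENNReal.tsum_mul_left]
    refine ENNReal.mul_ne_top mom4_ne_top ?_
    have h6 : Summable fun n : ℕ => (125 / 128 : ℝ) ^ n :=
      summable_geometric_of_lt_one (by norm_num) (by norm_num)
    rw [← ENNReal.ofReal_tsum_of_nonneg (fun n => by positivity) h6]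
    exact ENNReal.ofReal_ne_top
  have h2 := ae_lt_top' (AEMeasurable.tsum fun n => (measurable_wgt n).ennreal_ofReal.aemeasurable) h1
  filter_upwards [h2] with z hz
  exact hz.ne

open Classical in
/-- Replace bad blocks by zero. -/
noncomputable def tr (z : Blk) : Blk := if z ∈ good then z else 0

lemma tr_of_good {z : Blk} (hz : z ∈ good) : tr z = z := by simp [tr, hz]

lemma tr_good (z : Blk) : tr z ∈ good := by
  unfold tr
  split_ifs with h
  · exact h
  · exact zero_mem_good

lemma measurable_tr : Measurable tr :=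
  Measurable.ite measurableSet_good measurable_id measurable_const

/-- The path of a block. -/
noncomputable def bp (z : Blk) (t : ℝ) : ℝ := tr z 0 * cl t + ∑' n, lev n (tr z) t

lemma summable_bound (z : Blk) (hz : z ∈ good) : Summable fun n => (4 / 5 : ℝ) ^ n + wgt n z :=
  (summable_geometric_of_lt_one (by norm_num) (by norm_num)).add (good_summable hz)

lemma continuous_lev (n : ℕ) (z : Blk) : Continuous (lev n z) := by
  unfold lev
  refine continuous_const.mul (continuous_finsetSum _ fun j _ => ?_)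
  exact continuous_const.mul (continuous_tent n j)

lemma continuous_bp (z : Blk) : Continuous (bp z) := by
  unfold bp
  refine (continuous_const.mul continuous_cl).add ?_
  exact continuous_tsum (fun n => continuous_lev n (tr z)) (summable_bound _ (tr_good z))
    (fun n t => by rw [Real.norm_eq_abs]; exact abs_lev_le n _ t)

lemma summable_lev (z : Blk) (t : ℝ) : Summable fun n => lev n (tr z) t :=
  Summable.of_norm_bounded (summable_bound _ (tr_good z))
    (fun n => by rw [Real.norm_eq_abs]; exact abs_lev_le n _ t)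

lemma measurable_lev (n : ℕ) (t : ℝ) : Measurable fun z => lev n z t := by
  unfold lev
  refine Measurable.const_mul ?_ _
  refine Finset.measurable_sum _ fun j _ => ?_
  fun_prop

lemma measurable_bp (t : ℝ) : Measurable fun z => bp z t := by
  unfold bp
  refine Measurable.add ?_ ?_
  · exact ((measurable_pi_apply 0).comp measurable_tr).mul_const _
  · exact Measurable.tsum fun n => (measurable_lev n t).comp measurable_tr

lemma lev_of_nonpos (n : ℕ) (z : Blk) {t : ℝ} (ht : t ≤ 0) : lev n z t = 0 := by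
  unfold lev
  rw [Finset.sum_eq_zero, mul_zero]
  intro j _
  rw [tent_of_nonpos n j ht, mul_zero]

lemma lev_of_one_le (n : ℕ) (z : Blk) {t : ℝ} (ht : 1 ≤ t) : lev n z t = 0 := by
  unfold lev
  rw [Finset.sum_eq_zero, mul_zero]
  intro j hj
  rw [tent_of_one_le n j (Finset.mem_range.1 hj) ht, mul_zero]

lemma bp_of_nonpos (z : Blk) {t : ℝ} (ht : t ≤ 0) : bp z t = 0 := by
  unfold bp
  simp [lev_of_nonpos _ _ ht, cl_of_nonpos ht]

lemma bp_of_one_le (z : Blk) {t : ℝ} (ht : 1 ≤ t) : bp z t = tr z 0 := by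
  unfold bp
  simp [lev_of_one_le _ _ ht, cl_of_one_le ht]

lemma bp_zero (t : ℝ) : bp 0 t = 0 := by
  unfold bp
  rw [tr_of_good zero_mem_good]
  simp [lev]

/-- The basis functions. -/
noncomputable def eb (k : ℕ) (t : ℝ) : ℝ :=
  if k = 0 then cl t else am (Nat.log 2 k) * tent (Nat.log 2 k) (k - 2 ^ Nat.log 2 k) t

lemma eb_zero (t : ℝ) : eb 0 t = cl t := by simp [eb]

lemma eb_add (m j : ℕ) (hj : j < 2 ^ m) (t : ℝ) : eb (2 ^ m + j) t = am m * tent m j t := by
  have hpos : 0 < 2 ^ m := by positivity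
  have h1 : 2 ^ m + j ≠ 0 := by omega
  have h2 : Nat.log 2 (2 ^ m + j) = m := by
    rw [Nat.log_eq_iff (Or.inr ⟨by norm_num, h1⟩)]
    constructor
    · omega
    · rw [pow_succ]; omega
  unfold eb
  rw [if_neg h1, h2]
  simp

lemma sum_range_two_pow (f : ℕ → ℝ) (n : ℕ) :
    ∑ k ∈ Finset.range (2 ^ n), f k =
      f 0 + ∑ m ∈ Finset.range n, ∑ j ∈ Finset.range (2 ^ m), f (2 ^ m + j) := by
  induction n with
  | zero => simp
  | succ n ih =>
    rw [Finset.sum_range_succ, ← add_assoc, ← ih, pow_succ, mul_two, Finset.sum_range_add]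

/-- Partial sums of the path of a block. -/
noncomputable def bpn (n : ℕ) (z : Blk) (t : ℝ) : ℝ := ∑ k ∈ Finset.range (2 ^ n), z k * eb k t

lemma bpn_eq (n : ℕ) (z : Blk) (t : ℝ) :
    bpn n z t = z 0 * cl t + ∑ m ∈ Finset.range n, lev m z t := by
  unfold bpn
  rw [sum_range_two_pow, eb_zero]
  congr 1
  refine Finset.sum_congr rfl fun m _ => ?_
  unfold lev
  rw [Finset.mul_sum]
  refine Finset.sum_congr rfl fun j hj => ?_
  rw [eb_add m j (Finset.mem_range.1 hj)]
  ring

lemma tendsto_bpn {z : Blk} (hz : z ∈ good) (t : ℝ) :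
    Tendsto (fun n => bpn n z t) atTop (𝓝 (bp z t)) := by
  have h := (summable_lev z t).hasSum.tendsto_sum_nat
  simp_rw [bpn_eq]
  unfold bp
  rw [tr_of_good hz] at h ⊢
  exact tendsto_const_nhds.add h

lemma sum_eb (n : ℕ) (s t : ℝ) : ∑ k ∈ Finset.range (2 ^ n), eb k s * eb k t = cov n s t := by
  rw [sum_range_two_pow, eb_zero, eb_zero]
  unfold cov
  congr 1
  refine Finset.sum_congr rfl fun m _ => ?_
  rw [Finset.mul_sum]
  refine Finset.sum_congr rfl fun j hj => ?_
  rw [eb_add m j (Finset.mem_range.1 hj), eb_add m j (Finset.mem_range.1 hj), ← am_sq]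
  ring

lemma Dn_bpn (n j N : ℕ) (hj : j < 2 ^ n) (hN : n < N) (z : Blk) :
    Dn n j (bpn N z) = am n * z (2 ^ n + j) := by
  have hlin : Dn n j (bpn N z) = z 0 * Dn n j cl + ∑ m ∈ Finset.range N,
      am m * ∑ i ∈ Finset.range (2 ^ m), z (2 ^ m + i) * Dn n j (tent m i) := by
    have hb : bpn N z = fun t => z 0 * cl t + ∑ m ∈ Finset.range N, lev m z t := by
      ext t; exact bpn_eq N z t
    rw [hb]
    unfold Dn lev
    have e1 : ∀ (m : ℕ), am m * ∑ i ∈ Finset.range (2 ^ m), z (2 ^ m + i) *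
        (2 * tent m i ((2 * ↑j + 1) / 2 ^ (n + 1)) - tent m i (2 * ↑j / 2 ^ (n + 1)) -
          tent m i ((2 * ↑j + 2) / 2 ^ (n + 1))) =
        2 * (am m * ∑ i ∈ Finset.range (2 ^ m), z (2 ^ m + i) *
          tent m i ((2 * ↑j + 1) / 2 ^ (n + 1))) -
        am m * ∑ i ∈ Finset.range (2 ^ m), z (2 ^ m + i) * tent m i (2 * ↑j / 2 ^ (n + 1)) -
        am m * ∑ i ∈ Finset.range (2 ^ m), z (2 ^ m + i) *
          tent m i ((2 * ↑j + 2) / 2 ^ (n + 1)) := by
      intro m
      simp only [Finset.mul_sum, ← Finset.sum_sub_distrib]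
      refine Finset.sum_congr rfl fun i _ => ?_
      ring
    simp_rw [e1]
    rw [Finset.sum_sub_distrib, Finset.sum_sub_distrib, ← Finset.mul_sum]
    ring
  rw [hlin, Dn_cl, mul_zero, zero_add, Finset.sum_eq_single n]
  · congr 1
    rw [Finset.sum_eq_single j]
    · rw [Dn_tent_same]; simp
    · intro i _ hi
      rw [Dn_tent_same, if_neg hi, mul_zero]
    · intro h; exact absurd (Finset.mem_range.2 hj) h
  · intro m _ hm
    rw [Finset.sum_eq_zero, mul_zero]
    intro i _
    rcases lt_or_gt_of_ne hm with h | h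
    · rw [Dn_tent_coarse n j m i h, mul_zero]
    · rw [Dn_tent_fine n j m i h, mul_zero]
  · intro h; exact absurd (Finset.mem_range.2 hN) h

/-- The coordinates can be read off from the path. -/
lemma Dn_bp (n j : ℕ) (hj : j < 2 ^ n) {z : Blk} (hz : z ∈ good) :
    Dn n j (bp z) = am n * z (2 ^ n + j) := by
  have h1 : Tendsto (fun N => Dn n j (bpn N z)) atTop (𝓝 (Dn n j (bp z))) := by
    unfold Dn
    exact ((tendsto_bpn hz _).const_mul 2).sub (tendsto_bpn hz _) |>.sub (tendsto_bpn hz _)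
  have h2 : Tendsto (fun N => Dn n j (bpn N z)) atTop (𝓝 (am n * z (2 ^ n + j))) := by
    refine tendsto_const_nhds.congr' ?_
    filter_upwards [eventually_gt_atTop n] with N hN
    exact (Dn_bpn n j N hj hN z).symm
  exact tendsto_nhds_unique h1 h2

end Pool.Agent.Lib.MP_274522_pr
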