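import Pool.Agent.Lib.MP_274522_pr.Space

set_option autoImplicit false
open MeasureTheory ProbabilityTheory ENNReal Filter
open scoped Topology

namespace Pool.Agent.Lib.MP_274522_pr

/-- Exponent of the window distances. -/
def expo (k : ℕ) : ℕ := 2 * k ^ 2 + 4 * k + 1

/-- Distance of the `k`-th far window. -/
def NN (k : ℕ) : ℕ := 2 ^ expo k

/-- Block index of the `k`-th far window. -/
def far (k : ℕ) : ℤ := -(NN k : ℤ)

lemma two_le_NN (k : ℕ) : 2 ≤ NN k := by
  unfold NN expo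
  calc 2 = 2 ^ 1 := by norm_num
    _ ≤ 2 ^ (2 * k ^ 2 + 4 * k + 1) := Nat.pow_le_pow_right (by norm_num) (by omega)

lemma NN_strictMono : StrictMono NN := by
  intro a b hab
  unfold NN expo
  apply Nat.pow_lt_pow_right (by norm_num)
  have : a ^ 2 < b ^ 2 := Nat.pow_lt_pow_left hab (by norm_num)
  omega

lemma far_lt_neg_one (k : ℕ) : far k < -1 := by
  have := two_le_NN k
  unfold far; omega

lemma far_ne_neg_one (k : ℕ) : far k ≠ -1 := (far_lt_neg_one k).ne

lemma far_lt_far {a b : ℕ} : far a < far b ↔ b < a := by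
  unfold far
  rw [neg_lt_neg_iff, Nat.cast_lt]
  exact NN_strictMono.lt_iff_lt

lemma far_inj {a b : ℕ} : far a = far b ↔ a = b := by
  unfold far
  rw [neg_inj, Nat.cast_inj]
  exact NN_strictMono.injective.eq_iff

lemma le_NN (k : ℕ) : k ≤ NN k := NN_strictMono.le_apply

lemma NN_succ_gt (k : ℕ) : 16 ^ (k + 1) * (2 * NN k) < NN (k + 1) := by
  have h : 16 ^ (k + 1) * (2 * NN k) = 2 ^ (4 * (k + 1) + (expo k + 1)) := by
    unfold NN
    rw [show (16 : ℕ) = 2 ^ 4 by norm_num, ← pow_mul, pow_add, pow_succ 2 (expo k)]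
    ring
  rw [h]
  unfold NN
  apply Nat.pow_lt_pow_right (by norm_num)
  unfold expo
  ring_nf
  omega

/-- The set where the sign of the far coordinate agrees with the sign of the local coordinate. -/
def mt (k : ℕ) : Set Om := {ω | 0 ≤ ω (far k) 0 ↔ 0 ≤ ω (-1) k}

lemma measurableSet_mt (k : ℕ) : MeasurableSet (mt k) := by
  have h1 : MeasurableSet {ω : Om | 0 ≤ ω (far k) 0} := by measurability
  have h2 : MeasurableSet {ω : Om | 0 ≤ ω (-1) k} := by measurability
  have : mt k = ({ω : Om | 0 ≤ ω (far k) 0} ∩ {ω : Om | 0 ≤ ω (-1) k}) ∪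
      ({ω : Om | 0 ≤ ω (far k) 0}ᶜ ∩ {ω : Om | 0 ≤ ω (-1) k}ᶜ) := by
    ext ω
    simp only [mt, Set.mem_ofPred_eq, Set.mem_union, Set.mem_inter_iff, Set.mem_compl_iff]
    tauto
  rw [this]
  exact (h1.inter h2).union (h1.compl.inter h2.compl)

lemma negC_apply_of_ne {i l : ℤ} {j : ℕ} (ω : Om) (h : l ≠ i) : negC i j ω l = ω l := by
  simp [negC, h]

lemma negC_apply_self (i : ℤ) (j : ℕ) (ω : Om) : negC i j ω i j = -ω i j := by
  simp [negC, neg1]

lemma negC_apply_coord_of_ne (i : ℤ) {j k : ℕ} (ω : Om) (h : k ≠ j) : negC i j ω i k = ω i k := by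
  simp [negC, neg1, h]

lemma mt_flip_far {k : ℕ} {ω : Om} (h : ω (far k) 0 ≠ 0) :
    negC (far k) 0 ω ∈ mt k ↔ ω ∉ mt k := by
  simp only [mt, Set.mem_ofPred_eq]
  rw [negC_apply_self, negC_apply_of_ne ω (far_ne_neg_one k).symm]
  rcases lt_or_gt_of_ne h with h | h
  · have h1 : (0 ≤ -ω (far k) 0) := by linarith
    have h2 : ¬ (0 ≤ ω (far k) 0) := by linarith
    tauto
  · have h1 : ¬ (0 ≤ -ω (far k) 0) := by linarith
    have h2 : (0 ≤ ω (far k) 0) := by linarith
    tauto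

lemma mt_flip_loc {k : ℕ} {ω : Om} (h : ω (-1) k ≠ 0) :
    negC (-1) k ω ∈ mt k ↔ ω ∉ mt k := by
  simp only [mt, Set.mem_ofPred_eq]
  rw [negC_apply_self, negC_apply_of_ne ω (far_ne_neg_one k)]
  rcases lt_or_gt_of_ne h with h | h
  · have h1 : (0 ≤ -ω (-1) k) := by linarith
    have h2 : ¬ (0 ≤ ω (-1) k) := by linarith
    tauto
  · have h1 : ¬ (0 ≤ -ω (-1) k) := by linarith
    have h2 : (0 ≤ ω (-1) k) := by linarith
    tauto

open Classical in
/-- Sign correction of the `k`-th far coordinate. -/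
noncomputable def cpl (k : ℕ) (ω : Om) : Om := if ω ∈ mt k then ω else negC (far k) 0 ω

open Classical in
/-- Sign correction of all far coordinates with index in `S`. -/
noncomputable def CS (S : Set ℕ) (ω : Om) : Om := fun i j =>
  if ∃ k ∈ S, i = far k ∧ j = 0 ∧ ω ∉ mt k then -ω i j else ω i j

lemma measurable_CS (S : Set ℕ) : Measurable (CS S) := by
  rw [measurable_pi_iff]
  intro i
  rw [measurable_pi_iff]
  intro j
  unfold CS
  refine Measurable.ite ?_ (by fun_prop) (by fun_prop)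
  have : {a : Om | ∃ k ∈ S, i = far k ∧ j = 0 ∧ a ∉ mt k} =
      ⋃ k, {a : Om | k ∈ S ∧ i = far k ∧ j = 0 ∧ a ∉ mt k} := by
    ext a; simp
  rw [this]
  refine MeasurableSet.iUnion fun k => ?_
  by_cases h : k ∈ S ∧ i = far k ∧ j = 0
  · have : {a : Om | k ∈ S ∧ i = far k ∧ j = 0 ∧ a ∉ mt k} = (mt k)ᶜ := by
      ext a; simp [h.1, h.2.1, h.2.2]
    rw [this]; exact (measurableSet_mt k).compl
  · have : {a : Om | k ∈ S ∧ i = far k ∧ j = 0 ∧ a ∉ mt k} = ∅ := by
      ext a
      simp only [Set.mem_ofPred_eq, Set.mem_empty_iff_false, iff_false]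
      rintro ⟨h1, h2, h3, _⟩
      exact h ⟨h1, h2, h3⟩
    rw [this]; exact MeasurableSet.empty

lemma CS_local (S : Set ℕ) (ω : Om) : CS S ω (-1) = ω (-1) := by
  ext j
  unfold CS
  rw [if_neg]
  rintro ⟨k, _, h, _⟩
  exact far_ne_neg_one k h.symm

lemma CS_of_gt (S : Set ℕ) (ω : Om) {i : ℤ} (hi : -1 ≤ i) : CS S ω i = ω i := by
  ext j
  unfold CS
  rw [if_neg]
  rintro ⟨k, _, h, _⟩
  have := far_lt_neg_one k
  omega

lemma CS_far_of_notMem {S : Set ℕ} {k : ℕ} (hk : k ∉ S) (ω : Om) : CS S ω (far k) = ω (far k) := by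
  ext j
  unfold CS
  rw [if_neg]
  rintro ⟨l, hl, h, _⟩
  rw [far_inj] at h
  exact hk (h ▸ hl)

lemma CS_mem_mt_of_notMem {S : Set ℕ} {k : ℕ} (hk : k ∉ S) (ω : Om) :
    CS S ω ∈ mt k ↔ ω ∈ mt k := by
  simp only [mt, Set.mem_ofPred_eq, CS_local, CS_far_of_notMem hk]

/-- the match holds after correction -/
lemma CS_mem_mt_of_mem {S : Set ℕ} {k : ℕ} (hk : k ∈ S) {ω : Om} (h : ω (far k) 0 ≠ 0) :
    CS S ω ∈ mt k := by
  simp only [mt, Set.mem_ofPred_eq, CS_local]
  by_cases hm : ω ∈ mt k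
  · have : CS S ω (far k) 0 = ω (far k) 0 := by
      unfold CS
      rw [if_neg]
      rintro ⟨l, _, h1, _, h2⟩
      rw [far_inj] at h1
      exact h2 (h1 ▸ hm)
    rw [this]; exact hm
  · have : CS S ω (far k) 0 = -ω (far k) 0 := by
      unfold CS
      rw [if_pos]
      exact ⟨k, hk, rfl, rfl, hm⟩
    rw [this]
    have h2 := (mt_flip_far (k := k) h).2 hm
    simp only [mt, Set.mem_ofPred_eq] at h2
    rw [negC_apply_self, negC_apply_of_ne ω (far_ne_neg_one k).symm] at h2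
    exact h2

lemma cpl_CS (K : ℕ) (ω : Om) : cpl K (CS (Set.Iio K) ω) = CS (Set.Iio (K + 1)) ω := by
  classical
  have hK : K ∉ Set.Iio K := by simp
  ext i j
  unfold cpl
  by_cases hm : ω ∈ mt K
  · rw [if_pos ((CS_mem_mt_of_notMem hK ω).2 hm)]
    unfold CS
    have : (∃ k ∈ Set.Iio K, i = far k ∧ j = 0 ∧ ω ∉ mt k) ↔
        (∃ k ∈ Set.Iio (K + 1), i = far k ∧ j = 0 ∧ ω ∉ mt k) := by
      constructor
      · rintro ⟨k, hk, h⟩
        exact ⟨k, Set.mem_Iio.2 (lt_trans hk (Nat.lt_succ_self K)), h⟩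
      · rintro ⟨k, hk, h1, h2, h3⟩
        have hk' : k ≠ K := fun h => h3 (h ▸ hm)
        refine ⟨k, ?_, h1, h2, h3⟩
        have := Set.mem_Iio.1 hk
        exact Set.mem_Iio.2 (by omega)
    exact if_congr this rfl rfl
  · rw [if_neg (fun h => hm ((CS_mem_mt_of_notMem hK ω).1 h))]
    by_cases hi : i = far K
    · subst hi
      by_cases hj : j = 0
      · subst hj
        rw [negC_apply_self, CS_far_of_notMem hK]
        unfold CS
        rw [if_pos]
        exact ⟨K, by simp, rfl, rfl, hm⟩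
      · rw [negC_apply_coord_of_ne _ _ hj]
        unfold CS
        rw [if_neg, if_neg]
        · rintro ⟨k, _, _, h, _⟩; exact hj h
        · rintro ⟨k, _, _, h, _⟩; exact hj h
    · rw [negC_apply_of_ne _ hi]
      unfold CS
      have : (∃ k ∈ Set.Iio K, i = far k ∧ j = 0 ∧ ω ∉ mt k) ↔
          (∃ k ∈ Set.Iio (K + 1), i = far k ∧ j = 0 ∧ ω ∉ mt k) := by
        constructor
        · rintro ⟨k, hk, h⟩
          exact ⟨k, Set.mem_Iio.2 (lt_trans hk (Nat.lt_succ_self K)), h⟩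
        · rintro ⟨k, hk, h1, h2, h3⟩
          have hk' : k ≠ K := fun h => hi (h ▸ h1)
          refine ⟨k, ?_, h1, h2, h3⟩
          have := Set.mem_Iio.1 hk
          exact Set.mem_Iio.2 (by omega)
      exact if_congr this rfl rfl

/-- The weight `2 * 1_match` of the `k`-th match. -/
noncomputable def wt (k : ℕ) (ω : Om) : ℝ := (mt k).indicator (fun _ => 2) ω

lemma wt_nonneg (k : ℕ) (ω : Om) : 0 ≤ wt k ω := Set.indicator_nonneg (fun _ _ => by norm_num) ω

lemma wt_le (k : ℕ) (ω : Om) : wt k ω ≤ 2 := by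
  unfold wt
  by_cases h : ω ∈ mt k
  · rw [Set.indicator_of_mem h]
  · rw [Set.indicator_of_notMem h]; norm_num

lemma measurable_wt (k : ℕ) : Measurable (wt k) :=
  measurable_const.indicator (measurableSet_mt k)

/-- The density of the first `K` sign matches. -/
noncomputable def DR (K : ℕ) (ω : Om) : ℝ := ∏ k ∈ Finset.range K, wt k ω

lemma DR_nonneg (K : ℕ) (ω : Om) : 0 ≤ DR K ω :=
  Finset.prod_nonneg fun k _ => wt_nonneg k ω

lemma DR_le (K : ℕ) (ω : Om) : DR K ω ≤ 2 ^ K := by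
  unfold DR
  calc (∏ k ∈ Finset.range K, wt k ω) ≤ ∏ k ∈ Finset.range K, (2 : ℝ) :=
        Finset.prod_le_prod (fun k _ => wt_nonneg k ω) (fun k _ => wt_le k ω)
    _ = 2 ^ K := by simp

lemma measurable_DR (K : ℕ) : Measurable (DR K) := by
  unfold DR
  exact Finset.measurable_prod _ fun k _ => measurable_wt k

lemma DR_succ (K : ℕ) (ω : Om) : DR (K + 1) ω = DR K ω * wt K ω := by
  unfold DR
  rw [Finset.prod_range_succ]

lemma mt_congr {k : ℕ} {ω ω' : Om} (h1 : ω (far k) 0 = ω' (far k) 0)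
    (h2 : ω (-1) k = ω' (-1) k) : ω ∈ mt k ↔ ω' ∈ mt k := by
  simp only [mt, Set.mem_ofPred_eq, h1, h2]

lemma DR_congr {K : ℕ} {ω ω' : Om} (h1 : ∀ k < K, ω (far k) 0 = ω' (far k) 0)
    (h2 : ∀ k < K, ω (-1) k = ω' (-1) k) : DR K ω = DR K ω' := by
  unfold DR
  refine Finset.prod_congr rfl fun k hk => ?_
  rw [Finset.mem_range] at hk
  have := mt_congr (h1 k hk) (h2 k hk)
  unfold wt
  by_cases h : ω ∈ mt k
  · rw [Set.indicator_of_mem h, Set.indicator_of_mem (this.1 h)]
  · rw [Set.indicator_of_notMem h, Set.indicator_of_notMem (fun h' => h (this.2 h'))]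

lemma DR_cpl (K : ℕ) (ω : Om) : DR K (cpl K ω) = DR K ω := by
  unfold cpl
  split_ifs with h
  · rfl
  · refine DR_congr (fun k hk => ?_) (fun k hk => ?_)
    · rw [negC_apply_of_ne]
      intro h2
      rw [far_inj] at h2
      omega
    · rw [negC_apply_of_ne _ (far_ne_neg_one K).symm]

lemma measurable_cpl (k : ℕ) : Measurable (cpl k) := by
  unfold cpl
  exact Measurable.ite (measurableSet_mt k) measurable_id (measurable_negC _ _)

/-- one coupling step changes the law by the density `2 * 1_match` -/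
lemma lint_cpl (k : ℕ) (G : Om → ℝ≥0∞) (hG : Measurable G) :
    ∫⁻ ω, G (cpl k ω) ∂PP = ∫⁻ ω, ENNReal.ofReal (wt k ω) * G ω ∂PP := by
  have h1 : ∫⁻ ω, G (cpl k ω) ∂PP =
      ∫⁻ ω in mt k, G ω ∂PP + ∫⁻ ω in (mt k)ᶜ, G (negC (far k) 0 ω) ∂PP := by
    rw [← lintegral_add_compl _ (measurableSet_mt k)]
    congr 1
    · refine setLIntegral_congr_fun (measurableSet_mt k) fun ω hω => ?_
      simp [cpl, hω]
    · refine setLIntegral_congr_fun (measurableSet_mt k).compl fun ω hω => ?_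
      have : ω ∉ mt k := hω
      simp [cpl, this]
  have h2 : ∫⁻ ω in (mt k)ᶜ, G (negC (far k) 0 ω) ∂PP = ∫⁻ ω in mt k, G ω ∂PP := by
    rw [← lintegral_indicator (measurableSet_mt k).compl,
      ← lintegral_indicator (measurableSet_mt k)]
    conv_rhs => rw [← map_negC (far k) 0]
    rw [lintegral_map (hG.indicator (measurableSet_mt k)) (measurable_negC _ _)]
    refine lintegral_congr_ae ?_
    filter_upwards [coord_ae_ne_zero (far k) 0] with ω hω
    by_cases hm : ω ∈ mt k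
    · rw [Set.indicator_of_notMem (by simpa using hm), Set.indicator_of_notMem]
      intro h3
      exact (mt_flip_far hω).1 h3 hm
    · rw [Set.indicator_of_mem (by simpa using hm), Set.indicator_of_mem]
      exact (mt_flip_far hω).2 hm
  rw [h1, h2, ← two_mul, ← lintegral_indicator (measurableSet_mt k),
    ← lintegral_const_mul _ (hG.indicator (measurableSet_mt k))]
  refine lintegral_congr fun ω => ?_
  by_cases hm : ω ∈ mt k
  · simp [wt, hm]
  · simp [wt, hm]

/-- a factor `2 * 1_match` integrates to one against functions that do not see the sign of the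
local coordinate -/
lemma lint_mt (k : ℕ) (G : Om → ℝ≥0∞) (hG : Measurable G)
    (hinv : ∀ ω, G (negC (-1) k ω) = G ω) :
    ∫⁻ ω, ENNReal.ofReal (wt k ω) * G ω ∂PP = ∫⁻ ω, G ω ∂PP := by
  have h1 : ∫⁻ ω, ENNReal.ofReal (wt k ω) * G ω ∂PP =
      2 * ∫⁻ ω in mt k, G ω ∂PP := by
    rw [← lintegral_indicator (measurableSet_mt k),
      ← lintegral_const_mul _ (hG.indicator (measurableSet_mt k))]
    refine lintegral_congr fun ω => ?_
    by_cases hm : ω ∈ mt k
    · simp [wt, hm]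
    · simp [wt, hm]
  have h2 : ∫⁻ ω in (mt k)ᶜ, G ω ∂PP = ∫⁻ ω in mt k, G ω ∂PP := by
    rw [← lintegral_indicator (measurableSet_mt k).compl,
      ← lintegral_indicator (measurableSet_mt k)]
    conv_rhs => rw [← map_negC (-1) k]
    rw [lintegral_map (hG.indicator (measurableSet_mt k)) (measurable_negC _ _)]
    refine lintegral_congr_ae ?_
    filter_upwards [coord_ae_ne_zero (-1) k] with ω hω
    by_cases hm : ω ∈ mt k
    · rw [Set.indicator_of_notMem (by simpa using hm), Set.indicator_of_notMem]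
      intro h3
      exact (mt_flip_loc hω).1 h3 hm
    · rw [Set.indicator_of_mem (by simpa using hm), Set.indicator_of_mem]
      · exact (hinv ω).symm
      · exact (mt_flip_loc hω).2 hm
  rw [h1, two_mul]
  nth_rewrite 2 [← h2]
  exact lintegral_add_compl G (measurableSet_mt k)

lemma lint_CS (K : ℕ) (G : Om → ℝ≥0∞) (hG : Measurable G) :
    ∫⁻ ω, G (CS (Set.Iio K) ω) ∂PP = ∫⁻ ω, ENNReal.ofReal (DR K ω) * G ω ∂PP := by
  classical
  induction K generalizing G with
  | zero =>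
    refine lintegral_congr fun ω => ?_
    have : CS (Set.Iio 0) ω = ω := by
      ext i j
      unfold CS
      rw [if_neg]
      rintro ⟨k, hk, _⟩
      simp at hk
    rw [this]
    simp [DR]
  | succ K ih =>
    have h1 : ∫⁻ ω, G (CS (Set.Iio (K + 1)) ω) ∂PP =
        ∫⁻ ω, (G ∘ cpl K) (CS (Set.Iio K) ω) ∂PP := by
      refine lintegral_congr fun ω => ?_
      simp only [Function.comp_apply, cpl_CS]
    rw [h1, ih _ (hG.comp (measurable_cpl K))]
    have h2 : ∫⁻ ω, ENNReal.ofReal (DR K ω) * (G ∘ cpl K) ω ∂PP =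
        ∫⁻ ω, (fun ω => ENNReal.ofReal (DR K ω) * G ω) (cpl K ω) ∂PP := by
      refine lintegral_congr fun ω => ?_
      simp only [Function.comp_apply, DR_cpl]
    rw [h2, lint_cpl K (fun ω => ENNReal.ofReal (DR K ω) * G ω)
      ((measurable_DR K).ennreal_ofReal.mul hG)]
    refine lintegral_congr fun ω => ?_
    rw [DR_succ, ENNReal.ofReal_mul (DR_nonneg K ω)]
    ring

/-- The law of the coupled block sequence. -/
noncomputable def QQ : Measure Om := PP.map (CS Set.univ)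

instance : IsProbabilityMeasure QQ :=
  Measure.isProbabilityMeasure_map (measurable_CS _).aemeasurable

lemma CS_univ_agree (K : ℕ) (ω : Om) {i : ℤ} (hi : far K < i) :
    CS Set.univ ω i = CS (Set.Iio K) ω i := by
  classical
  ext j
  unfold CS
  have : (∃ k ∈ Set.univ, i = far k ∧ j = 0 ∧ ω ∉ mt k) ↔
      (∃ k ∈ Set.Iio K, i = far k ∧ j = 0 ∧ ω ∉ mt k) := by
    constructor
    · rintro ⟨k, _, h1, h2⟩
      rw [h1, far_lt_far] at hi
      exact ⟨k, hi, h1, h2⟩
    · rintro ⟨k, _, h⟩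
      exact ⟨k, Set.mem_univ k, h⟩
  exact if_congr this rfl rfl

lemma lint_QQ (K : ℕ) (G : Om → ℝ≥0∞) (hG : Measurable G) (hd : DependsOn G {i | far K < i}) :
    ∫⁻ ω, G ω ∂QQ = ∫⁻ ω, ENNReal.ofReal (DR K ω) * G ω ∂PP := by
  unfold QQ
  rw [lintegral_map hG (measurable_CS _), ← lint_CS K G hG]
  refine lintegral_congr fun ω => hd fun i hi => ?_
  exact CS_univ_agree K ω hi

lemma lint_QQ_right (G : Om → ℝ≥0∞) (hG : Measurable G) (hd : DependsOn G {i | -1 ≤ i}) :
    ∫⁻ ω, G ω ∂QQ = ∫⁻ ω, G ω ∂PP := by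
  unfold QQ
  rw [lintegral_map hG (measurable_CS _)]
  refine lintegral_congr fun ω => hd fun i hi => ?_
  exact CS_of_gt _ ω hi

lemma lint_DR_left (K : ℕ) (G : Om → ℝ≥0∞) (hG : Measurable G) (hd : DependsOn G {i | i ≤ -2}) :
    ∫⁻ ω, ENNReal.ofReal (DR K ω) * G ω ∂PP = ∫⁻ ω, G ω ∂PP := by
  classical
  induction K with
  | zero => simp [DR]
  | succ K ih =>
    rw [← ih]
    have h1 : ∫⁻ ω, ENNReal.ofReal (DR (K + 1) ω) * G ω ∂PP =
        ∫⁻ ω, ENNReal.ofReal (wt K ω) * (ENNReal.ofReal (DR K ω) * G ω) ∂PP := by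
      refine lintegral_congr fun ω => ?_
      rw [DR_succ, ENNReal.ofReal_mul (DR_nonneg K ω)]
      ring
    rw [h1]
    refine lint_mt K (fun ω => ENNReal.ofReal (DR K ω) * G ω)
      ((measurable_DR K).ennreal_ofReal.mul hG) fun ω => ?_
    have h2 : DR K (negC (-1) K ω) = DR K ω := by
      refine DR_congr (fun k _ => ?_) (fun k hk => ?_)
      · rw [negC_apply_of_ne _ (far_ne_neg_one k)]
      · rw [negC_apply_coord_of_ne _ _ (by omega)]
    have h3 : G (negC (-1) K ω) = G ω := by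
      refine hd fun i hi => ?_
      rw [negC_apply_of_ne]
      simp only [Set.mem_ofPred_eq] at hi
      omega
    simp only [h2, h3]

lemma lint_QQ_left (G : Om → ℝ≥0∞) (hG : Measurable G) (K : ℕ)
    (hd : DependsOn G {i | far K < i ∧ i ≤ -2}) :
    ∫⁻ ω, G ω ∂QQ = ∫⁻ ω, G ω ∂PP := by
  rw [lint_QQ K G hG (hd.mono fun i hi => hi.1)]
  exact lint_DR_left K G hG (hd.mono fun i hi => hi.2)

/-- `QQ`-almost surely all the signs match. -/
lemma QQ_ae_mt : ∀ᵐ ω ∂QQ, ∀ k, ω ∈ mt k := by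
  rw [ae_all_iff]
  intro k
  unfold QQ
  rw [ae_map_iff (p := fun ω => ω ∈ mt k) (measurable_CS _).aemeasurable (measurableSet_mt k)]
  filter_upwards [coord_ae_ne_zero (far k) 0] with ω hω
  exact CS_mem_mt_of_mem (Set.mem_univ k) hω

end Pool.Agent.Lib.MP_274522_pr
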