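import Mathlib

set_option autoImplicit false
open MeasureTheory ENNReal

namespace Pool.Agent.Lib.MP_274522_pr

variable {Ω E : Type*} [MeasurableSpace Ω] [MeasurableSpace E]

/-- `β` is approximately reachable from every weighted part of `Q`, by choosing the index `j`
uniformly at random in a suitable finite set. -/
def Approx (Q : Measure Ω) (β : Measure E) (φ : ℕ → Ω → E) : Prop :=
  ∀ h : Ω → ℝ≥0∞, Measurable h → (∀ ω, h ω ≤ 1) → ∀ ε : ℝ≥0∞, ε ≠ 0 →
    ∃ s : Finset ℕ, s.Nonempty ∧ ∀ A : Set E, MeasurableSet A →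
      (∫⁻ ω, h ω ∂Q) * β A ≤
        (s.card : ℝ≥0∞)⁻¹ * ∑ j ∈ s, ∫⁻ ω in φ j ⁻¹' A, h ω ∂Q + ε

lemma fill_step (Q : Measure Ω) [IsProbabilityMeasure Q] (β : Measure E) [IsProbabilityMeasure β]
    (φ : ℕ → Ω → E) (hφ : ∀ j, Measurable (φ j)) (H : Approx Q β φ)
    (h : Ω → ℝ≥0∞) (hm : Measurable h) (h1 : ∀ ω, h ω ≤ 1) (b : Measure E) (hb : b ≤ β)
    (hbm : b Set.univ = ∫⁻ ω, h ω ∂Q) :
    ∃ (G : ℕ → Ω → ℝ≥0∞) (h' : Ω → ℝ≥0∞) (α b' : Measure E),
      (∀ j, Measurable (G j)) ∧ Measurable h' ∧ (∀ ω, h' ω + ∑' j, G j ω = h ω) ∧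
      b' + α = b ∧
      (∀ A, MeasurableSet A → ∑' j, ∫⁻ ω in φ j ⁻¹' A, G j ω ∂Q = α A) ∧
      (∫⁻ ω, h ω ∂Q) ^ 2 / 2 ≤ α Set.univ := by
  set r : ℝ≥0∞ := ∫⁻ ω, h ω ∂Q with hr
  have hr1 : r ≤ 1 := by
    calc r ≤ ∫⁻ _, 1 ∂Q := lintegral_mono h1
      _ = 1 := by simp
  have hrtop : r ≠ ⊤ := ne_top_of_le_ne_top one_ne_top hr1
  by_cases hr0 : r = 0
  · refine ⟨fun _ _ => 0, h, 0, b, fun _ => measurable_const, hm, ?_, ?_, ?_, ?_⟩
    · intro ω; simp
    · simp
    · intro A _; simp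
    · simp [hr0]
  have hε : r ^ 2 / 2 ≠ 0 := by
    simp [hr0]
  obtain ⟨s, hs, hA⟩ := H h hm h1 (r ^ 2 / 2) hε
  set c : ℝ≥0∞ := (s.card : ℝ≥0∞)⁻¹ with hc
  have hcard0 : (s.card : ℝ≥0∞) ≠ 0 := by
    simpa using hs.ne_empty
  have hcardtop : (s.card : ℝ≥0∞) ≠ ⊤ := ENNReal.natCast_ne_top _
  have hctop : c ≠ ⊤ := ENNReal.inv_ne_top.2 hcard0
  have hsum_c : ∑ j ∈ s, c = 1 := by
    rw [Finset.sum_const, nsmul_eq_mul, hc, ENNReal.mul_inv_cancel hcard0 hcardtop]
  set lam : Measure E := c • ∑ j ∈ s, (Q.withDensity h).map (φ j) with hlam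
  have hlamA : ∀ A, MeasurableSet A → lam A = c * ∑ j ∈ s, ∫⁻ ω in φ j ⁻¹' A, h ω ∂Q := by
    intro A hAm
    rw [hlam, Measure.smul_apply, Measure.finsetSum_apply, smul_eq_mul]
    congr 1
    refine Finset.sum_congr rfl fun j _ => ?_
    rw [Measure.map_apply (hφ j) hAm, withDensity_apply _ (hφ j hAm)]
  have hfinQ : IsFiniteMeasure (Q.withDensity h) := isFiniteMeasure_withDensity hrtop
  have hlamfin : IsFiniteMeasure lam := by
    constructor
    rw [hlamA _ MeasurableSet.univ]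
    refine ENNReal.mul_lt_top hctop.lt_top (ENNReal.sum_lt_top.2 fun j _ => ?_)
    simp only [Set.preimage_univ, Measure.restrict_univ]
    exact hrtop.lt_top
  have hbfin : IsFiniteMeasure b := isFiniteMeasure_of_le β hb
  set kap : Measure E := r • b with hkap
  have hkapfin : IsFiniteMeasure kap := by
    constructor
    rw [hkap, Measure.smul_apply, smul_eq_mul]
    exact ENNReal.mul_lt_top hrtop.lt_top (measure_lt_top b _)
  set α : Measure E := lam ⊓ kap with hα
  have hαlam : α ≤ lam := inf_le_left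
  have hαkap : α ≤ kap := inf_le_right
  have hkapb : kap ≤ b := by
    intro A
    rw [hkap, Measure.smul_apply, smul_eq_mul]
    exact mul_le_of_le_one_left zero_le hr1
  have hαb : α ≤ b := hαkap.trans hkapb
  have hαfin : IsFiniteMeasure α := isFiniteMeasure_of_le lam hαlam
  have hmass : r ^ 2 / 2 ≤ α Set.univ := by
    rw [hα, Measure.inf_apply MeasurableSet.univ]
    refine le_sInf ?_
    rintro m ⟨t, rfl⟩
    rw [Set.inter_univ, Set.inter_univ]
    have ht1 : MeasurableSet (toMeasurable lam t) := measurableSet_toMeasurable _ _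
    have ht2 : lam (toMeasurable lam t) = lam t := measure_toMeasurable t
    have ht3 : t ⊆ toMeasurable lam t := subset_toMeasurable _ _
    set t' := toMeasurable lam t
    have e1 : r * β t' ≤ lam t' + r ^ 2 / 2 := by
      rw [hlamA _ ht1]; exact hA t' ht1
    have e2 : kap t' ≤ r * β t' := by
      rw [hkap, Measure.smul_apply, smul_eq_mul]
      exact mul_le_mul_right (hb t') r
    have e3 : kap Set.univ = kap t' + kap t'ᶜ := (measure_add_measure_compl ht1).symm
    have e4 : kap Set.univ = r ^ 2 := by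
      rw [hkap, Measure.smul_apply, smul_eq_mul, hbm, pow_two]
    have e5 : kap t'ᶜ ≤ kap tᶜ := measure_mono (Set.compl_subset_compl.2 ht3)
    have e6 : r ^ 2 ≤ lam t + kap tᶜ + r ^ 2 / 2 := by
      calc r ^ 2 = kap t' + kap t'ᶜ := by rw [← e4, e3]
        _ ≤ (lam t' + r ^ 2 / 2) + kap tᶜ := add_le_add (e2.trans e1) e5
        _ = lam t + kap tᶜ + r ^ 2 / 2 := by rw [ht2]; ring
    have e7 : r ^ 2 = r ^ 2 / 2 + r ^ 2 / 2 := (ENNReal.add_halves _).symm
    have e8 : r ^ 2 / 2 ≠ ⊤ := by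
      apply ENNReal.div_ne_top (ENNReal.pow_ne_top hrtop)
      norm_num
    rw [e7] at e6
    rw [← e7] at e6
    have e9 : r ^ 2 / 2 + r ^ 2 / 2 ≤ lam t + kap tᶜ + r ^ 2 / 2 := by rwa [← e7]
    exact (ENNReal.add_le_add_iff_right e8).1 e9
  -- density of `α` with respect to `lam`
  set f : E → ℝ≥0∞ := fun x => min (α.rnDeriv lam x) 1 with hf
  have hfm : Measurable f := (Measure.measurable_rnDeriv α lam).min measurable_const
  have hf1 : ∀ x, f x ≤ 1 := fun x => min_le_right _ _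
  have hfα : lam.withDensity f = α := by
    have e1 : f =ᵐ[lam] α.rnDeriv lam := by
      filter_upwards [Measure.rnDeriv_le_one_of_le hαlam] with x hx
      exact min_eq_left hx
    rw [withDensity_congr_ae e1]
    exact Measure.withDensity_rnDeriv_eq α lam (Measure.absolutelyContinuous_of_le hαlam)
  set G : ℕ → Ω → ℝ≥0∞ := fun j ω => if j ∈ s then c * (f (φ j ω) * h ω) else 0 with hG
  have hGm : ∀ j, Measurable (G j) := by
    intro j
    by_cases hj : j ∈ s
    · simp only [hG, hj, if_true]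
      exact ((hfm.comp (hφ j)).mul hm).const_mul c
    · simp only [hG, hj, if_false]
      exact measurable_const
  have hGsum : ∀ ω, ∑' j, G j ω = ∑ j ∈ s, c * (f (φ j ω) * h ω) := by
    intro ω
    rw [tsum_eq_sum (s := s)]
    · exact Finset.sum_congr rfl fun j hj => by simp [hG, hj]
    · intro j hj; simp [hG, hj]
  have hGle : ∀ ω, ∑' j, G j ω ≤ h ω := by
    intro ω
    rw [hGsum]
    calc ∑ j ∈ s, c * (f (φ j ω) * h ω) ≤ ∑ j ∈ s, c * h ω := by
          refine Finset.sum_le_sum fun j _ => mul_le_mul_right ?_ c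
          exact mul_le_of_le_one_left zero_le (hf1 _)
      _ = h ω := by rw [← Finset.sum_mul, hsum_c, one_mul]
  have hGsm : Measurable (fun ω => ∑' j, G j ω) := Measurable.tsum hGm
  refine ⟨G, fun ω => h ω - ∑' j, G j ω, α, b - α, hGm, hm.sub hGsm, ?_, ?_, ?_, hmass⟩
  · intro ω
    exact tsub_add_cancel_of_le (hGle ω)
  · exact Measure.sub_add_cancel_of_le hαb
  · intro A hAm
    have e1 : ∀ j ∈ s, ∫⁻ x in A, f x ∂((Q.withDensity h).map (φ j)) =
        ∫⁻ ω in φ j ⁻¹' A, f (φ j ω) * h ω ∂Q := by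
      intro j _
      rw [setLIntegral_map hAm hfm (hφ j), restrict_withDensity (hφ j hAm)]
      refine (lintegral_withDensity_eq_lintegral_mul _ hm (hfm.comp (hφ j))).trans ?_
      refine lintegral_congr fun ω => ?_
      simp only [Pi.mul_apply, Function.comp_apply]
      rw [mul_comm]
    have e2 : α A = c * ∑ j ∈ s, ∫⁻ ω in φ j ⁻¹' A, f (φ j ω) * h ω ∂Q := by
      rw [← hfα, withDensity_apply _ hAm, hlam, Measure.restrict_smul, lintegral_smul_measure,
        smul_eq_mul]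
      congr 1
      rw [← lintegral_indicator hAm, lintegral_finsetSum_measure]
      refine (Finset.sum_congr rfl fun j hj => ?_)
      rw [lintegral_indicator hAm]
      exact e1 j hj
    rw [e2, Finset.mul_sum, tsum_eq_sum (s := s)]
    · refine Finset.sum_congr rfl fun j hj => ?_
      simp only [hG, hj, if_true]
      exact lintegral_const_mul c ((hfm.comp (hφ j)).mul hm)
    · intro j hj
      simp [hG, hj]

/-- A state of the filling procedure: the part `h` of `Q` that is not stopped yet and the part `b`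
of the target `β` that is not filled yet. -/
structure FillState (Q : Measure Ω) (β : Measure E) where
  h : Ω → ℝ≥0∞
  b : Measure E
  hm : Measurable h
  h1 : ∀ ω, h ω ≤ 1
  hb : b ≤ β
  hbm : b Set.univ = ∫⁻ ω, h ω ∂Q

lemma fill_step' (Q : Measure Ω) [IsProbabilityMeasure Q] (β : Measure E) [IsProbabilityMeasure β]
    (φ : ℕ → Ω → E) (hφ : ∀ j, Measurable (φ j)) (H : Approx Q β φ) (S : FillState Q β) :
    ∃ (S' : FillState Q β) (G : ℕ → Ω → ℝ≥0∞), (∀ j, Measurable (G j)) ∧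
      (∀ ω, S'.h ω + ∑' j, G j ω = S.h ω) ∧
      (∀ A, MeasurableSet A → S'.b A + ∑' j, ∫⁻ ω in φ j ⁻¹' A, G j ω ∂Q = S.b A) ∧
      (∫⁻ ω, S'.h ω ∂Q) + (∫⁻ ω, S.h ω ∂Q) ^ 2 / 2 ≤ ∫⁻ ω, S.h ω ∂Q := by
  obtain ⟨G, h', α, b', hG, hh', hsum, hbα, hA, hmass⟩ :=
    fill_step Q β φ hφ H S.h S.hm S.h1 S.b S.hb S.hbm
  have hr1 : ∫⁻ ω, S.h ω ∂Q ≤ 1 := by
    calc ∫⁻ ω, S.h ω ∂Q ≤ ∫⁻ _, 1 ∂Q := lintegral_mono S.h1
      _ = 1 := by simp
  have hrtop : ∫⁻ ω, S.h ω ∂Q ≠ ⊤ := ne_top_of_le_ne_top one_ne_top hr1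
  have e1 : ∫⁻ ω, h' ω ∂Q + α Set.univ = ∫⁻ ω, S.h ω ∂Q := by
    rw [← hA _ MeasurableSet.univ]
    simp only [Set.preimage_univ, Measure.restrict_univ]
    rw [← lintegral_tsum (fun j => (hG j).aemeasurable), ← lintegral_add_left hh']
    exact lintegral_congr hsum
  have e2 : b' Set.univ + α Set.univ = ∫⁻ ω, S.h ω ∂Q := by
    rw [← Measure.add_apply, hbα, S.hbm]
  have hαtop : α Set.univ ≠ ⊤ := by
    refine ne_top_of_le_ne_top hrtop ?_
    rw [← e1]; exact le_add_self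
  refine ⟨⟨h', b', hh', ?_, ?_, ?_⟩, G, hG, hsum, ?_, ?_⟩
  · intro ω
    refine le_trans ?_ (S.h1 ω)
    rw [← hsum ω]; exact le_self_add
  · refine le_trans ?_ S.hb
    rw [← hbα]; exact Measure.le_add_right le_rfl
  · exact (ENNReal.add_left_inj hαtop).1 (by rw [e1, e2])
  · intro A hAm
    rw [hA A hAm, ← Measure.add_apply, hbα]
  · calc ∫⁻ ω, h' ω ∂Q + (∫⁻ ω, S.h ω ∂Q) ^ 2 / 2 ≤ ∫⁻ ω, h' ω ∂Q + α Set.univ :=
        add_le_add le_rfl hmass
      _ = ∫⁻ ω, S.h ω ∂Q := e1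

/-- The filling lemma: approximate reachability gives exact reachability with a randomised
index. -/
theorem filling (Q : Measure Ω) [IsProbabilityMeasure Q] (β : Measure E) [IsProbabilityMeasure β]
    (φ : ℕ → Ω → E) (hφ : ∀ j, Measurable (φ j)) (H : Approx Q β φ) :
    ∃ g : ℕ → Ω → ℝ≥0∞, (∀ j, Measurable (g j)) ∧ (∀ᵐ ω ∂Q, ∑' j, g j ω = 1) ∧
      ∀ A, MeasurableSet A → ∑' j, ∫⁻ ω in φ j ⁻¹' A, g j ω ∂Q = β A := by
  choose nextS nextG hGm hsum hA hmass using fill_step' Q β φ hφ H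
  let S : ℕ → FillState Q β := fun n => Nat.rec
    ⟨fun _ => 1, β, measurable_const, fun _ => le_rfl, le_rfl, by simp⟩ (fun _ s => nextS s) n
  have hS0h : ∀ ω, (S 0).h ω = 1 := fun _ => rfl
  have hS0b : (S 0).b = β := rfl
  have hSs : ∀ n, S (n + 1) = nextS (S n) := fun _ => rfl
  let G : ℕ → ℕ → Ω → ℝ≥0∞ := fun n => nextG (S n)
  let r : ℕ → ℝ≥0∞ := fun n => ∫⁻ ω, (S n).h ω ∂Q
  have hr : ∀ n, r (n + 1) + r n ^ 2 / 2 ≤ r n := fun n => hmass (S n)
  have hr0 : ⨅ n, r n = 0 := by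
    set l := ⨅ n, r n with hl
    have h1 : ∀ n, l + l ^ 2 / 2 ≤ r n := by
      intro n
      refine le_trans ?_ (hr n)
      have hl1 : l ≤ r n := iInf_le r n
      have hl2 : l ≤ r (n + 1) := iInf_le r (n + 1)
      gcongr
    have h2 : l + l ^ 2 / 2 ≤ l := le_iInf h1
    have hl1 : l ≤ 1 := by
      refine (iInf_le _ 0).trans ?_
      show ∫⁻ ω, (S 0).h ω ∂Q ≤ 1
      simp [hS0h]
    have hltop : l ≠ ⊤ := ne_top_of_le_ne_top one_ne_top hl1
    have h3 : l ^ 2 / 2 ≤ 0 := by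
      have : l + l ^ 2 / 2 ≤ l + 0 := by rw [add_zero]; exact h2
      exact (ENNReal.add_le_add_iff_left hltop).1 this
    have h4 : l ^ 2 / 2 = 0 := le_antisymm h3 zero_le
    have h5 : l ^ 2 = 0 := by
      rcases ENNReal.div_eq_zero_iff.1 h4 with h | h
      · exact h
      · norm_num at h
    exact pow_eq_zero_iff (two_ne_zero) |>.1 h5
  have hpart : ∀ ω N, ∑ n ∈ Finset.range N, ∑' j, G n j ω + (S N).h ω = 1 := by
    intro ω N
    induction N with
    | zero => simp [hS0h]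
    | succ N ih =>
      rw [Finset.sum_range_succ, add_assoc]
      have : ∑' j, G N j ω + (S (N + 1)).h ω = (S N).h ω := by
        rw [add_comm, hSs]; exact hsum (S N) ω
      rw [this, ih]
  have hpartA : ∀ A, MeasurableSet A → ∀ N,
      ∑ n ∈ Finset.range N, ∑' j, ∫⁻ ω in φ j ⁻¹' A, G n j ω ∂Q + (S N).b A = β A := by
    intro A hAm N
    induction N with
    | zero => simp [hS0b]
    | succ N ih =>
      rw [Finset.sum_range_succ, add_assoc]
      have : ∑' j, ∫⁻ ω in φ j ⁻¹' A, G N j ω ∂Q + (S (N + 1)).b A = (S N).b A := by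
        rw [add_comm, hSs]; exact hA (S N) A hAm
      rw [this, ih]
  refine ⟨fun j ω => ∑' n, G n j ω, fun j => Measurable.tsum fun n => hGm (S n) j, ?_, ?_⟩
  · have h1 : ∫⁻ ω, ⨅ n, (S n).h ω ∂Q = 0 := by
      refine le_antisymm ?_ zero_le
      rw [← hr0]
      exact le_iInf fun n => lintegral_mono fun ω => iInf_le _ n
    have h2 : Measurable (fun ω => ⨅ n, (S n).h ω) := Measurable.iInf fun n => (S n).hm
    rw [lintegral_eq_zero_iff h2] at h1
    filter_upwards [h1] with ω hω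
    have hω' : ⨅ n, (S n).h ω = 0 := hω
    rw [ENNReal.tsum_comm]
    refine le_antisymm ?_ ?_
    · rw [ENNReal.tsum_eq_iSup_nat]
      refine iSup_le fun N => ?_
      rw [← hpart ω N]; exact le_self_add
    · have h3 : ∀ N, 1 ≤ ∑' n, ∑' j, G n j ω + (S N).h ω := by
        intro N
        rw [← hpart ω N]
        exact add_le_add (ENNReal.sum_le_tsum _) le_rfl
      have h4 : 1 ≤ ⨅ N, (∑' n, ∑' j, G n j ω + (S N).h ω) := le_iInf h3
      rw [← ENNReal.add_iInf, hω', add_zero] at h4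
      exact h4
  · intro A hAm
    have h0 : ∀ j, ∫⁻ ω in φ j ⁻¹' A, ∑' n, G n j ω ∂Q =
        ∑' n, ∫⁻ ω in φ j ⁻¹' A, G n j ω ∂Q := fun j =>
      lintegral_tsum fun n => (hGm (S n) j).aemeasurable
    simp_rw [h0]
    rw [ENNReal.tsum_comm]
    have h5 : ⨅ N, (S N).b A = 0 := by
      refine le_antisymm ?_ zero_le
      rw [← hr0]
      refine le_iInf fun n => (iInf_le _ n).trans ?_
      show (S n).b A ≤ ∫⁻ ω, (S n).h ω ∂Q
      rw [← (S n).hbm]
      exact measure_mono (Set.subset_univ A)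
    refine le_antisymm ?_ ?_
    · rw [ENNReal.tsum_eq_iSup_nat]
      refine iSup_le fun N => ?_
      rw [← hpartA A hAm N]; exact le_self_add
    · have h3 : ∀ N, β A ≤ ∑' n, ∑' j, ∫⁻ ω in φ j ⁻¹' A, G n j ω ∂Q + (S N).b A := by
        intro N
        rw [← hpartA A hAm N]
        exact add_le_add (ENNReal.sum_le_tsum _) le_rfl
      have h4 : β A ≤ ⨅ N, (∑' n, ∑' j, ∫⁻ ω in φ j ⁻¹' A, G n j ω ∂Q + (S N).b A) := le_iInf h3
      rw [← ENNReal.add_iInf, h5, add_zero] at h4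
      exact h4

/-- The uniform law on `[0, 1)`. -/
noncomputable def unif : Measure ℝ := volume.restrict (Set.Ico 0 1)

instance : IsProbabilityMeasure unif := ⟨by simp [unif]⟩

lemma unif_Ico (a b : ℝ≥0∞) (hb : b ≤ 1) :
    unif {u : ℝ | a ≤ ENNReal.ofReal u ∧ ENNReal.ofReal u < b} = b - a := by
  have hbt : b ≠ ⊤ := ne_top_of_le_ne_top one_ne_top hb
  rcases lt_or_ge a b with hab | hab
  · have hat : a ≠ ⊤ := hab.ne_top
    have e1 : {u : ℝ | a ≤ ENNReal.ofReal u ∧ ENNReal.ofReal u < b} ∩ Set.Ico 0 1 =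
        Set.Ico a.toReal b.toReal := by
      ext u
      simp only [Set.mem_inter_iff, Set.mem_ofPred_eq, Set.mem_Ico]
      constructor
      · rintro ⟨⟨h1, h2⟩, h3, h4⟩
        constructor
        · rw [ENNReal.le_ofReal_iff_toReal_le hat h3] at h1
          exact h1
        · exact (ENNReal.ofReal_lt_iff_lt_toReal h3 hbt).1 h2
      · rintro ⟨h1, h2⟩
        have h3 : 0 ≤ u := ENNReal.toReal_nonneg.trans h1
        refine ⟨⟨(ENNReal.le_ofReal_iff_toReal_le hat h3).2 h1,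
          (ENNReal.ofReal_lt_iff_lt_toReal h3 hbt).2 h2⟩, h3, ?_⟩
        refine lt_of_lt_of_le h2 ?_
        exact ENNReal.toReal_le_of_le_ofReal zero_le_one (by simpa using hb)
    have hmeas : MeasurableSet {u : ℝ | a ≤ ENNReal.ofReal u ∧ ENNReal.ofReal u < b} :=
      (measurableSet_le measurable_const ENNReal.measurable_ofReal).inter
        (measurableSet_lt ENNReal.measurable_ofReal measurable_const)
    rw [unif, Measure.restrict_apply hmeas, e1, Real.volume_Ico,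
      ← ENNReal.toReal_sub_of_le hab.le hbt, ENNReal.ofReal_toReal]
    exact ne_top_of_le_ne_top hbt tsub_le_self
  · have e1 : {u : ℝ | a ≤ ENNReal.ofReal u ∧ ENNReal.ofReal u < b} = ∅ := by
      ext u
      simp only [Set.mem_ofPred_eq, Set.mem_empty_iff_false, iff_false, not_and, not_lt]
      intro h; exact hab.trans h
    rw [e1, measure_empty, tsub_eq_zero_of_le hab]

theorem exists_index (Q : Measure Ω) [IsProbabilityMeasure Q] (β : Measure E)
    (φ : ℕ → Ω → E) (hφ : ∀ j, Measurable (φ j)) (g : ℕ → Ω → ℝ≥0∞) (hg : ∀ j, Measurable (g j))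
    (hsum : ∀ᵐ ω ∂Q, ∑' j, g j ω = 1)
    (hA : ∀ A, MeasurableSet A → ∑' j, ∫⁻ ω in φ j ⁻¹' A, g j ω ∂Q = β A) :
    ∃ J : Ω × ℝ → ℕ, Measurable J ∧
      ∀ A, MeasurableSet A → (Q.prod unif) {p | φ (J p) p.1 ∈ A} = β A := by
  classical
  let cum : ℕ → Ω → ℝ≥0∞ := fun j ω => ∑ i ∈ Finset.range j, g i ω
  have hcum : ∀ j, Measurable (cum j) := fun j => Finset.measurable_sum _ fun i _ => hg i
  let pr : Ω × ℝ → ℕ → Prop := fun p N =>
    ENNReal.ofReal p.2 < cum (N + 1) p.1 ∨ ∀ k, ¬ ENNReal.ofReal p.2 < cum (k + 1) p.1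
  have hex : ∀ p, ∃ N, pr p N := by
    intro p
    by_cases h : ∃ N, ENNReal.ofReal p.2 < cum (N + 1) p.1
    · obtain ⟨N, hN⟩ := h
      exact ⟨N, Or.inl hN⟩
    · exact ⟨0, Or.inr (fun k hk => h ⟨k, hk⟩)⟩
  have hltm : ∀ k, MeasurableSet {p : Ω × ℝ | ENNReal.ofReal p.2 < cum (k + 1) p.1} := fun k =>
    measurableSet_lt (ENNReal.measurable_ofReal.comp measurable_snd)
      ((hcum (k + 1)).comp measurable_fst)
  have hprm : ∀ k, MeasurableSet {p | pr p k} := by
    intro k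
    refine (hltm k).union ?_
    have : {p : Ω × ℝ | ∀ k, ¬ ENNReal.ofReal p.2 < cum (k + 1) p.1} =
        ⋂ k, {p : Ω × ℝ | ENNReal.ofReal p.2 < cum (k + 1) p.1}ᶜ := by
      ext p; simp
    have h2 := MeasurableSet.iInter fun k => (hltm k).compl
    rw [← this] at h2
    exact h2
  have hJm : Measurable (fun p => Nat.find (hex p)) := measurable_find hex hprm
  refine ⟨fun p => Nat.find (hex p), hJm, ?_⟩
  intro A hAm
  let D : ℕ → Set (Ω × ℝ) := fun j =>
    {p | cum j p.1 ≤ ENNReal.ofReal p.2 ∧ ENNReal.ofReal p.2 < cum (j + 1) p.1}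
  have hDm : ∀ j, MeasurableSet (D j) := fun j =>
    (measurableSet_le ((hcum j).comp measurable_fst)
      (ENNReal.measurable_ofReal.comp measurable_snd)).inter (hltm j)
  have hcmono : ∀ ω, Monotone fun j => cum j ω := by
    intro ω i j hij
    exact Finset.sum_le_sum_of_subset (Finset.range_mono hij)
  have hDJ : ∀ j, ∀ p ∈ D j, Nat.find (hex p) = j := by
    intro j p hp
    rw [Nat.find_eq_iff]
    refine ⟨Or.inl hp.2, ?_⟩
    rintro n hn (h | h)
    · exact absurd (lt_of_lt_of_le h (hcmono p.1 (Nat.succ_le_of_lt hn))) (not_lt.2 hp.1)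
    · exact h j hp.2
  have hDdisj : Pairwise (Function.onFun Disjoint D) := by
    intro i j hij
    rw [Function.onFun, Set.disjoint_left]
    intro p hi hj
    exact hij ((hDJ i p hi).symm.trans (hDJ j p hj))
  have hDslice : ∀ j ω, (∑' i, g i ω = 1) → unif (Prod.mk ω ⁻¹' D j) = g j ω := by
    intro j ω hω
    have hle : cum (j + 1) ω ≤ 1 := by
      rw [← hω]; exact ENNReal.sum_le_tsum _
    have h1 : Prod.mk ω ⁻¹' D j =
        {u : ℝ | cum j ω ≤ ENNReal.ofReal u ∧ ENNReal.ofReal u < cum (j + 1) ω} := rfl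
    rw [h1, unif_Ico _ _ hle]
    show ∑ i ∈ Finset.range (j + 1), g i ω - ∑ i ∈ Finset.range j, g i ω = g j ω
    rw [Finset.sum_range_succ, ENNReal.add_sub_cancel_left]
    refine ne_top_of_le_ne_top one_ne_top ?_
    rw [← hω]; exact ENNReal.sum_le_tsum _
  have hDA : ∀ (j : ℕ) (B : Set Ω), MeasurableSet B → 
      (Q.prod unif) (D j ∩ Prod.fst ⁻¹' B) = ∫⁻ ω in B, g j ω ∂Q := by
    intro j B hB
    rw [Measure.prod_apply ((hDm j).inter (measurable_fst hB)), ← lintegral_indicator hB]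
    refine lintegral_congr_ae ?_
    filter_upwards [hsum] with ω hω
    by_cases hωB : ω ∈ B
    · rw [Set.indicator_of_mem hωB]
      have : Prod.mk ω ⁻¹' (D j ∩ Prod.fst ⁻¹' B) = Prod.mk ω ⁻¹' D j := by
        ext u; simp [hωB]
      rw [this, hDslice j ω hω]
    · rw [Set.indicator_of_notMem hωB]
      have : Prod.mk ω ⁻¹' (D j ∩ Prod.fst ⁻¹' B) = ∅ := by
        ext u; simp [hωB]
      rw [this, measure_empty]
  have hDtot : (Q.prod unif) (⋃ j, D j)ᶜ = 0 := by
    have h1 : (Q.prod unif) (⋃ j, D j) = 1 := by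
      rw [measure_iUnion hDdisj hDm]
      have h2 : ∀ j, (Q.prod unif) (D j) = ∫⁻ ω, g j ω ∂Q := by
        intro j
        have := hDA j Set.univ MeasurableSet.univ
        simpa using this
      simp_rw [h2]
      rw [← lintegral_tsum (fun j => (hg j).aemeasurable), lintegral_congr_ae hsum]
      simp
    rw [prob_compl_eq_zero_iff (MeasurableSet.iUnion hDm)]
    exact h1
  have hset : MeasurableSet {p : Ω × ℝ | φ (Nat.find (hex p)) p.1 ∈ A} := by
    have : {p : Ω × ℝ | φ (Nat.find (hex p)) p.1 ∈ A} =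
        ⋃ j, ({p | Nat.find (hex p) = j} ∩ Prod.fst ⁻¹' (φ j ⁻¹' A)) := by
      ext p; simp
    rw [this]
    exact MeasurableSet.iUnion fun j => (hJm (measurableSet_singleton j)).inter
      (measurable_fst (hφ j hAm))
  calc (Q.prod unif) {p | φ (Nat.find (hex p)) p.1 ∈ A}
      = (Q.prod unif) ({p | φ (Nat.find (hex p)) p.1 ∈ A} ∩ ⋃ j, D j) := by
        rw [measure_inter_conull hDtot]
    _ = (Q.prod unif) (⋃ j, (D j ∩ Prod.fst ⁻¹' (φ j ⁻¹' A))) := by
        congr 1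
        ext p
        simp only [Set.mem_inter_iff, Set.mem_iUnion, Set.mem_ofPred_eq, Set.mem_preimage]
        constructor
        · rintro ⟨h1, j, hj⟩
          rw [hDJ j p hj] at h1
          exact ⟨j, hj, h1⟩
        · rintro ⟨j, hj, h1⟩
          refine ⟨?_, j, hj⟩
          rw [hDJ j p hj]; exact h1
    _ = ∑' j, (Q.prod unif) (D j ∩ Prod.fst ⁻¹' (φ j ⁻¹' A)) := by
        rw [measure_iUnion]
        · intro i j hij
          exact (hDdisj hij).mono Set.inter_subset_left Set.inter_subset_left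
        · exact fun j => (hDm j).inter (measurable_fst (hφ j hAm))
    _ = ∑' j, ∫⁻ ω in φ j ⁻¹' A, g j ω ∂Q := by
        congr 1
        ext j
        exact hDA j _ (hφ j hAm)
    _ = β A := hA A hAm

/-- Combination of the previous statements. -/
theorem exists_random_index (Q : Measure Ω) [IsProbabilityMeasure Q] (β : Measure E)
    [IsProbabilityMeasure β] (φ : ℕ → Ω → E) (hφ : ∀ j, Measurable (φ j)) (H : Approx Q β φ) :
    ∃ J : Ω × ℝ → ℕ, Measurable J ∧
      ∀ A, MeasurableSet A → (Q.prod unif) {p | φ (J p) p.1 ∈ A} = β A := by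
  obtain ⟨g, hg, hsum, hA⟩ := filling Q β φ hφ H
  exact exists_index Q β φ hφ g hg hsum hA

end Pool.Agent.Lib.MP_274522_pr
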