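import Pool.Agent.Lib.MP_274522_pr.Path

set_option autoImplicit false
open MeasureTheory ProbabilityTheory Filter
open scoped Topology ENNReal NNReal

namespace Pool.Agent.Lib.MP_274522_pr

/-- Almost sure limits of centred Gaussian variables with converging variances. -/
lemma gaussian_limit {Ω : Type*} [MeasurableSpace Ω] (P : Measure Ω) [IsProbabilityMeasure P]
    (L : ℕ → Ω → ℝ) (L' : Ω → ℝ) (hL : ∀ n, Measurable (L n)) (hL' : Measurable L')
    (v : ℕ → ℝ) (v' : ℝ) (hv : ∀ n, 0 ≤ v n) (hlaw : ∀ n, P.map (L n) = gaussianReal 0 (v n).toNNReal)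
    (hlim : ∀ᵐ ω ∂P, Tendsto (fun n => L n ω) atTop (𝓝 (L' ω)))
    (hvlim : Tendsto v atTop (𝓝 v')) : P.map L' = gaussianReal 0 v'.toNNReal := by
  have hv' : 0 ≤ v' := ge_of_tendsto' hvlim hv
  have := Measure.isProbabilityMeasure_map (μ := P) hL'.aemeasurable
  apply Measure.ext_of_charFun
  ext θ
  have h1 : Tendsto (fun n => charFun (P.map (L n)) θ) atTop (𝓝 (charFun (P.map L') θ)) := by
    simp_rw [charFun_apply_real]
    rw [integral_map hL'.aemeasurable (by fun_prop)]
    have h2 : ∀ n, ∫ x, Complex.exp (θ * x * Complex.I) ∂(P.map (L n)) =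
        ∫ ω, Complex.exp (θ * (L n ω) * Complex.I) ∂P := by
      intro n
      rw [integral_map (hL n).aemeasurable (by fun_prop)]
    simp_rw [h2]
    apply tendsto_integral_of_dominated_convergence (fun _ => (1 : ℝ))
    · intro n
      have := hL n
      exact Measurable.aestronglyMeasurable (by fun_prop)
    · exact integrable_const _
    · intro n
      refine Eventually.of_forall fun ω => ?_
      have : (θ : ℂ) * (L n ω) * Complex.I = ((θ * L n ω : ℝ) : ℂ) * Complex.I := by
        push_cast; ring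
      rw [this, Complex.norm_exp_ofReal_mul_I]
    · filter_upwards [hlim] with ω hω
      have h3 : Continuous fun x : ℝ => Complex.exp (θ * x * Complex.I) := by fun_prop
      exact (h3.tendsto (L' ω)).comp hω
  have h2 : Tendsto (fun n => charFun (P.map (L n)) θ) atTop
      (𝓝 (charFun (gaussianReal 0 v'.toNNReal) θ)) := by
    simp_rw [hlaw, charFun_gaussianReal]
    have h3 : Continuous fun x : ℝ => Complex.exp (θ * (0 : ℝ) * Complex.I - (x : ℂ) * θ ^ 2 / 2) := by
      fun_prop
    have h4 := (h3.tendsto v').comp hvlim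
    have e : ∀ x : ℝ, 0 ≤ x → (((x.toNNReal : ℝ≥0) : ℝ) : ℂ) = (x : ℂ) := by
      intro x hx
      rw [Real.coe_toNNReal x hx]
    rw [e v' hv']
    refine h4.congr fun n => ?_
    simp only [Function.comp]
    rw [e _ (hv n)]
  exact tendsto_nhds_unique h1 h2

lemma iIndep_coords : iIndepFun (fun (p : ℤ × ℕ) (ω : Om) => ω p.1 p.2) PP :=
  iIndepFun_uncurry_infinitePi' (X := fun (_ : ℤ) (_ : ℕ) (x : ℝ) => x)
    (fun (_ : ℤ) (_ : ℕ) => gaussianReal 0 1) (fun _ _ => measurable_id)

lemma map_coord (i : ℤ) (j : ℕ) : PP.map (fun ω => ω i j) = gaussianReal 0 1 := by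
  have h1 := (measurePreserving_eval_infinitePi (fun _ : ℤ => blkLaw) i)
  have h2 := (measurePreserving_eval_infinitePi (fun _ : ℕ => gaussianReal 0 1) j)
  exact (h2.comp h1).map_eq

/-- Finite linear combinations of the coordinates. -/
lemma map_lin (F : Finset (ℤ × ℕ)) (u : ℤ × ℕ → ℝ) :
    PP.map (fun ω => ∑ p ∈ F, u p * ω p.1 p.2) = gaussianReal 0 (∑ p ∈ F, u p ^ 2).toNNReal := by
  have hm : ∀ p : ℤ × ℕ, Measurable fun ω : Om => u p * ω p.1 p.2 := fun p => by fun_prop
  have hmS : Measurable fun ω : Om => ∑ p ∈ F, u p * ω p.1 p.2 :=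
    Finset.measurable_sum _ fun p _ => hm p
  have := Measure.isProbabilityMeasure_map (μ := PP) hmS.aemeasurable
  apply Measure.ext_of_charFun
  have hind : iIndepFun (fun (p : ℤ × ℕ) (ω : Om) => u p * ω p.1 p.2) PP :=
    iIndep_coords.comp (fun p x => u p * x) (fun p => by fun_prop)
  have h1 := (hind.restrict F).charFun_map_fun_finsetSum_eq_prod
    (fun p _ => (hm p).aemeasurable)
  rw [h1]
  ext θ
  rw [Finset.prod_apply, charFun_gaussianReal]
  have h2 : ∀ p ∈ F, charFun (PP.map fun ω : Om => u p * ω p.1 p.2) θ =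
      Complex.exp (-(u p ^ 2 : ℝ) * θ ^ 2 / 2) := by
    intro p _
    have e2 : (PP.map fun ω : Om => u p * ω p.1 p.2) = (gaussianReal 0 1).map (u p * ·) := by
      rw [← map_coord p.1 p.2, Measure.map_map (by fun_prop) (by fun_prop)]
      rfl
    rw [e2, gaussianReal_map_const_mul, charFun_gaussianReal]
    congr 1
    push_cast
    simp
    ring
  rw [Finset.prod_congr rfl h2, ← Complex.exp_sum]
  congr 1
  rw [Real.coe_toNNReal _ (Finset.sum_nonneg fun p _ => sq_nonneg _)]
  push_cast
  simp only [mul_zero, zero_mul, zero_sub, ← Finset.sum_div, ← Finset.sum_mul,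
    Finset.sum_neg_distrib]
  ring

/-- Covariance kernel of two-sided Brownian motion. -/
noncomputable def KK (s t : ℝ) : ℝ := min s t - min s 0 - min t 0

lemma cl_eq (x : ℝ) : cl x = max x 0 - max (x - 1) 0 := by
  rcases le_total x 0 with h | h
  · rw [cl_of_nonpos h, max_eq_right h, max_eq_right (by linarith)]; simp
  rcases le_total 1 x with h1 | h1
  · rw [cl_of_one_le h1, max_eq_left h, max_eq_left (by linarith)]; simp
  · rw [cl_of_mem h h1, max_eq_left h, max_eq_right (by linarith)]; simp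

lemma sum_cl_aux (x : ℝ) (a : ℤ) (n : ℕ) : ∑ l ∈ Finset.Ico a (a + n), cl (x - l) =
    max (x - a) 0 - max (x - (a + n : ℤ)) 0 := by
  induction n with
  | zero => simp
  | succ n ih =>
    have h : Finset.Ico a (a + (n + 1 : ℕ)) = insert (a + n : ℤ) (Finset.Ico a (a + n)) := by
      ext y
      simp only [Finset.mem_Ico, Finset.mem_insert]
      push_cast
      omega
    rw [h, Finset.sum_insert (by simp), ih, cl_eq]
    push_cast
    ring_nf

lemma sum_cl {x : ℝ} {a b : ℤ} (ha : (a : ℝ) ≤ x) (hb : x ≤ b) :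
    ∑ l ∈ Finset.Ico a b, cl (x - l) = x - a := by
  have hab : a ≤ b := by exact_mod_cast ha.trans hb
  obtain ⟨n, hn⟩ := Int.le.dest hab
  rw [← hn, sum_cl_aux, hn, max_eq_left (by linarith), max_eq_right (by linarith), sub_zero]

lemma XX_lin {ι : Type*} [Fintype ι] (τ c : ι → ℝ) :
    PP.map (fun ω => ∑ i, c i * XX (τ i) ω) =
      gaussianReal 0 (∑ i, ∑ j, c i * c j * KK (τ i) (τ j)).toNNReal := by
  obtain ⟨N, hN⟩ : ∃ N : ℕ, ∀ i, |τ i| ≤ N := by
    have h : ∀ i, ∃ N : ℕ, |τ i| ≤ N := fun i => exists_nat_ge _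
    choose f hf using h
    refine ⟨∑ i, f i, fun i => (hf i).trans ?_⟩
    exact_mod_cast Finset.single_le_sum (f := f) (fun _ _ => Nat.zero_le _) (Finset.mem_univ i)
  have hlo : ∀ i, ((-(N : ℤ) : ℤ) : ℝ) ≤ τ i := fun i => by
    push_cast
    have := neg_abs_le (τ i)
    linarith [hN i]
  have hhi : ∀ i, τ i ≤ ((N : ℤ) : ℝ) := fun i => by
    push_cast
    exact (le_abs_self _).trans (hN i)
  have hN0 : (0 : ℝ) ≤ N := Nat.cast_nonneg N
  let I := Finset.Ico (-(N : ℤ)) N
  let a : ι → ℤ → ℕ → ℝ := fun i l k => eb k (τ i - l) - eb k (0 - l)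
  let u : ℤ × ℕ → ℝ := fun p => ∑ i, c i * a i p.1 p.2
  let L : ℕ → Om → ℝ := fun n ω => ∑ p ∈ I ×ˢ Finset.range (2 ^ n), u p * ω p.1 p.2
  let v : ℕ → ℝ := fun n => ∑ p ∈ I ×ˢ Finset.range (2 ^ n), u p ^ 2
  have hL : ∀ n ω, L n ω = ∑ i, c i * ∑ l ∈ I, (bpn n (ω l) (τ i - l) - bpn n (ω l) (0 - l)) := by
    intro n ω
    calc L n ω = ∑ l ∈ I, ∑ k ∈ Finset.range (2 ^ n), ∑ i, c i * a i l k * ω l k := by
          simp only [L, u]
          rw [Finset.sum_product]
          simp only [Finset.sum_mul]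
      _ = ∑ l ∈ I, ∑ i, ∑ k ∈ Finset.range (2 ^ n), c i * a i l k * ω l k :=
          Finset.sum_congr rfl fun l _ => Finset.sum_comm
      _ = ∑ i, ∑ l ∈ I, ∑ k ∈ Finset.range (2 ^ n), c i * a i l k * ω l k := Finset.sum_comm
      _ = _ := by
          refine Finset.sum_congr rfl fun i _ => ?_
          rw [Finset.mul_sum]
          refine Finset.sum_congr rfl fun l _ => ?_
          unfold bpn
          rw [← Finset.sum_sub_distrib, Finset.mul_sum]
          refine Finset.sum_congr rfl fun k _ => ?_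
          simp only [a]
          ring
  have hv : ∀ n, v n = ∑ i, ∑ j, c i * c j * ∑ l ∈ I, (cov n (τ i - l) (τ j - l) -
      cov n (τ i - l) (0 - l) - cov n (0 - l) (τ j - l) + cov n (0 - l) (0 - l)) := by
    intro n
    calc v n = ∑ l ∈ I, ∑ k ∈ Finset.range (2 ^ n), ∑ i, ∑ j, c i * c j * (a i l k * a j l k) := by
          simp only [v, u]
          rw [Finset.sum_product]
          refine Finset.sum_congr rfl fun l _ => Finset.sum_congr rfl fun k _ => ?_
          rw [sq, Finset.sum_mul_sum]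
          refine Finset.sum_congr rfl fun i _ => Finset.sum_congr rfl fun j _ => ?_
          ring
      _ = ∑ l ∈ I, ∑ i, ∑ k ∈ Finset.range (2 ^ n), ∑ j, c i * c j * (a i l k * a j l k) :=
          Finset.sum_congr rfl fun l _ => Finset.sum_comm
      _ = ∑ i, ∑ l ∈ I, ∑ k ∈ Finset.range (2 ^ n), ∑ j, c i * c j * (a i l k * a j l k) :=
          Finset.sum_comm
      _ = ∑ i, ∑ l ∈ I, ∑ j, ∑ k ∈ Finset.range (2 ^ n), c i * c j * (a i l k * a j l k) :=
          Finset.sum_congr rfl fun i _ => Finset.sum_congr rfl fun l _ => Finset.sum_comm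
      _ = ∑ i, ∑ j, ∑ l ∈ I, ∑ k ∈ Finset.range (2 ^ n), c i * c j * (a i l k * a j l k) :=
          Finset.sum_congr rfl fun i _ => Finset.sum_comm
      _ = _ := by
          refine Finset.sum_congr rfl fun i _ => Finset.sum_congr rfl fun j _ => ?_
          rw [Finset.mul_sum]
          refine Finset.sum_congr rfl fun l _ => ?_
          rw [← Finset.mul_sum, ← sum_eb, ← sum_eb, ← sum_eb, ← sum_eb, ← Finset.sum_sub_distrib,
            ← Finset.sum_sub_distrib, ← Finset.sum_add_distrib]
          congr 1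
          refine Finset.sum_congr rfl fun k _ => ?_
          simp only [a]
          ring
  have hgood : ∀ᵐ ω ∂PP, ∀ l, ω l ∈ good := by
    rw [ae_all_iff]
    intro l
    exact (measurePreserving_eval_infinitePi (fun _ : ℤ => blkLaw) l).quasiMeasurePreserving.ae
      ae_good
  have key : ∀ x y : ℝ, ((-(N : ℤ) : ℤ) : ℝ) ≤ x → x ≤ ((N : ℤ) : ℝ) → ((-(N : ℤ) : ℤ) : ℝ) ≤ y →
      y ≤ ((N : ℤ) : ℝ) → Tendsto (fun n => ∑ l ∈ I, (cov n (x - l) (y - l) -
      cov n (x - l) (0 - l) - cov n (0 - l) (y - l) + cov n (0 - l) (0 - l))) atTop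
      (𝓝 (KK x y)) := by
    intro x y hx1 hx2 hy1 hy2
    have h1 : Tendsto (fun n => ∑ l ∈ I, (cov n (x - l) (y - l) -
      cov n (x - l) (0 - l) - cov n (0 - l) (y - l) + cov n (0 - l) (0 - l))) atTop
      (𝓝 (∑ l ∈ I, (cl (min (x - l) (y - l)) - cl (min (x - l) (0 - l)) -
        cl (min (0 - l) (y - l)) + cl (min (0 - l) (0 - l))))) := by
      refine tendsto_finsetSum _ fun l _ => ?_
      exact (((tendsto_cov _ _).sub (tendsto_cov _ _)).sub (tendsto_cov _ _)).add (tendsto_cov _ _)
    have h2 : ∑ l ∈ I, (cl (min (x - l) (y - l)) - cl (min (x - l) (0 - l)) -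
        cl (min (0 - l) (y - l)) + cl (min (0 - l) (0 - l))) = KK x y := by
      rw [Finset.sum_add_distrib, Finset.sum_sub_distrib, Finset.sum_sub_distrib]
      simp only [min_sub_sub_right]
      push_cast at hx1 hx2 hy1 hy2
      rw [sum_cl, sum_cl, sum_cl, sum_cl]
      · unfold KK
        rw [min_self, min_comm 0 y]
        ring
      all_goals
        push_cast
        first
          | exact le_min (by linarith) (by linarith)
          | exact (min_le_left _ _).trans (by linarith)
    rwa [h2] at h1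
  apply gaussian_limit PP L _ (fun n => Finset.measurable_sum _ fun p _ => by fun_prop)
    (Finset.measurable_sum _ fun i _ => (measurable_XX _).const_mul _) v
  · intro n
    exact Finset.sum_nonneg fun p _ => sq_nonneg _
  · intro n
    exact map_lin _ _
  · filter_upwards [hgood] with ω hω
    simp_rw [hL]
    refine tendsto_finsetSum _ fun i _ => ?_
    refine Tendsto.const_mul _ ?_
    rw [XX_eq ω (a := -(N : ℤ)) (b := N) (by omega) (by omega) (hlo i) (hhi i)]
    refine tendsto_finsetSum _ fun l _ => ?_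
    exact (tendsto_bpn (hω l) _).sub (tendsto_bpn (hω l) _)
  · rw [show v = _ from funext hv]
    refine tendsto_finsetSum _ fun i _ => tendsto_finsetSum _ fun j _ => ?_
    exact Tendsto.const_mul _ (key _ _ (hlo i) (hhi i) (hlo j) (hhi j))

end Pool.Agent.Lib.MP_274522_pr
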