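import Pool.Agent.Lib.MP_274522_pr.TwoSided

set_option autoImplicit false
open MeasureTheory ProbabilityTheory Filter
open scoped Topology ENNReal NNReal

namespace Pool.Agent.Lib.MP_274522_pr

lemma prebm_transfer {Ω Ω' : Type*} [MeasurableSpace Ω] [MeasurableSpace Ω'] {B : ℝ≥0 → Ω → ℝ}
    {P : Measure Ω} (hB : IsPreBrownianReal B P) {B' : ℝ≥0 → Ω' → ℝ} {P' : Measure Ω'}
    (hm : ∀ t, Measurable (B' t))
    (h : ∀ I : Finset ℝ≥0, P'.map (fun ω => I.restrict (B' · ω)) =
      P.map (fun ω => I.restrict (B · ω))) : IsPreBrownianReal B' P' := by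
  refine ⟨fun I => ⟨?_, (h I).trans (hB.hasLaw I).map_eq⟩⟩
  have h1 : Measurable fun ω => I.restrict (B' · ω) := measurable_pi_lambda _ fun i => hm i.1
  exact h1.aemeasurable

lemma indepFun_map_of_comp {Ω Ω' α β : Type*} [MeasurableSpace Ω] [MeasurableSpace Ω']
    [MeasurableSpace α] [MeasurableSpace β] {P : Measure Ω} {φ : Ω → Ω'} {f : Ω' → α} {g : Ω' → β}
    (hφ : Measurable φ) (hf : Measurable f) (hg : Measurable g)
    (h : IndepFun (f ∘ φ) (g ∘ φ) P) : IndepFun f g (P.map φ) := by
  rw [indepFun_iff_measure_inter_preimage_eq_mul] at h ⊢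
  intro s t hs ht
  rw [Measure.map_apply hφ ((hf hs).inter (hg ht)), Measure.map_apply hφ (hf hs),
    Measure.map_apply hφ (hg ht)]
  exact h s t hs ht

lemma indepFun_comp_of_map {Ω Ω' α β : Type*} [MeasurableSpace Ω] [MeasurableSpace Ω']
    [MeasurableSpace α] [MeasurableSpace β] {P : Measure Ω} {φ : Ω → Ω'} {f : Ω' → α} {g : Ω' → β}
    (hφ : Measurable φ) (hf : Measurable f) (hg : Measurable g)
    (h : IndepFun f g (P.map φ)) : IndepFun (f ∘ φ) (g ∘ φ) P := by
  rw [indepFun_iff_measure_inter_preimage_eq_mul] at h ⊢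
  intro s t hs ht
  have := h s t hs ht
  rw [Measure.map_apply hφ ((hf hs).inter (hg ht)), Measure.map_apply hφ (hf hs),
    Measure.map_apply hφ (hg ht)] at this
  exact this

/-- The probability measure of the counterexample. -/
noncomputable def QU : Measure (Om × ℝ) := QQ.prod unif

instance : IsProbabilityMeasure QU := by unfold QU; infer_instance

lemma map_fst_QU : QU.map Prod.fst = QQ := by
  unfold QU
  rw [Measure.map_fst_prod]
  simp

/-- two functions of the blocks strictly left of `-1` have the same law under `QQ` and `PP` -/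
lemma map_QQ_left {α : Type*} [MeasurableSpace α] (f : Om → α) (hf : Measurable f) (K : ℕ)
    (hd : DependsOn f {i | far K < i ∧ i ≤ -2}) : QQ.map f = PP.map f := by
  ext A hA
  rw [Measure.map_apply hf hA, Measure.map_apply hf hA]
  have h := lint_QQ_left ((f ⁻¹' A).indicator 1) (measurable_one.indicator (hf hA)) K (by
    intro ω ω' h
    have h1 : f ω = f ω' := hd h
    by_cases h2 : f ω ∈ A
    · rw [Set.indicator_of_mem (show ω ∈ f ⁻¹' A from h2),
        Set.indicator_of_mem (show ω' ∈ f ⁻¹' A by rw [Set.mem_preimage, ← h1]; exact h2)]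
      rfl
    · rw [Set.indicator_of_notMem (show ω ∉ f ⁻¹' A from h2),
        Set.indicator_of_notMem (show ω' ∉ f ⁻¹' A by rw [Set.mem_preimage, ← h1]; exact h2)])
  rwa [lintegral_indicator_one (hf hA), lintegral_indicator_one (hf hA)] at h

/-- functions of the blocks right of `-1` have the same law under `QQ` and `PP` -/
lemma map_QQ_right {α : Type*} [MeasurableSpace α] (f : Om → α) (hf : Measurable f)
    (hd : DependsOn f {i | -1 ≤ i}) : QQ.map f = PP.map f := by
  ext A hA
  rw [Measure.map_apply hf hA, Measure.map_apply hf hA]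
  have h := lint_QQ_right ((f ⁻¹' A).indicator 1) (measurable_one.indicator (hf hA)) (by
    intro ω ω' h
    have h1 : f ω = f ω' := hd h
    by_cases h2 : f ω ∈ A
    · rw [Set.indicator_of_mem (show ω ∈ f ⁻¹' A from h2),
        Set.indicator_of_mem (show ω' ∈ f ⁻¹' A by rw [Set.mem_preimage, ← h1]; exact h2)]
      rfl
    · rw [Set.indicator_of_notMem (show ω ∉ f ⁻¹' A from h2),
        Set.indicator_of_notMem (show ω' ∉ f ⁻¹' A by rw [Set.mem_preimage, ← h1]; exact h2)])
  rwa [lintegral_indicator_one (hf hA), lintegral_indicator_one (hf hA)] at h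

/-- The backward process from time `-1` is Brownian under `QQ`. -/
lemma bwd_QQ : IsPreBrownianReal (fun (t : ℝ≥0) ω => XX (-1 - t) ω - XX (-1) ω) QQ := by
  refine prebm_transfer (TB_XX.bwd (-1)) (fun t => (measurable_XX _).sub (measurable_XX _))
    fun I => ?_
  obtain ⟨N, hN⟩ : ∃ N : ℕ, ∀ t ∈ I, (t : ℝ) ≤ N := by
    obtain ⟨N, hN⟩ := exists_nat_ge (I.sup id : ℝ≥0)
    refine ⟨N, fun t ht => ?_⟩
    have h1 : t ≤ I.sup id := Finset.le_sup (f := id) ht
    have h2 : t ≤ (N : ℝ≥0) := h1.trans hN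
    exact_mod_cast h2
  apply map_QQ_left _ _ (N + 2)
  · intro ω ω' h
    ext ⟨t, ht⟩
    simp only [Finset.restrict_def]
    have hd := XX_sub_dependsOn (s := -1) (t := -1 - (t : ℝ)) (a := -1 - N) (b := -1)
      (by push_cast; linarith [(Nat.cast_nonneg N : (0 : ℝ) ≤ N)])
      (by push_cast; linarith [hN t ht]) (by push_cast; linarith)
      (by push_cast; linarith [t.2])
    apply hd
    intro i hi
    apply h
    constructor
    · have h1 := le_NN (N + 2)
      have h2 : ((N + 2 : ℕ) : ℤ) ≤ NN (N + 2) := by exact_mod_cast h1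
      unfold far
      push_cast at h2
      have := hi.1
      omega
    · have := hi.2
      omega
  · exact measurable_pi_lambda _ fun i => (measurable_XX _).sub (measurable_XX _)

/-- From time `-J` on the process is Brownian. -/
lemma fwd_QU (J : Om × ℝ → ℕ) (hJ : Measurable J)
    (hJl : ∀ A, MeasurableSet A → QU {p | phi (J p) p.1 ∈ A} = beta A) :
    IsPreBrownianReal (fun (t : ℝ≥0) p => XX (-(J p : ℝ) + t) p.1 - XX (-(J p : ℝ)) p.1) QU := by
  have hΦ : Measurable fun p : Om × ℝ => phi (J p) p.1 := by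
    have h1 : Measurable fun q : ℕ × Om => phi q.1 q.2 :=
      measurable_from_prod_countable_right fun j => measurable_phi j
    exact h1.comp (hJ.prodMk measurable_fst)
  have hlaw : QU.map (fun p => phi (J p) p.1) = beta := by
    ext A hA
    rw [Measure.map_apply hΦ hA]
    exact hJl A hA
  have e1 : ∀ (t : ℝ≥0) (p : Om × ℝ), XX (-(J p : ℝ) + t) p.1 - XX (-(J p : ℝ)) p.1 =
      XX t (phi (J p) p.1) := by
    intro t p
    rw [XX_phi (J p) p.1 t.coe_nonneg, neg_add_eq_sub]
  have e2 : (fun (t : ℝ≥0) (p : Om × ℝ) => XX (-(J p : ℝ) + t) p.1 - XX (-(J p : ℝ)) p.1) =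
      fun (t : ℝ≥0) p => XX t (phi (J p) p.1) := by
    ext t p; exact e1 t p
  rw [e2]
  refine prebm_transfer (TB_XX.fwd 0) (fun t => (measurable_XX _).comp hΦ) fun I => ?_
  have hg : Measurable fun ω : Om => I.restrict (fun t : ℝ≥0 => XX t ω) :=
    measurable_pi_lambda _ fun i => measurable_XX _
  have e3 : (fun p : Om × ℝ => I.restrict (fun t : ℝ≥0 => XX t (phi (J p) p.1))) =
      (fun ω : Om => I.restrict (fun t : ℝ≥0 => XX t ω)) ∘ (fun p => phi (J p) p.1) := rfl
  rw [e3, ← Measure.map_map hg hΦ, hlaw]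
  unfold beta
  rw [Measure.map_map hg measurable_cut]
  congr 1
  ext ω ⟨t, ht⟩
  simp only [Function.comp_apply, Finset.restrict_def]
  rw [XX_cut ω t.coe_nonneg, zero_add, XX_zero, sub_zero]

/-- The two sides of time `0` are independent. -/
lemma indep_QQ : IndepFun (fun ω (t : ℝ≥0) => XX (0 + t) ω - XX 0 ω)
    (fun ω (t : ℝ≥0) => XX (0 - t) ω - XX 0 ω) QQ := by
  have hf : Measurable fun ω (t : ℝ≥0) => XX (0 + t) ω - XX 0 ω :=
    measurable_pi_lambda _ fun t => (measurable_XX _).sub (measurable_XX _)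
  have hg : Measurable fun ω (t : ℝ≥0) => XX (0 - t) ω - XX 0 ω :=
    measurable_pi_lambda _ fun t => (measurable_XX _).sub (measurable_XX _)
  unfold QQ
  apply indepFun_map_of_comp (measurable_CS _) hf hg
  apply indepFun_of_dependsOn (hf.comp (measurable_CS _)) (hg.comp (measurable_CS _))
    (S := {i | 0 ≤ i}) (T := {i | i < 0})
  · intro ω ω' h
    ext t
    simp only [Function.comp_apply]
    have hd := XX_sub_dependsOn (s := 0) (t := 0 + (t : ℝ)) (a := 0) (b := ⌈(t : ℝ)⌉)
      (by simp) (by simp) (by exact_mod_cast Int.ceil_nonneg t.2)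
      (by rw [zero_add]; exact Int.le_ceil _)
    apply hd
    intro i hi
    have hi0 : 0 ≤ i := hi.1
    rw [CS_of_gt _ _ (by omega), CS_of_gt _ _ (by omega)]
    exact h i hi0
  · intro ω ω' h
    ext t
    simp only [Function.comp_apply]
    have hd := XX_sub_dependsOn (s := 0) (t := 0 - (t : ℝ)) (a := ⌊-(t : ℝ)⌋) (b := 0)
      (by
        have h1 := Int.floor_le (-(t : ℝ))
        have h2 : (0 : ℝ) ≤ t := t.2
        linarith)
      (by rw [zero_sub]; exact Int.floor_le _) (by simp) (by simp)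
    apply hd
    intro i hi
    have hi0 : i < 0 := hi.2
    have hmt : ∀ k, ω ∈ mt k ↔ ω' ∈ mt k := by
      intro k
      have h1 : ω (far k) = ω' (far k) := h _ (by
        have := far_lt_neg_one k
        show far k < 0
        omega)
      have h2 : ω (-1) = ω' (-1) := h _ (by show (-1 : ℤ) < 0; omega)
      unfold mt
      simp only [Set.mem_ofPred_eq, h1, h2]
    ext j
    unfold CS
    have hex : (∃ k ∈ Set.univ, i = far k ∧ j = 0 ∧ ω ∉ mt k) ↔
        (∃ k ∈ Set.univ, i = far k ∧ j = 0 ∧ ω' ∉ mt k) := by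
      constructor
      · rintro ⟨k, h1, h2, h3, h4⟩
        exact ⟨k, h1, h2, h3, fun h5 => h4 ((hmt k).2 h5)⟩
      · rintro ⟨k, h1, h2, h3, h4⟩
        exact ⟨k, h1, h2, h3, fun h5 => h4 ((hmt k).1 h5)⟩
    have hij : ω i = ω' i := h i hi0
    rw [hij]
    by_cases h0 : ∃ k ∈ Set.univ, i = far k ∧ j = 0 ∧ ω ∉ mt k
    · rw [if_pos h0, if_pos (hex.1 h0)]
    · rw [if_neg h0, if_neg (fun h1 => h0 (hex.2 h1))]
  · rw [Set.disjoint_left]
    intro i h1 h2
    simp only [Set.mem_ofPred_eq] at h1 h2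
    omega

end Pool.Agent.Lib.MP_274522_pr
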