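import Pool.Agent.Lib.MP_274522_pr.Laws

set_option autoImplicit false
open MeasureTheory ProbabilityTheory Filter
open scoped Topology ENNReal NNReal

namespace Pool.Agent.Lib.MP_274522_pr

/-- Second difference of the path over a dyadic subinterval of `[t - 1, t]`. -/
noncomputable def HH (n j : ℕ) (x : ℝ → ℝ) (t : ℝ) : ℝ := Dn n j (fun s => x (t - 1 + s))

/-- Increment of the path over `[t - NN k, t - NN k + 1]`. -/
noncomputable def GG (k : ℕ) (x : ℝ → ℝ) (t : ℝ) : ℝ := x (t - NN k + 1) - x (t - NN k)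

/-- At level `n` no local second difference contradicts the far increment. -/
def Ev (n : ℕ) (x : ℝ → ℝ) (t : ℝ) : Prop :=
  ∀ j < 2 ^ n, ¬ (am n ≤ HH n j x t ∧ GG (2 ^ n + j) x t ≤ -1)

lemma HH_shift (n j : ℕ) (x : ℝ → ℝ) (s t : ℝ) :
    HH n j (fun u => x (s + u) - x s) t = HH n j x (s + t) := by
  have e : ∀ c : ℝ, s + (t - 1 + c) = s + t - 1 + c := fun c => by ring
  unfold HH Dn
  simp only [e]
  ring

lemma GG_shift (k : ℕ) (x : ℝ → ℝ) (s t : ℝ) :
    GG k (fun u => x (s + u) - x s) t = GG k x (s + t) := by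
  have e1 : s + (t - NN k + 1) = s + t - NN k + 1 := by ring
  have e2 : s + (t - NN k) = s + t - NN k := by ring
  unfold GG
  simp only [e1, e2]
  ring

lemma Ev_shift (n : ℕ) (x : ℝ → ℝ) (s t : ℝ) :
    Ev n (fun u => x (s + u) - x s) t ↔ Ev n x (s + t) := by
  unfold Ev
  simp only [HH_shift, GG_shift]

lemma measurableSet_Ev_path (n : ℕ) (t : ℝ) : MeasurableSet {x : ℝ → ℝ | Ev n x t} := by
  have h1 : ∀ j, Measurable fun x : ℝ → ℝ => HH n j x t := by
    intro j
    unfold HH Dn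
    fun_prop
  have h2 : ∀ k, Measurable fun x : ℝ → ℝ => GG k x t := by
    intro k
    unfold GG
    fun_prop
  have : {x : ℝ → ℝ | Ev n x t} = ⋂ j ∈ Finset.range (2 ^ n),
      ({x : ℝ → ℝ | am n ≤ HH n j x t} ∩ {x | GG (2 ^ n + j) x t ≤ -1})ᶜ := by
    ext x
    simp [Ev]
  rw [this]
  refine Finset.measurableSet_biInter _ fun j _ => ?_
  exact ((measurableSet_le measurable_const (h1 j)).inter
    (measurableSet_le (h2 _) measurable_const)).compl

lemma measurableSet_Ev_joint (n : ℕ) :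
    MeasurableSet {q : ℝ × Om | Ev n (fun u => XX u q.2) q.1} := by
  have h0 : ∀ f : ℝ → ℝ, Measurable f → Measurable fun q : ℝ × Om => XX (f q.1) q.2 := fun f hf =>
    measurable_uncurry_XX.comp ((hf.comp measurable_fst).prodMk measurable_snd)
  have h1 : ∀ j, Measurable fun q : ℝ × Om => HH n j (fun u => XX u q.2) q.1 := by
    intro j
    unfold HH Dn
    have g1 := h0 (fun t => t - 1 + (2 * j + 1) / 2 ^ (n + 1)) (by fun_prop)
    have g2 := h0 (fun t => t - 1 + 2 * j / 2 ^ (n + 1)) (by fun_prop)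
    have g3 := h0 (fun t => t - 1 + (2 * j + 2) / 2 ^ (n + 1)) (by fun_prop)
    exact ((g1.const_mul 2).sub g2).sub g3
  have h2 : ∀ k, Measurable fun q : ℝ × Om => GG k (fun u => XX u q.2) q.1 := by
    intro k
    unfold GG
    have g1 := h0 (fun t => t - NN k + 1) (by fun_prop)
    have g2 := h0 (fun t => t - NN k) (by fun_prop)
    exact g1.sub g2
  have : {q : ℝ × Om | Ev n (fun u => XX u q.2) q.1} = ⋂ j ∈ Finset.range (2 ^ n),
      ({q : ℝ × Om | am n ≤ HH n j (fun u => XX u q.2) q.1} ∩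
        {q | GG (2 ^ n + j) (fun u => XX u q.2) q.1 ≤ -1})ᶜ := by
    ext x
    simp [Ev]
  rw [this]
  refine Finset.measurableSet_biInter _ fun j _ => ?_
  exact ((measurableSet_le measurable_const (h1 j)).inter
    (measurableSet_le (h2 _) measurable_const)).compl

/-- The law on path space is determined. -/
lemma TB.law_unique {Ω Ω' : Type*} [MeasurableSpace Ω] [MeasurableSpace Ω'] {Z : ℝ → Ω → ℝ}
    {P : Measure Ω} {Z' : ℝ → Ω' → ℝ} {P' : Measure Ω'} (h : TB Z P) (h' : TB Z' P')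
    (hm : ∀ t, Measurable (Z t)) (hm' : ∀ t, Measurable (Z' t)) :
    P.map (fun ω t => Z t ω) = P'.map (fun ω t => Z' t ω) := by
  have := h.isProb
  have := h'.isProb
  have h1 := isProjectiveLimit_map (P := P) (X := Z) (measurable_pi_lambda _ hm).aemeasurable
  have h2 := isProjectiveLimit_map (P := P') (X := Z') (measurable_pi_lambda _ hm').aemeasurable
  simp_rw [h.unique h'] at h1
  have : ∀ I : Finset ℝ, IsFiniteMeasure (P'.map (fun ω ↦ I.restrict (Z' · ω))) := fun I =>
    inferInstance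
  exact h1.unique h2

/-- At time `0` the test quantities are coordinates. -/
lemma HH_zero (n j : ℕ) (hj : j < 2 ^ n) {ω : Om} (hg : ω (-1) ∈ good) :
    HH n j (fun u => XX u ω) 0 = am n * ω (-1) (2 ^ n + j) := by
  rw [← Dn_bp n j hj hg]
  have hj' : (j : ℝ) + 1 ≤ 2 ^ n := by exact_mod_cast hj
  have hj0 : (0 : ℝ) ≤ j := Nat.cast_nonneg j
  have hp : (0 : ℝ) < 2 ^ (n + 1) := by positivity
  have hp2 : (2 : ℝ) ^ (n + 1) = 2 * 2 ^ n := by rw [pow_succ]; ring
  have hb : ∀ c : ℝ, 0 ≤ c → c ≤ 2 ^ (n + 1) → XX (0 - 1 + c / 2 ^ (n + 1)) ω =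
      XX (-1) ω + bp (ω (-1)) (c / 2 ^ (n + 1)) := by
    intro c hc0 hc1
    have h := XX_block ω (-1) (c / 2 ^ (n + 1)) (by positivity) (by rw [div_le_one hp]; exact hc1)
    push_cast at h
    rw [zero_sub, ← h]
    ring
  unfold HH Dn
  simp only
  rw [hb (2 * j + 1) (by linarith) (by rw [hp2]; linarith), hb (2 * j) (by linarith)
    (by rw [hp2]; linarith), hb (2 * j + 2) (by linarith) (by rw [hp2]; linarith)]
  ring

lemma GG_zero (k : ℕ) {ω : Om} (hg : ω (far k) ∈ good) :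
    GG k (fun u => XX u ω) 0 = ω (far k) 0 := by
  have h := XX_block ω (far k) 1 zero_le_one le_rfl
  rw [bp_of_one_le _ le_rfl, tr_of_good hg] at h
  rw [← h]
  unfold GG far
  push_cast
  simp

lemma ae_good_PP : ∀ᵐ ω ∂PP, ∀ l, ω l ∈ good := by
  rw [ae_all_iff]
  intro l
  exact (measurePreserving_eval_infinitePi (fun _ : ℤ => blkLaw) l).quasiMeasurePreserving.ae
    ae_good

end Pool.Agent.Lib.MP_274522_pr
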