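import Pool.Agent.Lib.MP_274522_pr.Rate

set_option autoImplicit false
open MeasureTheory ProbabilityTheory Filter
open scoped Topology ENNReal NNReal

namespace Pool.Agent.Lib.MP_274522_pr

theorem not_two_sided (S : Om × ℝ → ℝ) (hS : Measurable S)
    (hf : IsPreBrownianReal (fun (t : ℝ≥0) p => XX (S p + t) p.1 - XX (S p) p.1) QU)
    (hb : IsPreBrownianReal (fun (t : ℝ≥0) p => XX (S p - t) p.1 - XX (S p) p.1) QU)
    (hi : IndepFun (fun p (t : ℝ≥0) => XX (S p + t) p.1 - XX (S p) p.1)
      (fun p (t : ℝ≥0) => XX (S p - t) p.1 - XX (S p) p.1) QU) : False := by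
  let Z : ℝ → Om × ℝ → ℝ := fun t p => XX (S p + t) p.1 - XX (S p) p.1
  have hTB : TB Z QU := by
    have h := TB_of_indep hf hb hi
    convert h using 1
    ext t p
    split_ifs with ht
    · rw [Real.coe_toNNReal t ht]
    · rw [Real.coe_toNNReal (-t) (by linarith), sub_neg_eq_add]
  have hX : ∀ f : Om × ℝ → ℝ, Measurable f → Measurable fun p : Om × ℝ => XX (f p) p.1 := by
    intro f hf
    have h1 : Measurable fun p : Om × ℝ => ((f p, p.1) : ℝ × Om) := hf.prodMk measurable_fst
    have h2 := measurable_uncurry_XX.comp h1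
    simp only [Function.comp_def] at h2
    exact h2
  have hX0 : ∀ t : ℝ, Measurable fun p : Om × ℝ => XX (S p + t) p.1 := fun t =>
    hX (fun p => S p + t) (hS.add_const t)
  have hX1 : Measurable fun p : Om × ℝ => XX (S p) p.1 := hX S hS
  have hmZ : ∀ t, Measurable (Z t) := fun t => (hX0 t).sub hX1
  -- the event around the random time is unlikely
  have claim1 : ∀ n s, QU {p | Ev n (fun u => XX u p.1) (S p + s)} ≤ rr ^ (2 ^ n) := by
    intro n s
    have hTs := hTB.shift s
    have hmZs : ∀ t, Measurable fun p => Z (s + t) p - Z s p := fun t => (hmZ _).sub (hmZ _)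
    have hlaw := hTs.law_unique TB_XX hmZs measurable_XX
    have e1 : {p : Om × ℝ | Ev n (fun u => XX u p.1) (S p + s)} =
        (fun p (t : ℝ) => Z (s + t) p - Z s p) ⁻¹' {x | Ev n x 0} := by
      ext p
      simp only [Set.mem_preimage, Set.mem_ofPred_eq]
      have h1 := Ev_shift n (fun u => Z u p) s 0
      have h2 := Ev_shift n (fun u => XX u p.1) (S p) s
      rw [add_zero] at h1
      rw [h1]
      exact h2.symm
    rw [e1, ← Measure.map_apply (measurable_pi_lambda _ hmZs) (measurableSet_Ev_path n 0), hlaw,
      Measure.map_apply (measurable_pi_lambda _ measurable_XX) (measurableSet_Ev_path n 0)]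
    exact PP_Ev n
  have claim2 : ∀ n (t : ℝ), QU {p | ¬ Ev n (fun u => XX u p.1) t} ≤
      ENNReal.ofReal (112 * 4 ^ n * |t|) := by
    intro n t
    have hm : MeasurableSet {ω : Om | ¬ Ev n (fun u => XX u ω) t} := by
      have h1 : Measurable fun ω : Om => (t, ω) := measurable_const.prodMk measurable_id
      exact h1 (measurableSet_Ev_joint n).compl
    have h2 : QU {p | ¬ Ev n (fun u => XX u p.1) t} = QQ {ω | ¬ Ev n (fun u => XX u ω) t} := by
      rw [← map_fst_QU, Measure.map_apply measurable_fst hm]
      rfl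
    rw [h2]
    exact QQ_notEv n t
  have main : ∀ m : ℕ, QU {p | |S p| ≤ m} = 0 := by
    intro m
    have hAm : MeasurableSet {p | |S p| ≤ m} := by
      have : Measurable fun p => |S p| := hS.norm
      exact measurableSet_le this measurable_const
    have step : ∀ n : ℕ, QU {p | |S p| ≤ m} * ENNReal.ofReal (2 * (1 / 16) ^ n) ≤
        ENNReal.ofReal (2 * (m + 1)) * rr ^ (2 ^ n) +
        ENNReal.ofReal (2 * (1 / 16) ^ n) * ENNReal.ofReal (112 * (1 / 4) ^ n) := by
      intro n
      set δ : ℝ := (1 / 16) ^ n with hδ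
      have hδ0 : 0 < δ := by positivity
      have hδ1 : δ ≤ 1 := pow_le_one₀ (by norm_num) (by norm_num)
      let E : Set (ℝ × Om) := {q : ℝ × Om | Ev n (fun u => XX u q.2) q.1}
      have hE : MeasurableSet E := measurableSet_Ev_joint n
      let F : Om × ℝ → ℝ → ℝ≥0∞ := fun p s => E.indicator 1 (S p + s, p.1)
      let G : Om × ℝ → ℝ → ℝ≥0∞ := fun p t => Eᶜ.indicator 1 (t, p.1)
      have hFm : Measurable (Function.uncurry F) := by
        have h1 : Measurable fun q : (Om × ℝ) × ℝ => (S q.1 + q.2, q.1.1) :=
          ((hS.comp measurable_fst).add measurable_snd).prodMk (measurable_fst.comp measurable_fst)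
        exact (measurable_one.indicator hE).comp h1
      have hGm : Measurable (Function.uncurry G) := by
        have h1 : Measurable fun q : (Om × ℝ) × ℝ => (q.2, q.1.1) :=
          measurable_snd.prodMk (measurable_fst.comp measurable_fst)
        exact (measurable_one.indicator hE.compl).comp h1
      have key : ∀ p, p ∈ {p | |S p| ≤ m} → ENNReal.ofReal (2 * δ) ≤
          (∫⁻ s in Set.Icc (-((m : ℝ) + 1)) (m + 1), F p s) + ∫⁻ t in Set.Icc (-δ) δ, G p t := by
        intro p hp
        have hp' : |S p| ≤ m := hp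
        rw [abs_le] at hp'
        have h1 : ENNReal.ofReal (2 * δ) = ∫⁻ t in Set.Icc (-δ) δ,
            (E.indicator 1 (t, p.1) + G p t) := by
          have : ∀ t, (E.indicator 1 (t, p.1) + G p t : ℝ≥0∞) = 1 := by
            intro t
            have := congrFun (Set.indicator_self_add_compl E (1 : ℝ × Om → ℝ≥0∞)) (t, p.1)
            simp only [Pi.add_apply, Pi.one_apply] at this
            exact this
          simp_rw [this]
          rw [lintegral_const, one_mul, Measure.restrict_apply MeasurableSet.univ, Set.univ_inter,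
            Real.volume_Icc]
          congr 1
          ring
        rw [h1, lintegral_add_left]
        · refine add_le_add ?_ le_rfl
          rw [← lintegral_indicator measurableSet_Icc, ← lintegral_indicator measurableSet_Icc,
            ← lintegral_add_left_eq_self _ (S p)]
          refine lintegral_mono fun s => ?_
          by_cases hs : S p + s ∈ Set.Icc (-δ) δ
          · have hs2 : s ∈ Set.Icc (-((m : ℝ) + 1)) (m + 1) := by
              rw [Set.mem_Icc] at hs ⊢
              constructor <;> linarith [hs.1, hs.2, hp'.1, hp'.2]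
            rw [Set.indicator_of_mem hs, Set.indicator_of_mem hs2]
          · rw [Set.indicator_of_notMem hs]
            exact zero_le
        · have h2 : Measurable fun t : ℝ => (t, p.1) := measurable_id.prodMk measurable_const
          exact (measurable_one.indicator hE).comp h2
      calc QU {p | |S p| ≤ m} * ENNReal.ofReal (2 * δ)
          = ∫⁻ p in {p | |S p| ≤ m}, ENNReal.ofReal (2 * δ) ∂QU := by
            rw [lintegral_const, Measure.restrict_apply MeasurableSet.univ, Set.univ_inter,
              mul_comm]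
        _ ≤ ∫⁻ p in {p | |S p| ≤ m},
            ((∫⁻ s in Set.Icc (-((m : ℝ) + 1)) (m + 1), F p s) +
              ∫⁻ t in Set.Icc (-δ) δ, G p t) ∂QU := setLIntegral_mono' hAm key
        _ ≤ ∫⁻ p, ((∫⁻ s in Set.Icc (-((m : ℝ) + 1)) (m + 1), F p s) +
              ∫⁻ t in Set.Icc (-δ) δ, G p t) ∂QU := setLIntegral_le_lintegral _ _
        _ = (∫⁻ s in Set.Icc (-((m : ℝ) + 1)) (m + 1), ∫⁻ p, F p s ∂QU) +
              ∫⁻ t in Set.Icc (-δ) δ, ∫⁻ p, G p t ∂QU := by
            rw [lintegral_add_left]
            · rw [lintegral_lintegral_swap hFm.aemeasurable,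
                lintegral_lintegral_swap hGm.aemeasurable]
            · exact Measurable.lintegral_prod_right hFm
        _ ≤ (∫⁻ _ in Set.Icc (-((m : ℝ) + 1)) (m + 1), rr ^ (2 ^ n)) +
              ∫⁻ _ in Set.Icc (-δ) δ, ENNReal.ofReal (112 * (1 / 4) ^ n) := by
            refine add_le_add (lintegral_mono fun s => ?_)
              (setLIntegral_mono' measurableSet_Icc fun t ht => ?_)
            · refine le_trans (le_of_eq ?_) (claim1 n s)
              have hms : MeasurableSet {p : Om × ℝ | Ev n (fun u => XX u p.1) (S p + s)} := by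
                have h1 : Measurable fun p : Om × ℝ => (S p + s, p.1) :=
                  (hS.add_const s).prodMk measurable_fst
                exact h1 hE
              rw [← lintegral_indicator_one hms]
              rfl
            · have hms : MeasurableSet {p : Om × ℝ | ¬ Ev n (fun u => XX u p.1) t} := by
                have h1 : Measurable fun p : Om × ℝ => (t, p.1) :=
                  measurable_const.prodMk measurable_fst
                exact h1 hE.compl
              have h2 : ∫⁻ p, G p t ∂QU = QU {p | ¬ Ev n (fun u => XX u p.1) t} := by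
                rw [← lintegral_indicator_one hms]
                rfl
              rw [h2]
              refine (claim2 n t).trans (ENNReal.ofReal_le_ofReal ?_)
              have h3 : |t| ≤ δ := abs_le.2 ht
              have h4 : (4 : ℝ) ^ n * δ = (1 / 4) ^ n := by
                rw [hδ, ← mul_pow]; norm_num
              calc 112 * 4 ^ n * |t| ≤ 112 * 4 ^ n * δ := by gcongr
                _ = 112 * (1 / 4) ^ n := by rw [mul_assoc, h4]
        _ = _ := by
            rw [lintegral_const, lintegral_const, Measure.restrict_apply MeasurableSet.univ,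
              Measure.restrict_apply MeasurableSet.univ, Set.univ_inter, Set.univ_inter,
              Real.volume_Icc, Real.volume_Icc, mul_comm, mul_comm (ENNReal.ofReal (112 * _))]
            congr 2
            · congr 1; ring
            · congr 1; ring
    set a : ℝ := (QU {p | |S p| ≤ m}).toReal with ha
    set ρ : ℝ := rr.toReal with hρ
    have hρ0 : 0 ≤ ρ := ENNReal.toReal_nonneg
    have hρ1 : ρ < 1 := by
      have := (ENNReal.toReal_lt_toReal (ne_top_of_lt rr_lt_one) ENNReal.one_ne_top).2 rr_lt_one
      simpa using this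
    have stepR : ∀ n : ℕ, a ≤ (m + 1) * (((2 ^ n : ℕ) : ℝ) ^ 4 * ρ ^ (2 ^ n)) + 112 * (1 / 4) ^ n := by
      intro n
      have hrr : rr ≠ ⊤ := ne_top_of_lt rr_lt_one
      have h1 := ENNReal.toReal_mono (by
        refine ENNReal.add_ne_top.2 ⟨ENNReal.mul_ne_top ENNReal.ofReal_ne_top
          (ENNReal.pow_ne_top hrr), ENNReal.mul_ne_top ENNReal.ofReal_ne_top
            ENNReal.ofReal_ne_top⟩) (step n)
      rw [ENNReal.toReal_mul, ENNReal.toReal_add (ENNReal.mul_ne_top ENNReal.ofReal_ne_top
          (ENNReal.pow_ne_top hrr)) (ENNReal.mul_ne_top ENNReal.ofReal_ne_top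
            ENNReal.ofReal_ne_top), ENNReal.toReal_mul, ENNReal.toReal_mul, ENNReal.toReal_pow,
        ENNReal.toReal_ofReal (by positivity), ENNReal.toReal_ofReal (by positivity),
        ENNReal.toReal_ofReal (by positivity), ← ha, ← hρ] at h1
      have hpos : (0 : ℝ) < (1 / 16) ^ n := by positivity
      have h16 : (((2 ^ n : ℕ) : ℝ) ^ 4) * (1 / 16) ^ n = 1 := by
        push_cast
        rw [← pow_mul, mul_comm n 4, pow_mul, ← mul_pow]
        norm_num
      have h2 : a * (2 * (1 / 16) ^ n) ≤
          ((m + 1) * (((2 ^ n : ℕ) : ℝ) ^ 4 * ρ ^ (2 ^ n)) + 112 * (1 / 4) ^ n) *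
            (2 * (1 / 16) ^ n) := by
        calc a * (2 * (1 / 16) ^ n) ≤ _ := h1
          _ = 2 * (m + 1) * ρ ^ (2 ^ n) * ((((2 ^ n : ℕ) : ℝ) ^ 4) * (1 / 16) ^ n) +
              2 * (1 / 16) ^ n * (112 * (1 / 4) ^ n) := by rw [h16]; ring
          _ = _ := by ring
      exact le_of_mul_le_mul_right h2 (by positivity)
    have hlim : Tendsto (fun n : ℕ => ((m : ℝ) + 1) * (((2 ^ n : ℕ) : ℝ) ^ 4 * ρ ^ (2 ^ n)) +
        112 * (1 / 4) ^ n) atTop (𝓝 (((m : ℝ) + 1) * 0 + 112 * 0)) := by
      refine Tendsto.add (Tendsto.const_mul _ ?_) (Tendsto.const_mul _ ?_)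
      · have h1 := tendsto_pow_const_mul_const_pow_of_abs_lt_one 4 (r := ρ)
          (by rw [abs_of_nonneg hρ0]; exact hρ1)
        have h2 : Tendsto (fun n : ℕ => 2 ^ n) atTop atTop :=
          tendsto_pow_atTop_atTop_of_one_lt (by norm_num)
        exact h1.comp h2
      · exact tendsto_pow_atTop_nhds_zero_of_lt_one (by norm_num) (by norm_num)
    have ha0 : a ≤ 0 := by
      have := ge_of_tendsto' hlim stepR
      simpa using this
    have ha1 : a = 0 := le_antisymm ha0 ENNReal.toReal_nonneg
    rw [ha, ENNReal.toReal_eq_zero_iff] at ha1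
    rcases ha1 with h | h
    · exact h
    · exact absurd h (measure_ne_top _ _)
  have huniv : (Set.univ : Set (Om × ℝ)) = ⋃ m : ℕ, {p | |S p| ≤ m} := by
    ext p
    simp only [Set.mem_univ, Set.mem_iUnion, Set.mem_ofPred_eq, true_iff]
    exact exists_nat_ge _
  have h0 : QU Set.univ = 0 := by
    rw [huniv]
    exact measure_iUnion_null main
  rw [measure_univ] at h0
  exact one_ne_zero h0

end Pool.Agent.Lib.MP_274522_pr
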