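import Pool.Agent.Lib.MP_274522_pr.Coupling
import Pool.Agent.Lib.MP_274522_pr.Filling

set_option autoImplicit false
open MeasureTheory ProbabilityTheory ENNReal Filter
open scoped Topology

namespace Pool.Agent.Lib.MP_274522_pr

/-- Erase the blocks with negative index. -/
def cut (ω : Om) : Om := fun i => if 0 ≤ i then ω i else 0

/-- The block sequence seen from time `-j` on. -/
def phi (j : ℕ) (ω : Om) : Om := cut (sh (-(j : ℤ)) ω)

lemma measurable_cut : Measurable cut := by
  rw [measurable_pi_iff]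
  intro i
  unfold cut
  split_ifs <;> fun_prop

lemma measurable_phi (j : ℕ) : Measurable (phi j) := measurable_cut.comp (measurable_sh _)

/-- The law of an i.i.d. forward sequence of blocks. -/
noncomputable def beta : Measure Om := PP.map cut

instance : IsProbabilityMeasure beta :=
  Measure.isProbabilityMeasure_map measurable_cut.aemeasurable

lemma sh_neg_sh (n : ℤ) (ω : Om) : sh (-n) (sh n ω) = ω := by
  ext i j
  simp [sh]

lemma int_QQ (K : ℕ) (F : Om → ℝ) (hF : Measurable F) (h0 : ∀ ω, 0 ≤ F ω)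
    (hd : DependsOn F {i | far K < i}) :
    ∫ ω, F ω ∂QQ = ∫ ω, DR K ω * F ω ∂PP := by
  rw [integral_eq_lintegral_of_nonneg_ae (Eventually.of_forall h0) hF.aestronglyMeasurable,
    integral_eq_lintegral_of_nonneg_ae
      (Eventually.of_forall fun ω => mul_nonneg (DR_nonneg K ω) (h0 ω))
      ((measurable_DR K).mul hF).aestronglyMeasurable]
  congr 1
  rw [lint_QQ K (fun ω => ENNReal.ofReal (F ω)) hF.ennreal_ofReal
    (fun x y h => by simp only [hd h])]
  refine lintegral_congr fun ω => ?_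
  rw [ENNReal.ofReal_mul (DR_nonneg K ω)]

lemma int_sh (n : ℤ) (F : Om → ℝ) (hF : Measurable F) :
    ∫ ω, F (sh n ω) ∂PP = ∫ ω, F ω ∂PP := by
  conv_rhs => rw [← map_sh n]
  rw [integral_map (measurable_sh n).aemeasurable hF.aestronglyMeasurable]

lemma DR_dependsOn (k : ℕ) : DependsOn (DR (k + 1)) (Set.Icc (far k) (-1)) := by
  intro x y h
  refine DR_congr (fun l hl => ?_) (fun l _ => ?_)
  · rw [h (far l)]
    refine ⟨?_, (far_lt_neg_one l).le⟩
    rcases (Nat.lt_succ_iff.1 hl).lt_or_eq with h1 | h1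
    · exact (far_lt_far.2 h1).le
    · rw [h1]
  · rw [h (-1)]
    exact ⟨(far_lt_neg_one k).le, le_rfl⟩

lemma sh_dependsOn {α : Type*} {F : Om → α} {a b : ℤ} (hF : DependsOn F (Set.Icc a b)) (n : ℤ) :
    DependsOn (fun ω => F (sh n ω)) (Set.Icc (a + n) (b + n)) := by
  intro x y h
  refine hF fun i hi => ?_
  unfold sh
  exact h (i + n) ⟨by linarith [hi.1], by linarith [hi.2]⟩

lemma real_core (m : ℕ) (hR : Om → ℝ) (hm : Measurable hR) (h01 : ∀ ω, 0 ≤ hR ω ∧ hR ω ≤ 1)
    (e : ℝ) (he : 0 < e) :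
    ∃ L r : ℕ, 0 < r ∧ m ≤ L ∧ 0 < L ∧ ∀ A : Set Om, MeasurableSet A →
      (∫ ω, hR ω ∂QQ) * beta.real A ≤
        (r : ℝ)⁻¹ * ∑ a ∈ Finset.range r,
          ∫ ω, hR ω * A.indicator 1 (phi ((a + 1) * L) ω) ∂QQ + e := by
  obtain ⟨M, h', h'm, h'01, h'd, h'e⟩ := exists_cyl_approx QQ hR hm h01 (e / 4) (by linarith)
  obtain ⟨k, hkM, hkm, hke⟩ : ∃ k : ℕ, M < NN k ∧ m ≤ NN k ∧ (1 / 4 : ℝ) ^ (k + 1) ≤ e ^ 2 / 16 := by
    have h1 : Tendsto (fun k : ℕ => (1 / 4 : ℝ) ^ (k + 1)) atTop (𝓝 0) :=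
      (_root_.tendsto_pow_atTop_nhds_zero_of_lt_one (by norm_num) (by norm_num)).comp
        (tendsto_add_atTop_nat 1)
    have h2 : ∀ᶠ k : ℕ in atTop, (1 / 4 : ℝ) ^ (k + 1) ≤ e ^ 2 / 16 :=
      h1.eventually_le_const (by positivity)
    obtain ⟨k, hk1, hk2⟩ := (h2.and (eventually_ge_atTop (max (M + 1) m))).exists
    refine ⟨k, ?_, ?_, hk1⟩
    · exact lt_of_lt_of_le (Nat.lt_succ_self M)
        (((le_max_left (M + 1) m).trans hk2).trans (le_NN k))
    · exact ((le_max_right (M + 1) m).trans hk2).trans (le_NN k)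
  set L : ℕ := 2 * NN k with hL
  set r : ℕ := 16 ^ (k + 1) with hr
  have hr0 : 0 < r := by positivity
  have hrR : (0 : ℝ) < r := by exact_mod_cast hr0
  have hL0 : 0 < L := by have := two_le_NN k; omega
  have hrL : r * L < NN (k + 1) := NN_succ_gt k
  refine ⟨L, r, hr0, by omega, hL0, ?_⟩
  intro A hA
  set F : Om → ℝ := fun ω => DR (k + 1) ω * h' ω with hF
  have hFm : Measurable F := (measurable_DR _).mul h'm
  have hF0 : ∀ ω, 0 ≤ F ω := fun ω => mul_nonneg (DR_nonneg _ ω) (h'01 ω).1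
  have hF1 : ∀ ω, F ω ≤ 2 ^ (k + 1) := fun ω => by
    calc F ω ≤ 2 ^ (k + 1) * 1 :=
          mul_le_mul (DR_le _ ω) (h'01 ω).2 (h'01 ω).1 (by positivity)
      _ = _ := mul_one _
  have hFd : DependsOn F (Set.Icc (far k) M) := by
    intro x y h
    have e1 : DR (k + 1) x = DR (k + 1) y := by
      refine DR_dependsOn k fun i hi => h i ⟨hi.1, ?_⟩
      have := hi.2
      omega
    have e2 : h' x = h' y := by
      refine h'd fun i hi => h i ⟨?_, hi.2⟩
      have := hi.1
      unfold far; omega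
    simp only [hF, e1, e2]
  set χ : Om → ℝ := A.indicator 1 with hχ
  have hχm : Measurable χ := measurable_one.indicator hA
  have hχ0 : ∀ ω, 0 ≤ χ ω := fun ω => Set.indicator_nonneg (fun _ _ => zero_le_one) ω
  have hχ1 : ∀ ω, χ ω ≤ 1 := fun ω => Set.indicator_le_self' (fun _ _ => zero_le_one) ω
  -- passing from QQ to PP
  have key : ∀ j : ℕ, j < NN (k + 1) →
      ∫ ω, h' ω * χ (phi j ω) ∂QQ = ∫ ω, F (sh j ω) * χ (cut ω) ∂PP := by
    intro j hj
    rw [int_QQ (k + 1) (fun ω => h' ω * χ (phi j ω)) (h'm.mul (hχm.comp (measurable_phi j)))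
      (fun ω => mul_nonneg (h'01 ω).1 (hχ0 _))]
    · rw [← int_sh (j : ℤ)]
      · refine integral_congr_ae (Eventually.of_forall fun ω => ?_)
        simp only [hF, phi, sh_neg_sh]
        ring
      · exact (measurable_DR _).mul (h'm.mul (hχm.comp (measurable_phi j)))
    · intro x y h
      have e2 : h' x = h' y := by
        refine h'd fun i hi => h i ?_
        have := hi.1
        have h3 : NN k < NN (k + 1) := NN_strictMono (Nat.lt_succ_self k)
        simp only [Set.mem_ofPred_eq, far]; omega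
      have e3 : phi j x = phi j y := by
        ext i l
        unfold phi cut
        by_cases hi : 0 ≤ i
        · simp only [hi, if_true, sh]
          rw [h]
          simp only [Set.mem_ofPred_eq, far]; omega
        · simp only [hi, if_false]
      simp only [e2, e3]
  set c : ℝ := ∫ ω, h' ω ∂QQ with hc
  have hcF : c = ∫ ω, F ω ∂PP := by
    rw [hc, int_QQ (k + 1) h' h'm (fun ω => (h'01 ω).1)]
    intro x y h
    refine h'd fun i hi => h i ?_
    have := hi.1
    have h3 : NN k < NN (k + 1) := NN_strictMono (Nat.lt_succ_self k)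
    simp only [Set.mem_ofPred_eq, far]; omega
  have hmulL : ∀ a, (a + 1) * L = a * L + L := fun a => by ring
  let Ya : ℕ → Om → ℝ := fun a ω => F (sh (((a + 1) * L : ℕ) : ℤ) ω)
  have hYam : ∀ a, Measurable (Ya a) := fun a => hFm.comp (measurable_sh _)
  have hYa2 : ∀ a, MemLp (Ya a) 2 PP := fun a => by
    refine MemLp.of_bound (hYam a).aestronglyMeasurable (2 ^ (k + 1)) (Eventually.of_forall ?_)
    intro ω
    rw [Real.norm_of_nonneg (hF0 _)]
    exact hF1 _
  have hYaint : ∀ a, ∫ ω, Ya a ω ∂PP = c := fun a => by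
    rw [hcF]; exact int_sh _ F hFm
  have hYaindep : ∀ a b, a ≠ b → IndepFun (Ya a) (Ya b) PP := by
    have aux : ∀ a b, a < b → IndepFun (Ya a) (Ya b) PP := by
      intro a b hab
      refine indepFun_of_dependsOn (hYam a) (hYam b) (sh_dependsOn hFd _) (sh_dependsOn hFd _) ?_
      rw [Set.disjoint_left]
      intro i hi1 hi2
      have h1 := hi1.2
      have h2 := hi2.1
      have h3 : ((a + 1) * L : ℕ) + L ≤ ((b + 1) * L : ℕ) := by
        calc (a + 1) * L + L = (a + 1 + 1) * L := by ring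
          _ ≤ (b + 1) * L := Nat.mul_le_mul_right L (by omega)
      have h4 : (((a + 1) * L : ℕ) : ℤ) + L ≤ (((b + 1) * L : ℕ) : ℤ) := by exact_mod_cast h3
      unfold far at h2
      have h5 : (L : ℤ) = 2 * NN k := by rw [hL]; push_cast; ring
      omega
    intro a b hab
    rcases lt_or_gt_of_ne hab with h | h
    · exact aux a b h
    · exact (aux b a h).symm
  set S : Om → ℝ := ∑ a ∈ Finset.range r, Ya a with hS
  have hSm : Measurable S := by
    have h1 : S = fun ω => ∑ a ∈ Finset.range r, Ya a ω := by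
      ext ω; simp [hS]
    rw [h1]
    exact Finset.measurable_sum _ fun a _ => hYam a
  have hS2 : MemLp S 2 PP := memLp_finsetSum' _ fun a _ => hYa2 a
  have hSint : ∫ ω, S ω ∂PP = r * c := by
    have : ∫ ω, S ω ∂PP = ∑ a ∈ Finset.range r, ∫ ω, Ya a ω ∂PP := by
      rw [hS]
      simp only [Finset.sum_apply]
      exact integral_finsetSum _ fun a _ => (hYa2 a).integrable one_le_two
    rw [this, Finset.sum_congr rfl fun a _ => hYaint a]
    simp
  have hSvar : Var[S; PP] ≤ r * 4 ^ (k + 1) := by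
    rw [hS, IndepFun.variance_sum (fun a _ => hYa2 a) (fun a _ b _ hab => hYaindep a b hab)]
    calc ∑ a ∈ Finset.range r, Var[Ya a; PP] ≤ ∑ a ∈ Finset.range r, (4 : ℝ) ^ (k + 1) := by
          refine Finset.sum_le_sum fun a _ => ?_
          refine (variance_le_expectation_sq (hYam a).aestronglyMeasurable).trans ?_
          calc ∫ ω, (Ya a ^ 2) ω ∂PP ≤ ∫ ω, (4 : ℝ) ^ (k + 1) ∂PP := by
                refine integral_mono (hYa2 a).integrable_sq (integrable_const _) fun ω => ?_
                have h1 := hF0 (sh (((a + 1) * L : ℕ) : ℤ) ω)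
                have h2 := hF1 (sh (((a + 1) * L : ℕ) : ℤ) ω)
                calc (Ya a ^ 2) ω = F (sh (((a + 1) * L : ℕ) : ℤ) ω) ^ 2 := rfl
                  _ ≤ (2 ^ (k + 1)) ^ 2 := pow_le_pow_left₀ h1 h2 2
                  _ = 4 ^ (k + 1) := by rw [← pow_mul, mul_comm, pow_mul]; norm_num
            _ = _ := by simp
      _ = r * 4 ^ (k + 1) := by simp
  -- L1 bound
  have hL1 : ∫ ω, |(r : ℝ)⁻¹ * S ω - c| ∂PP ≤ e / 4 := by
    have hpt : ∀ ω, |(r : ℝ)⁻¹ * S ω - c| ≤ e / 8 + (2 / e) * ((r : ℝ)⁻¹ ^ 2 * (S ω - r * c) ^ 2) := by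
      intro ω
      have e1 : (r : ℝ)⁻¹ * S ω - c = (r : ℝ)⁻¹ * (S ω - r * c) := by
        field_simp
      rw [e1]
      set x := (r : ℝ)⁻¹ * (S ω - r * c)
      have e2 : (r : ℝ)⁻¹ ^ 2 * (S ω - r * c) ^ 2 = x ^ 2 := by simp only [x]; ring
      rw [e2]
      have e3 : 0 ≤ (2 / e) * (|x| - e / 4) ^ 2 := by positivity
      have e4 : |x| ^ 2 = x ^ 2 := sq_abs x
      have e5 : (2 / e) * (|x| - e / 4) ^ 2 = (2 / e) * |x| ^ 2 - |x| + e / 8 := by
        field_simp
        ring
      rw [e5, e4] at e3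
      linarith
    have hint : Integrable (fun ω => (S ω - r * c) ^ 2) PP :=
      (hS2.sub (memLp_const _)).integrable_sq
    calc ∫ ω, |(r : ℝ)⁻¹ * S ω - c| ∂PP
        ≤ ∫ ω, (e / 8 + (2 / e) * ((r : ℝ)⁻¹ ^ 2 * (S ω - r * c) ^ 2)) ∂PP := by
          refine integral_mono_of_nonneg (Eventually.of_forall fun ω => abs_nonneg _) ?_
            (Eventually.of_forall hpt)
          exact (integrable_const _).add ((hint.const_mul _).const_mul _)
      _ = e / 8 + (2 / e) * ((r : ℝ)⁻¹ ^ 2 * Var[S; PP]) := by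
          rw [integral_add (integrable_const _) ((hint.const_mul _).const_mul _),
            integral_const_mul, integral_const_mul,
            variance_eq_integral hSm.aemeasurable, hSint]
          simp
      _ ≤ e / 8 + (2 / e) * ((r : ℝ)⁻¹ ^ 2 * (r * 4 ^ (k + 1))) := by
          gcongr
      _ = e / 8 + (2 / e) * (1 / 4 : ℝ) ^ (k + 1) := by
          have h0 : (r : ℝ) = 16 ^ (k + 1) := by rw [hr]; push_cast; ring
          have h16 : (16 : ℝ) ^ (k + 1) = 4 ^ (k + 1) * 4 ^ (k + 1) := by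
            rw [← mul_pow]; norm_num
          have h4 : (4 : ℝ) ^ (k + 1) ≠ 0 := by positivity
          have h5 : (r : ℝ)⁻¹ ^ 2 * (r * 4 ^ (k + 1)) = (1 / 4 : ℝ) ^ (k + 1) := by
            rw [h0, h16, one_div, inv_pow]
            rw [show ((4 : ℝ)⁻¹) ^ (k + 1) = (4 ^ (k + 1))⁻¹ from inv_pow _ _]
            field_simp
          rw [h5]
      _ ≤ e / 8 + (2 / e) * (e ^ 2 / 16) := by gcongr
      _ = e / 4 := by field_simp; norm_num
  have hβ : beta.real A = ∫ ω, χ (cut ω) ∂PP := by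
    have h1 : ∫ ω, χ (cut ω) ∂PP = ∫ ω, χ ω ∂beta := by
      rw [beta, integral_map measurable_cut.aemeasurable hχm.aestronglyMeasurable]
    rw [h1, hχ, integral_indicator_one hA]
  have hSχint : Integrable (fun ω => S ω * χ (cut ω)) PP := by
    refine Integrable.mono' (hS2.integrable one_le_two).norm
      (hSm.mul (hχm.comp measurable_cut)).aestronglyMeasurable (Eventually.of_forall fun ω => ?_)
    rw [norm_mul, Real.norm_of_nonneg (hχ0 _)]
    exact mul_le_of_le_one_right (norm_nonneg _) (hχ1 _)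
  have hχint : Integrable (fun ω => χ (cut ω)) PP := by
    refine Integrable.of_bound (hχm.comp measurable_cut).aestronglyMeasurable 1
      (Eventually.of_forall fun ω => ?_)
    rw [Real.norm_of_nonneg (hχ0 _)]; exact hχ1 _
  have havg : c * beta.real A - e / 4 ≤
      (r : ℝ)⁻¹ * ∑ a ∈ Finset.range r, ∫ ω, h' ω * χ (phi ((a + 1) * L) ω) ∂QQ := by
    have e1 : ∑ a ∈ Finset.range r, ∫ ω, h' ω * χ (phi ((a + 1) * L) ω) ∂QQ =
        ∫ ω, S ω * χ (cut ω) ∂PP := by
      rw [Finset.sum_congr rfl fun a ha => key ((a + 1) * L) ?_]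
      · rw [← integral_finsetSum]
        · refine integral_congr_ae (Eventually.of_forall fun ω => ?_)
          simp only [hS, Finset.sum_apply, Finset.sum_mul, Ya]
        · intro a _
          refine Integrable.mono' ((hYa2 a).integrable one_le_two).norm
            ((hYam a).mul (hχm.comp measurable_cut)).aestronglyMeasurable
            (Eventually.of_forall fun ω => ?_)
          rw [norm_mul, Real.norm_of_nonneg (hχ0 _)]
          exact mul_le_of_le_one_right (norm_nonneg _) (hχ1 _)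
      · rw [Finset.mem_range] at ha
        refine lt_of_le_of_lt ?_ hrL
        exact Nat.mul_le_mul_right L ha
    rw [e1, hβ, ← integral_const_mul, ← integral_const_mul]
    have e2 : ∫ ω, c * χ (cut ω) ∂PP - ∫ ω, (r : ℝ)⁻¹ * (S ω * χ (cut ω)) ∂PP ≤ e / 4 := by
      rw [← integral_sub (hχint.const_mul c) (hSχint.const_mul _)]
      refine le_trans ?_ hL1
      refine integral_mono ((hχint.const_mul c).sub (hSχint.const_mul _)) ?_ fun ω => ?_
      · exact (((hS2.integrable one_le_two).const_mul _).sub (integrable_const _)).abs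
      · simp only
        have h1 := hχ0 (cut ω)
        have h2 := hχ1 (cut ω)
        calc c * χ (cut ω) - (r : ℝ)⁻¹ * (S ω * χ (cut ω)) =
              -((r : ℝ)⁻¹ * S ω - c) * χ (cut ω) := by ring
          _ ≤ |(r : ℝ)⁻¹ * S ω - c| * χ (cut ω) :=
              mul_le_mul_of_nonneg_right (neg_le_abs _) h1
          _ ≤ |(r : ℝ)⁻¹ * S ω - c| := mul_le_of_le_one_right (abs_nonneg _) h2
    linarith
  -- compare `h'` and `hR`
  have hRint : Integrable hR QQ := Integrable.of_bound hm.aestronglyMeasurable 1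
    (Eventually.of_forall fun ω => by rw [Real.norm_of_nonneg (h01 ω).1]; exact (h01 ω).2)
  have h'int : Integrable h' QQ := Integrable.of_bound h'm.aestronglyMeasurable 1
    (Eventually.of_forall fun ω => by rw [Real.norm_of_nonneg (h'01 ω).1]; exact (h'01 ω).2)
  have hdint : Integrable (fun ω => |hR ω - h' ω|) QQ := (hRint.sub h'int).abs
  have hcmp1 : ∫ ω, hR ω ∂QQ ≤ c + e / 4 := by
    have : ∫ ω, hR ω ∂QQ - c ≤ e / 4 := by
      rw [hc, ← integral_sub hRint h'int]
      exact (integral_mono (hRint.sub h'int) hdint fun ω => le_abs_self _).trans h'e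
    linarith
  have hmulint : ∀ (f : Om → ℝ), Measurable f → Integrable f QQ → ∀ j,
      Integrable (fun ω => f ω * χ (phi j ω)) QQ := by
    intro f hfm hf j
    refine Integrable.mono' hf.norm (hfm.mul (hχm.comp (measurable_phi j))).aestronglyMeasurable
      (Eventually.of_forall fun ω => ?_)
    rw [norm_mul, Real.norm_of_nonneg (hχ0 _)]
    exact mul_le_of_le_one_right (norm_nonneg _) (hχ1 _)
  have hcmp2 : ∀ j, ∫ ω, h' ω * χ (phi j ω) ∂QQ ≤ ∫ ω, hR ω * χ (phi j ω) ∂QQ + e / 4 := by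
    intro j
    have : ∫ ω, h' ω * χ (phi j ω) ∂QQ - ∫ ω, hR ω * χ (phi j ω) ∂QQ ≤ e / 4 := by
      rw [← integral_sub (hmulint h' h'm h'int j) (hmulint hR hm hRint j)]
      refine (integral_mono ((hmulint h' h'm h'int j).sub (hmulint hR hm hRint j)) hdint
        fun ω => ?_).trans h'e
      simp only
      have h1 := hχ0 (phi j ω)
      have h2 := hχ1 (phi j ω)
      calc h' ω * χ (phi j ω) - hR ω * χ (phi j ω) = -(hR ω - h' ω) * χ (phi j ω) := by ring
        _ ≤ |hR ω - h' ω| * χ (phi j ω) := mul_le_mul_of_nonneg_right (neg_le_abs _) h1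
        _ ≤ |hR ω - h' ω| := mul_le_of_le_one_right (abs_nonneg _) h2
    linarith
  have hβ1 : beta.real A ≤ 1 := by
    rw [hβ]
    calc ∫ ω, χ (cut ω) ∂PP ≤ ∫ _, (1 : ℝ) ∂PP := integral_mono hχint (integrable_const _)
          fun ω => hχ1 _
      _ = 1 := by simp
  have hβ0 : 0 ≤ beta.real A := measureReal_nonneg
  have hfin : (r : ℝ)⁻¹ * ∑ a ∈ Finset.range r, ∫ ω, h' ω * χ (phi ((a + 1) * L) ω) ∂QQ ≤
      (r : ℝ)⁻¹ * ∑ a ∈ Finset.range r, ∫ ω, hR ω * χ (phi ((a + 1) * L) ω) ∂QQ + e / 4 := by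
    calc (r : ℝ)⁻¹ * ∑ a ∈ Finset.range r, ∫ ω, h' ω * χ (phi ((a + 1) * L) ω) ∂QQ
        ≤ (r : ℝ)⁻¹ * ∑ a ∈ Finset.range r,
            (∫ ω, hR ω * χ (phi ((a + 1) * L) ω) ∂QQ + e / 4) := by
          refine mul_le_mul_of_nonneg_left ?_ (by positivity)
          exact Finset.sum_le_sum fun a _ => hcmp2 _
      _ = _ := by
          rw [Finset.sum_add_distrib]
          simp only [Finset.sum_const, Finset.card_range, nsmul_eq_mul]
          field_simp
  have h1 : (∫ ω, hR ω ∂QQ) * beta.real A ≤ c * beta.real A + e / 4 := by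
    calc (∫ ω, hR ω ∂QQ) * beta.real A ≤ (c + e / 4) * beta.real A :=
          mul_le_mul_of_nonneg_right hcmp1 hβ0
      _ = c * beta.real A + e / 4 * beta.real A := by ring
      _ ≤ c * beta.real A + e / 4 := by
          have : e / 4 * beta.real A ≤ e / 4 * 1 :=
            mul_le_mul_of_nonneg_left hβ1 (by linarith)
          linarith
  linarith

theorem approx_QQ (m : ℕ) : Approx QQ beta (fun j => phi (j + m)) := by
  intro h hm h1 ε hε
  set e : ℝ := (min ε 1).toReal with he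
  have hmin0 : min ε 1 ≠ 0 := by
    rcases min_choice ε 1 with h2 | h2
    · rw [h2]; exact hε
    · rw [h2]; exact one_ne_zero
  have hmintop : min ε 1 ≠ ⊤ := ne_top_of_le_ne_top one_ne_top (min_le_right _ _)
  have he0 : 0 < e := ENNReal.toReal_pos hmin0 hmintop
  have heε : ENNReal.ofReal e ≤ ε := by
    rw [he, ENNReal.ofReal_toReal hmintop]; exact min_le_left _ _
  set hR : Om → ℝ := fun ω => (h ω).toReal with hhR
  have hRm : Measurable hR := hm.ennreal_toReal
  have htop : ∀ ω, h ω ≠ ⊤ := fun ω => ne_top_of_le_ne_top one_ne_top (h1 ω)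
  have hR01 : ∀ ω, 0 ≤ hR ω ∧ hR ω ≤ 1 := fun ω =>
    ⟨ENNReal.toReal_nonneg, by
      have := ENNReal.toReal_mono one_ne_top (h1 ω)
      simpa using this⟩
  obtain ⟨L, r, hr0, hmL, hL0, hA⟩ := real_core m hR hRm hR01 e he0
  have hinj : Set.InjOn (fun a : ℕ => (a + 1) * L - m) (Finset.range r : Set ℕ) := by
    intro a _ b _ hab
    simp only at hab
    have ha : m ≤ (a + 1) * L := hmL.trans (Nat.le_mul_of_pos_left L (Nat.succ_pos a))
    have hb : m ≤ (b + 1) * L := hmL.trans (Nat.le_mul_of_pos_left L (Nat.succ_pos b))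
    have h2 : (a + 1) * L = (b + 1) * L := by omega
    have h3 := Nat.eq_of_mul_eq_mul_right hL0 h2
    omega
  refine ⟨(Finset.range r).image (fun a => (a + 1) * L - m), ?_, ?_⟩
  · rw [Finset.image_nonempty, Finset.nonempty_range_iff]; omega
  intro A hAm
  rw [Finset.card_image_of_injOn hinj, Finset.card_range, Finset.sum_image hinj]
  have e0 : ∀ a : ℕ, (a + 1) * L - m + m = (a + 1) * L := fun a =>
    Nat.sub_add_cancel (hmL.trans (Nat.le_mul_of_pos_left L (Nat.succ_pos a)))
  simp only [e0]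
  have hRint : Integrable hR QQ := Integrable.of_bound hRm.aestronglyMeasurable 1
    (Eventually.of_forall fun ω => by rw [Real.norm_of_nonneg (hR01 ω).1]; exact (hR01 ω).2)
  have e1 : ∫⁻ ω, h ω ∂QQ = ENNReal.ofReal (∫ ω, hR ω ∂QQ) := by
    rw [ofReal_integral_eq_lintegral_ofReal hRint (Eventually.of_forall fun ω => (hR01 ω).1)]
    refine lintegral_congr fun ω => ?_
    rw [hhR]
    simp only
    rw [ENNReal.ofReal_toReal (htop ω)]
  have e2 : beta A = ENNReal.ofReal (beta.real A) := by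
    rw [Measure.real, ENNReal.ofReal_toReal (measure_ne_top _ _)]
  have hχm : Measurable (A.indicator (1 : Om → ℝ)) := measurable_one.indicator hAm
  have hχ0 : ∀ ω, 0 ≤ A.indicator (1 : Om → ℝ) ω := fun ω =>
    Set.indicator_nonneg (fun _ _ => zero_le_one) ω
  have hχ1 : ∀ ω, A.indicator (1 : Om → ℝ) ω ≤ 1 := fun ω =>
    Set.indicator_le_self' (fun _ _ => zero_le_one) ω
  have e3 : ∀ j, ∫⁻ ω in phi j ⁻¹' A, h ω ∂QQ =
      ENNReal.ofReal (∫ ω, hR ω * A.indicator 1 (phi j ω) ∂QQ) := by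
    intro j
    have hint : Integrable (fun ω => hR ω * A.indicator (1 : Om → ℝ) (phi j ω)) QQ := by
      refine Integrable.mono' hRint.norm
        (hRm.mul (hχm.comp (measurable_phi j))).aestronglyMeasurable
        (Eventually.of_forall fun ω => ?_)
      rw [norm_mul, Real.norm_of_nonneg (hχ0 _)]
      exact mul_le_of_le_one_right (norm_nonneg _) (hχ1 _)
    rw [ofReal_integral_eq_lintegral_ofReal hint
      (Eventually.of_forall fun ω => mul_nonneg (hR01 ω).1 (hχ0 _)),
      ← lintegral_indicator (measurable_phi j hAm)]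
    refine lintegral_congr fun ω => ?_
    by_cases hω : phi j ω ∈ A
    · rw [Set.indicator_of_mem (by exact hω), Set.indicator_of_mem hω]
      simp only [Pi.one_apply, mul_one, hhR]
      rw [ENNReal.ofReal_toReal (htop ω)]
    · rw [Set.indicator_of_notMem (by exact hω), Set.indicator_of_notMem hω]
      simp
  have hsum0 : 0 ≤ (r : ℝ)⁻¹ * ∑ a ∈ Finset.range r,
      ∫ ω, hR ω * A.indicator 1 (phi ((a + 1) * L) ω) ∂QQ := by
    refine mul_nonneg (by positivity) (Finset.sum_nonneg fun a _ => ?_)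
    exact integral_nonneg fun ω => mul_nonneg (hR01 ω).1 (hχ0 _)
  calc (∫⁻ ω, h ω ∂QQ) * beta A
      = ENNReal.ofReal ((∫ ω, hR ω ∂QQ) * beta.real A) := by
        rw [e1, e2, ← ENNReal.ofReal_mul (integral_nonneg fun ω => (hR01 ω).1)]
    _ ≤ ENNReal.ofReal ((r : ℝ)⁻¹ * ∑ a ∈ Finset.range r,
          ∫ ω, hR ω * A.indicator 1 (phi ((a + 1) * L) ω) ∂QQ + e) :=
        ENNReal.ofReal_le_ofReal (hA A hAm)
    _ = ENNReal.ofReal ((r : ℝ)⁻¹ * ∑ a ∈ Finset.range r,
          ∫ ω, hR ω * A.indicator 1 (phi ((a + 1) * L) ω) ∂QQ) + ENNReal.ofReal e :=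
        ENNReal.ofReal_add hsum0 he0.le
    _ ≤ ENNReal.ofReal ((r : ℝ)⁻¹ * ∑ a ∈ Finset.range r,
          ∫ ω, hR ω * A.indicator 1 (phi ((a + 1) * L) ω) ∂QQ) + ε := by gcongr
    _ = (r : ℝ≥0∞)⁻¹ * ∑ a ∈ Finset.range r, ∫⁻ ω in phi ((a + 1) * L) ⁻¹' A, h ω ∂QQ + ε := by
        congr 1
        rw [ENNReal.ofReal_mul (by positivity), ENNReal.ofReal_inv_of_pos (by exact_mod_cast hr0),
          ENNReal.ofReal_natCast, ENNReal.ofReal_sum_of_nonneg]
        · simp only [e3]
        · intro a _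
          exact integral_nonneg fun ω => mul_nonneg (hR01 ω).1 (hχ0 _)

/-- For each `m` there is a random index `J ≥ m` such that, seen from time `-J` on, the coupled
block sequence is an i.i.d. forward sequence. -/
theorem exists_J (m : ℕ) : ∃ J : Om × ℝ → ℕ, Measurable J ∧ (∀ p, m ≤ J p) ∧
    ∀ A, MeasurableSet A → (QQ.prod unif) {p | phi (J p) p.1 ∈ A} = beta A := by
  obtain ⟨J, hJm, hJ⟩ := exists_random_index QQ beta (fun j => phi (j + m))
    (fun j => measurable_phi _) (approx_QQ m)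
  exact ⟨fun p => J p + m, hJm.add_const m, fun p => Nat.le_add_left m (J p), hJ⟩

end Pool.Agent.Lib.MP_274522_pr
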