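import Pool.Agent.Lib.MP_274522_pr.Block
import Pool.Agent.Lib.MP_274522_pr.Reach

set_option autoImplicit false
open MeasureTheory ProbabilityTheory Filter
open scoped Topology ENNReal

namespace Pool.Agent.Lib.MP_274522_pr

/-- Increment over `[s, t]` of the part of the path which lives in `[i, i + 1]`. -/
noncomputable def dl (ω : Om) (s t : ℝ) (i : ℤ) : ℝ := bp (ω i) (t - i) - bp (ω i) (s - i)

lemma dl_eq_zero_of_ge (ω : Om) {s t : ℝ} {i : ℤ} (hs : s ≤ i) (ht : t ≤ i) : dl ω s t i = 0 := by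
  unfold dl
  rw [bp_of_nonpos _ (by linarith), bp_of_nonpos _ (by linarith), sub_zero]

lemma dl_eq_zero_of_lt (ω : Om) {s t : ℝ} {i : ℤ} (hs : (i : ℝ) + 1 ≤ s) (ht : (i : ℝ) + 1 ≤ t) :
    dl ω s t i = 0 := by
  unfold dl
  rw [bp_of_one_le _ (by linarith), bp_of_one_le _ (by linarith), sub_self]

/-- The path. -/
noncomputable def XX (t : ℝ) (ω : Om) : ℝ := ∑ᶠ i : ℤ, dl ω 0 t i

lemma finsum_dl (ω : Om) {s t : ℝ} {a b : ℤ} (has : (a : ℝ) ≤ s) (hat : (a : ℝ) ≤ t)
    (hsb : s ≤ b) (htb : t ≤ b) : ∑ᶠ i : ℤ, dl ω s t i = ∑ i ∈ Finset.Ico a b, dl ω s t i := by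
  apply finsum_eq_sum_of_support_subset
  intro i hi
  by_contra h
  apply hi
  simp only [Finset.coe_Ico, Set.mem_Ico, not_and_or, not_le, not_lt] at h
  rcases h with h | h
  · have h1 : (i : ℝ) + 1 ≤ a := by exact_mod_cast h
    exact dl_eq_zero_of_lt ω (by linarith) (by linarith)
  · have h1 : (b : ℝ) ≤ i := by exact_mod_cast h
    exact dl_eq_zero_of_ge ω (by linarith) (by linarith)

lemma XX_eq (ω : Om) {t : ℝ} {a b : ℤ} (ha0 : a ≤ 0) (hb0 : 0 ≤ b) (hat : (a : ℝ) ≤ t)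
    (htb : t ≤ b) : XX t ω = ∑ i ∈ Finset.Ico a b, dl ω 0 t i :=
  finsum_dl ω (by exact_mod_cast ha0) hat (by exact_mod_cast hb0) htb

lemma XX_sub (ω : Om) {s t : ℝ} {a b : ℤ} (has : (a : ℝ) ≤ s) (hat : (a : ℝ) ≤ t)
    (hsb : s ≤ b) (htb : t ≤ b) :
    XX t ω - XX s ω = ∑ i ∈ Finset.Ico a b, dl ω s t i := by
  have h1 : ((min a 0 : ℤ) : ℝ) ≤ a := by exact_mod_cast min_le_left a 0
  have h2 : (b : ℝ) ≤ ((max b 0 : ℤ) : ℝ) := by exact_mod_cast le_max_left b 0
  rw [XX_eq ω (min_le_right a 0) (le_max_right b 0) (h1.trans hat) (htb.trans h2),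
    XX_eq ω (min_le_right a 0) (le_max_right b 0) (h1.trans has) (hsb.trans h2),
    ← Finset.sum_sub_distrib, ← finsum_dl ω has hat hsb htb,
    finsum_dl ω (h1.trans has) (h1.trans hat) (hsb.trans h2) (htb.trans h2)]
  refine Finset.sum_congr rfl fun i _ => ?_
  unfold dl
  ring

lemma XX_zero (ω : Om) : XX 0 ω = 0 := by
  rw [XX_eq ω (a := 0) (b := 0) le_rfl le_rfl (by simp) (by simp)]
  simp

lemma measurable_dl (s t : ℝ) (i : ℤ) : Measurable fun ω => dl ω s t i := by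
  unfold dl
  exact ((measurable_bp _).comp (measurable_pi_apply i)).sub
    ((measurable_bp _).comp (measurable_pi_apply i))

lemma measurable_XX (t : ℝ) : Measurable (XX t) := by
  have h : XX t = fun ω => ∑ i ∈ Finset.Ico (min ⌊t⌋ 0) (max ⌈t⌉ 0), dl ω 0 t i := by
    ext ω
    apply XX_eq ω (min_le_right _ _) (le_max_right _ _)
    · calc ((min ⌊t⌋ 0 : ℤ) : ℝ) ≤ (⌊t⌋ : ℝ) := by exact_mod_cast min_le_left _ _
        _ ≤ t := Int.floor_le t
    · calc t ≤ (⌈t⌉ : ℝ) := Int.le_ceil t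
        _ ≤ ((max ⌈t⌉ 0 : ℤ) : ℝ) := by exact_mod_cast le_max_left _ _
  rw [h]
  exact Finset.measurable_sum _ fun i _ => measurable_dl 0 t i

lemma continuous_XX (ω : Om) : Continuous fun t => XX t ω := by
  rw [continuous_iff_continuousAt]
  intro t0
  obtain ⟨N, hN⟩ := exists_nat_ge (|t0| + 1)
  have h : (fun t => XX t ω) =ᶠ[𝓝 t0] fun t => ∑ i ∈ Finset.Ico (-(N : ℤ)) N, dl ω 0 t i := by
    have hb : Metric.ball t0 1 ∈ 𝓝 t0 := Metric.ball_mem_nhds t0 one_pos
    filter_upwards [hb] with t ht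
    rw [Metric.mem_ball, Real.dist_eq, abs_lt] at ht
    have h1 := neg_abs_le t0
    have h2 := le_abs_self t0
    apply XX_eq ω (by omega) (by omega)
    · push_cast; linarith
    · push_cast; linarith
  refine ContinuousAt.congr ?_ h.symm
  apply Continuous.continuousAt
  refine continuous_finsetSum _ fun i _ => ?_
  unfold dl
  exact ((continuous_bp _).comp (by fun_prop)).sub continuous_const

lemma measurable_uncurry_XX : Measurable fun p : ℝ × Om => XX p.1 p.2 :=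
  measurable_uncurry_of_continuous_of_measurable (u := XX) continuous_XX measurable_XX

/-- increments only depend on the blocks in between -/
lemma XX_sub_dependsOn {s t : ℝ} {a b : ℤ} (has : (a : ℝ) ≤ s) (hat : (a : ℝ) ≤ t)
    (hsb : s ≤ b) (htb : t ≤ b) :
    DependsOn (fun ω => XX t ω - XX s ω) {i | a ≤ i ∧ i < b} := by
  intro ω ω' h
  simp only
  rw [XX_sub ω has hat hsb htb, XX_sub ω' has hat hsb htb]
  refine Finset.sum_congr rfl fun i hi => ?_
  unfold dl
  rw [Finset.mem_Ico] at hi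
  rw [h i hi]

lemma XX_phi (j : ℕ) (ω : Om) {t : ℝ} (ht : 0 ≤ t) :
    XX t (phi j ω) = XX (t - j) ω - XX (-j) ω := by
  have h0 : (0 : ℝ) ≤ ⌈t⌉ := by exact_mod_cast Int.ceil_nonneg ht
  rw [XX_eq (phi j ω) (a := 0) (b := ⌈t⌉) le_rfl (Int.ceil_nonneg ht) (by simpa using ht)
    (Int.le_ceil t), XX_sub ω (a := -j) (b := ⌈t⌉ - j)]
  · have e1 : Finset.Ico (-(j : ℤ)) (⌈t⌉ - j) = (Finset.Ico 0 ⌈t⌉).map (addRightEmbedding (-(j : ℤ))) := by
      rw [Finset.map_add_right_Ico]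
      congr 1
      ring
    rw [e1, Finset.sum_map]
    refine Finset.sum_congr rfl fun i hi => ?_
    rw [Finset.mem_Ico] at hi
    unfold dl phi cut sh
    rw [if_pos hi.1]
    simp only [addRightEmbedding_apply]
    push_cast
    congr 2 <;> ring
  · push_cast; linarith
  · push_cast; linarith
  · push_cast; linarith
  · push_cast
    have := Int.le_ceil t
    linarith

lemma XX_cut (ω : Om) {t : ℝ} (ht : 0 ≤ t) : XX t (cut ω) = XX t ω := by
  have := XX_phi 0 ω ht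
  have e : phi 0 ω = cut ω := by
    unfold phi sh
    simp
  rw [e] at this
  rw [this]
  simp [XX_zero]

/-- increments over one full block -/
lemma XX_block (ω : Om) (i : ℤ) (u : ℝ) (h0 : 0 ≤ u) (h1 : u ≤ 1) :
    XX (i + u) ω - XX i ω = bp (ω i) u := by
  rw [XX_sub ω (a := i) (b := i + 1) le_rfl (by linarith) (by push_cast; linarith)
    (by push_cast; linarith)]
  rw [show Finset.Ico i (i + 1) = {i} by ext x; simp; omega, Finset.sum_singleton]
  unfold dl
  rw [add_sub_cancel_left, sub_self, bp_of_nonpos _ le_rfl, sub_zero]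

end Pool.Agent.Lib.MP_274522_pr
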