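import Pool.Agent.Lib.MP_274522_pr.Small

set_option autoImplicit false
open MeasureTheory ProbabilityTheory Filter
open scoped Topology ENNReal NNReal

namespace Pool.Agent.Lib.MP_274522_pr

/-- The `k`-th pair of coordinates does not show a contradiction. -/
def CC (k : ℕ) : Set Om := {ω | ¬ (1 ≤ ω (-1) k ∧ ω (far k) 0 ≤ -1)}

/-- Probability that a pair of independent normals shows no contradiction. -/
noncomputable def rr : ℝ≥0∞ := 1 - gaussianReal 0 1 (Set.Ici 1) * gaussianReal 0 1 (Set.Iic (-1))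

lemma gauss_pos {A : Set ℝ} (hA : volume A ≠ 0) : gaussianReal 0 1 A ≠ 0 := fun h =>
  hA (gaussianReal_absolutelyContinuous' 0 one_ne_zero h)

lemma rr_lt_one : rr < 1 := by
  unfold rr
  apply ENNReal.sub_lt_self ENNReal.one_ne_top one_ne_zero
  refine mul_ne_zero (gauss_pos ?_) (gauss_pos ?_)
  · simp
  · simp

/-- sigma-algebra of one coordinate -/
abbrev cm (p : ℤ × ℕ) : MeasurableSpace Om := MeasurableSpace.comap (fun ω : Om => ω p.1 p.2) inferInstance

/-- coordinates used by the pairs with index in `T` -/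
def ST (T : Set ℕ) : Set (ℤ × ℕ) := {p | ∃ k ∈ T, p = (-1, k) ∨ p = (far k, 0)}

lemma cm_le (p : ℤ × ℕ) : cm p ≤ MeasurableSpace.pi := by
  have : Measurable fun ω : Om => ω p.1 p.2 := by fun_prop
  exact this.comap_le

lemma iIndep_cm : iIndep cm PP := iIndep_coords.iIndep

lemma ST_disjoint {T U : Set ℕ} (h : Disjoint T U) : Disjoint (ST T) (ST U) := by
  rw [Set.disjoint_left] at h ⊢
  rintro p ⟨k, hk, h1⟩ ⟨l, hl, h2⟩
  rcases h1 with h1 | h1 <;> rcases h2 with h2 | h2 <;> rw [h1] at h2 <;>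
    simp only [Prod.mk.injEq, true_and, and_true] at h2
  · rw [h2] at hk; exact h hk hl
  · exact far_ne_neg_one l h2.1.symm
  · exact far_ne_neg_one k h2.1
  · rw [far_inj] at h2
    rw [h2] at hk; exact h hk hl

lemma meas_coord {T : Set ℕ} {p : ℤ × ℕ} (hp : p ∈ ST T) :
    Measurable[⨆ q ∈ ST T, cm q] fun ω : Om => ω p.1 p.2 := by
  have h1 : Measurable[cm p] fun ω : Om => ω p.1 p.2 := comap_measurable _
  exact h1.mono (le_iSup₂_of_le p hp le_rfl) le_rfl

lemma meas_CC {T : Set ℕ} {k : ℕ} (hk : k ∈ T) : MeasurableSet[⨆ q ∈ ST T, cm q] (CC k) := by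
  have h1 := meas_coord (T := T) (p := (-1, k)) ⟨k, hk, Or.inl rfl⟩
  have h2 := meas_coord (T := T) (p := (far k, 0)) ⟨k, hk, Or.inr rfl⟩
  have e : CC k = ((fun ω : Om => ω (-1) k) ⁻¹' Set.Ici 1 ∩
      (fun ω : Om => ω (far k) 0) ⁻¹' Set.Iic (-1))ᶜ := by
    ext ω; simp [CC]
  rw [e]
  exact ((h1 measurableSet_Ici).inter (h2 measurableSet_Iic)).compl

lemma PP_CC (k : ℕ) : PP (CC k) = rr := by
  have hind : IndepFun (fun ω : Om => ω (-1) k) (fun ω : Om => ω (far k) 0) PP := by
    have := iIndep_coords.indepFun (i := (-1, k)) (j := (far k, 0)) (by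
      intro h
      simp only [Prod.mk.injEq] at h
      exact far_ne_neg_one k h.1.symm)
    exact this
  have m1 : Measurable fun ω : Om => ω (-1) k := by fun_prop
  have m2 : Measurable fun ω : Om => ω (far k) 0 := by fun_prop
  have e : CC k = ((fun ω : Om => ω (-1) k) ⁻¹' Set.Ici 1 ∩
      (fun ω : Om => ω (far k) 0) ⁻¹' Set.Iic (-1))ᶜ := by
    ext ω; simp [CC]
  rw [e, prob_compl_eq_one_sub ((m1 measurableSet_Ici).inter (m2 measurableSet_Iic)),
    hind.measure_inter_preimage_eq_mul _ _ measurableSet_Ici measurableSet_Iic,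
    ← Measure.map_apply m1 measurableSet_Ici, ← Measure.map_apply m2 measurableSet_Iic,
    map_coord, map_coord]
  rfl

lemma PP_biInter_CC (T : Finset ℕ) : PP (⋂ k ∈ T, CC k) = rr ^ T.card := by
  classical
  induction T using Finset.induction_on with
  | empty => simp
  | insert k T hk ih =>
    rw [Finset.set_biInter_insert, Finset.card_insert_of_notMem hk, pow_succ, ← ih, ← PP_CC k,
      Set.inter_comm]
    have hI : Indep (⨆ q ∈ ST (T : Set ℕ), cm q) (⨆ q ∈ ST ({k} : Set ℕ), cm q) PP :=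
      indep_iSup_of_disjoint cm_le iIndep_cm (ST_disjoint (by
        rw [Set.disjoint_singleton_right]
        exact_mod_cast hk))
    rw [Indep_iff] at hI
    apply hI
    · refine Finset.measurableSet_biInter _ fun l hl => ?_
      exact meas_CC (T := (T : Set ℕ)) (by exact_mod_cast hl)
    · exact meas_CC (T := {k}) rfl

/-- Under the i.i.d. law the level-`n` event at time `0` is very unlikely. -/
lemma PP_Ev (n : ℕ) : PP {ω | Ev n (fun u => XX u ω) 0} ≤ rr ^ (2 ^ n) := by
  have h1 : ∀ᵐ ω ∂PP, ω ∈ {ω | Ev n (fun u => XX u ω) 0} →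
      ω ∈ ⋂ k ∈ Finset.Ico (2 ^ n) (2 ^ n + 2 ^ n), CC k := by
    filter_upwards [ae_good_PP] with ω hg hω
    simp only [Set.mem_iInter]
    intro k hk
    rw [Finset.mem_Ico] at hk
    obtain ⟨j, rfl⟩ := Nat.exists_eq_add_of_le hk.1
    have hj : j < 2 ^ n := by omega
    have h2 := hω j hj
    rw [HH_zero n j hj (hg _), GG_zero _ (hg _)] at h2
    rintro ⟨h3, h4⟩
    apply h2
    refine ⟨?_, h4⟩
    have := am_pos n
    nlinarith
  have h2 : PP {ω | Ev n (fun u => XX u ω) 0} ≤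
      PP (⋂ k ∈ Finset.Ico (2 ^ n) (2 ^ n + 2 ^ n), CC k) := measure_mono_ae h1
  refine h2.trans ?_
  rw [PP_biInter_CC]
  simp

end Pool.Agent.Lib.MP_274522_pr
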