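import Pool.Agent.Lib.MP_274522_pr.Level

set_option autoImplicit false
open MeasureTheory ProbabilityTheory Filter
open scoped Topology ENNReal NNReal

namespace Pool.Agent.Lib.MP_274522_pr

lemma KK_incr (u v : ℝ) : KK v v - KK v u - KK u v + KK u u = |v - u| := by
  unfold KK
  rw [min_self, min_self]
  rcases le_total u v with h | h
  · rw [min_eq_right h, min_eq_left h, abs_of_nonneg (by linarith)]; ring
  · rw [min_eq_left h, min_eq_right h, abs_of_nonpos (by linarith)]; ring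

lemma PP_sq (u v : ℝ) :
    ∫⁻ ω, ENNReal.ofReal ((XX v ω - XX u ω) ^ 2) ∂PP = ENNReal.ofReal |v - u| := by
  have h1 : Var[fun ω => XX v ω - XX u ω; PP] = |v - u| := by
    have hm : Measurable fun ω => XX v ω - XX u ω := (measurable_XX v).sub (measurable_XX u)
    rw [← covariance_self hm.aemeasurable, TB_XX.incr_cov, KK_incr]
  have h2 := variance_eq_integral (μ := PP) (X := fun ω => XX v ω - XX u ω)
    ((measurable_XX v).sub (measurable_XX u)).aemeasurable
  rw [TB_XX.incr_mean, h1] at h2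
  simp only [sub_zero] at h2
  rw [h2, ofReal_integral_eq_lintegral_ofReal]
  · exact ((TB_XX.memLp v).sub (TB_XX.memLp u)).integrable_sq
  · exact Eventually.of_forall fun ω => sq_nonneg _

lemma measurable_sqdiff (u v : ℝ) :
    Measurable fun ω => ENNReal.ofReal ((XX v ω - XX u ω) ^ 2) :=
  (((measurable_XX v).sub (measurable_XX u)).pow_const 2).ennreal_ofReal

lemma QQ_sq_right {u v : ℝ} (hu : -1 ≤ u) (hv : -1 ≤ v) :
    ∫⁻ ω, ENNReal.ofReal ((XX v ω - XX u ω) ^ 2) ∂QQ = ENNReal.ofReal |v - u| := by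
  rw [lint_QQ_right _ (measurable_sqdiff u v), PP_sq]
  have hd := XX_sub_dependsOn (s := u) (t := v) (a := -1) (b := ⌈max u v⌉) (by push_cast; exact hu)
    (by push_cast; exact hv) ((le_max_left u v).trans (Int.le_ceil _))
    ((le_max_right u v).trans (Int.le_ceil _))
  intro ω ω' h
  have h1 : XX v ω - XX u ω = XX v ω' - XX u ω' := hd fun i hi => h i hi.1
  simp only [h1]

lemma exists_far_lt (a : ℤ) : ∃ K, far K < a := by
  refine ⟨(-a).toNat + 1, ?_⟩
  have h := le_NN ((-a).toNat + 1)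
  have h1 : (((-a).toNat + 1 : ℕ) : ℤ) ≤ NN ((-a).toNat + 1) := by exact_mod_cast h
  unfold far
  push_cast at h1
  omega

lemma QQ_sq_left {u v : ℝ} (hu : u ≤ -1) (hv : v ≤ -1) :
    ∫⁻ ω, ENNReal.ofReal ((XX v ω - XX u ω) ^ 2) ∂QQ = ENNReal.ofReal |v - u| := by
  obtain ⟨K, hK⟩ := exists_far_lt ⌊min u v⌋
  rw [lint_QQ_left _ (measurable_sqdiff u v) K, PP_sq]
  have hd := XX_sub_dependsOn (s := u) (t := v) (a := ⌊min u v⌋) (b := -1)
    ((Int.floor_le _).trans (min_le_left _ _)) ((Int.floor_le _).trans (min_le_right _ _))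
    (by push_cast; exact hu) (by push_cast; exact hv)
  intro ω ω' h
  have h1 : XX v ω - XX u ω = XX v ω' - XX u ω' := hd fun i hi => h i (by
    have h2 := hi.1
    have h3 := hi.2
    constructor
    · omega
    · omega)
  simp only [h1]

lemma QQ_sq_aux {u v : ℝ} (huv : u ≤ v) :
    ∫⁻ ω, ENNReal.ofReal ((XX v ω - XX u ω) ^ 2) ∂QQ ≤ ENNReal.ofReal (2 * |v - u|) := by
  have h0 : 0 ≤ |v - u| := abs_nonneg _
  rcases le_total v (-1) with hv | hv
  · rw [QQ_sq_left (huv.trans hv) hv]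
    exact ENNReal.ofReal_le_ofReal (by linarith)
  rcases le_total (-1) u with hu | hu
  · rw [QQ_sq_right hu hv]
    exact ENNReal.ofReal_le_ofReal (by linarith)
  calc ∫⁻ ω, ENNReal.ofReal ((XX v ω - XX u ω) ^ 2) ∂QQ
      ≤ ∫⁻ ω, (2 * ENNReal.ofReal ((XX v ω - XX (-1) ω) ^ 2) +
          2 * ENNReal.ofReal ((XX (-1) ω - XX u ω) ^ 2)) ∂QQ := by
        refine lintegral_mono fun ω => ?_
        have e2 : (2 : ℝ≥0∞) = ENNReal.ofReal 2 := by simp
        rw [e2, ← ENNReal.ofReal_mul (by norm_num), ← ENNReal.ofReal_mul (by norm_num),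
          ← ENNReal.ofReal_add (by positivity) (by positivity)]
        apply ENNReal.ofReal_le_ofReal
        nlinarith [sq_nonneg ((XX v ω - XX (-1) ω) - (XX (-1) ω - XX u ω))]
    _ = 2 * ENNReal.ofReal |v - -1| + 2 * ENNReal.ofReal |-1 - u| := by
        rw [lintegral_add_left ((measurable_sqdiff _ _).const_mul 2),
          lintegral_const_mul _ (measurable_sqdiff _ _), lintegral_const_mul _ (measurable_sqdiff _ _),
          QQ_sq_right le_rfl hv, QQ_sq_left hu le_rfl]
    _ ≤ ENNReal.ofReal (2 * |v - u|) := by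
        have e2 : (2 : ℝ≥0∞) = ENNReal.ofReal 2 := by simp
        rw [e2, ← ENNReal.ofReal_mul (by norm_num), ← ENNReal.ofReal_mul (by norm_num),
          ← ENNReal.ofReal_add (by positivity) (by positivity)]
        apply ENNReal.ofReal_le_ofReal
        rw [abs_of_nonneg (by linarith), abs_of_nonneg (by linarith), abs_of_nonneg (by linarith)]
        linarith

lemma QQ_sq (u v : ℝ) :
    ∫⁻ ω, ENNReal.ofReal ((XX v ω - XX u ω) ^ 2) ∂QQ ≤ ENNReal.ofReal (2 * |v - u|) := by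
  rcases le_total u v with h | h
  · exact QQ_sq_aux h
  · have h1 := QQ_sq_aux h
    rw [abs_sub_comm]
    refine le_trans (le_of_eq ?_) h1
    refine lintegral_congr fun ω => ?_
    congr 1
    ring

lemma QQ_cheb (u v : ℝ) {c : ℝ} (hc : 0 < c) :
    QQ {ω | c ≤ |XX v ω - XX u ω|} ≤ ENNReal.ofReal (2 * |v - u| / c ^ 2) := by
  have h1 : {ω | c ≤ |XX v ω - XX u ω|} =
      {ω | ENNReal.ofReal (c ^ 2) ≤ ENNReal.ofReal ((XX v ω - XX u ω) ^ 2)} := by
    ext ω
    simp only [Set.mem_ofPred_eq]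
    rw [ENNReal.ofReal_le_ofReal_iff (sq_nonneg _), ← sq_abs (XX v ω - XX u ω)]
    constructor
    · intro h; exact pow_le_pow_left₀ hc.le h 2
    · intro h; exact (pow_le_pow_iff_left₀ hc.le (abs_nonneg _) two_ne_zero).1 h
  have hc2 : 0 < c ^ 2 := by positivity
  rw [h1]
  refine (meas_ge_le_lintegral_div (measurable_sqdiff u v).aemeasurable
    (by simpa using hc.ne') ENNReal.ofReal_ne_top).trans ?_
  rw [ENNReal.ofReal_div_of_pos hc2]
  exact ENNReal.div_le_div_right (QQ_sq u v) _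

lemma ae_good_QQ : ∀ᵐ ω ∂QQ, ∀ l, ω l ∈ good := by
  rw [ae_all_iff]
  intro l
  obtain ⟨K, hK⟩ := exists_far_lt l
  have hm0 : Measurable fun ω : Om => ω l := measurable_pi_apply l
  have hm : MeasurableSet {ω : Om | ω l ∉ good} := hm0 measurableSet_good.compl
  have h := lint_QQ K ({ω : Om | ω l ∉ good}.indicator 1) (measurable_one.indicator hm) (by
    intro ω ω' h
    have h1 : ω l = ω' l := h l hK
    by_cases h2 : ω l ∈ good
    · rw [Set.indicator_of_notMem (by simpa using h2),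
        Set.indicator_of_notMem (by rw [h1] at h2; simpa using h2)]
    · rw [Set.indicator_of_mem (by simpa using h2),
        Set.indicator_of_mem (by rw [h1] at h2; simpa using h2)]
      rfl)
  rw [lintegral_indicator_one hm] at h
  rw [ae_iff, h]
  have hm2 : Measurable fun ω : Om => ENNReal.ofReal (DR K ω) *
      ({ω : Om | ω l ∉ good}.indicator 1 ω : ℝ≥0∞) :=
    (measurable_DR K).ennreal_ofReal.mul (measurable_one.indicator hm)
  rw [lintegral_eq_zero_iff hm2]
  filter_upwards [ae_good_PP] with ω hω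
  have : ω ∉ {ω : Om | ω l ∉ good} := by simpa using hω l
  rw [Set.indicator_of_notMem this, mul_zero]
  rfl

/-- Under the coupled law the level-`n` event has high probability near time `0`. -/
lemma QQ_notEv (n : ℕ) (t : ℝ) :
    QQ {ω | ¬ Ev n (fun u => XX u ω) t} ≤ ENNReal.ofReal (112 * 4 ^ n * |t|) := by
  have ha := am_pos n
  let B : ℝ → ℝ → Set Om := fun c v => {ω | c ≤ |XX (v + t) ω - XX v ω|}
  let W : ℕ → Set Om := fun j =>
    (B (am n / 4) (0 - 1 + (2 * j + 1) / 2 ^ (n + 1)) ∪ B (am n / 4) (0 - 1 + 2 * j / 2 ^ (n + 1))) ∪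
      B (am n / 4) (0 - 1 + (2 * j + 2) / 2 ^ (n + 1)) ∪
      (B (1 / 2) (0 - NN (2 ^ n + j) + 1) ∪ B (1 / 2) (0 - NN (2 ^ n + j)))
  have hB : ∀ c v, 0 < c → QQ (B c v) ≤ ENNReal.ofReal (2 * |t| / c ^ 2) := by
    intro c v hc
    have := QQ_cheb v (v + t) hc
    rwa [add_sub_cancel_left] at this
  have hW : ∀ j, QQ (W j) ≤ ENNReal.ofReal (112 * 2 ^ n * |t|) := by
    intro j
    have h1 : ∀ v, QQ (B (am n / 4) v) ≤ ENNReal.ofReal (32 * 2 ^ n * |t|) := by
      intro v
      refine (hB _ v (by positivity)).trans (le_of_eq ?_)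
      congr 1
      rw [div_pow, am_sq, div_pow, one_pow]
      field_simp
      ring
    have h2 : ∀ v, QQ (B (1 / 2) v) ≤ ENNReal.ofReal (8 * |t|) := by
      intro v
      refine (hB _ v (by positivity)).trans (le_of_eq ?_)
      congr 1
      ring
    have h3 : ∀ (A C : Set Om) (a c : ℝ), 0 ≤ a → 0 ≤ c → QQ A ≤ ENNReal.ofReal a →
        QQ C ≤ ENNReal.ofReal c → QQ (A ∪ C) ≤ ENNReal.ofReal (a + c) := by
      intro A C a c ha hc h4 h5
      rw [ENNReal.ofReal_add ha hc]
      exact (measure_union_le A C).trans (add_le_add h4 h5)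
    have ht0 : 0 ≤ |t| := abs_nonneg t
    have hp : (1 : ℝ) ≤ 2 ^ n := one_le_pow₀ (by norm_num)
    have h6 := h3 _ _ _ _ (by positivity) (by positivity)
      (h3 _ _ _ _ (by positivity) (by positivity)
        (h3 _ _ _ _ (by positivity) (by positivity) (h1 (0 - 1 + (2 * j + 1) / 2 ^ (n + 1)))
          (h1 (0 - 1 + 2 * j / 2 ^ (n + 1)))) (h1 (0 - 1 + (2 * j + 2) / 2 ^ (n + 1))))
      (h3 _ _ _ _ (by positivity) (by positivity) (h2 (0 - NN (2 ^ n + j) + 1))
        (h2 (0 - NN (2 ^ n + j))))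
    refine h6.trans (ENNReal.ofReal_le_ofReal ?_)
    nlinarith
  have hsub : ∀ᵐ ω ∂QQ, ω ∈ {ω | ¬ Ev n (fun u => XX u ω) t} →
      ω ∈ ⋃ j ∈ Finset.range (2 ^ n), W j := by
    filter_upwards [ae_good_QQ, QQ_ae_mt] with ω hg hmt hω
    simp only [Ev, not_forall, not_not] at hω
    obtain ⟨j, hj, hH, hG⟩ := hω
    simp only [Set.mem_iUnion]
    refine ⟨j, Finset.mem_range.2 hj, ?_⟩
    have hH0 := HH_zero n j hj (hg (-1))
    have hG0 := GG_zero (2 ^ n + j) (hg (far (2 ^ n + j)))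
    have hm : 0 ≤ ω (far (2 ^ n + j)) 0 ↔ 0 ≤ ω (-1) (2 ^ n + j) := hmt (2 ^ n + j)
    by_cases h0 : 0 ≤ ω (far (2 ^ n + j)) 0
    · right
      rw [← hG0] at h0
      unfold GG at hG h0
      by_contra hcon
      simp only [B, Set.mem_union, Set.mem_ofPred_eq, not_or, not_le] at hcon
      obtain ⟨hc1, hc2⟩ := hcon
      rw [abs_lt] at hc1 hc2
      have e1 : (0 : ℝ) - NN (2 ^ n + j) + 1 + t = t - NN (2 ^ n + j) + 1 := by ring
      have e2 : (0 : ℝ) - NN (2 ^ n + j) + t = t - NN (2 ^ n + j) := by ring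
      rw [e1] at hc1
      rw [e2] at hc2
      linarith [hc1.1, hc1.2, hc2.1, hc2.2]
    · left
      have h1 : HH n j (fun u => XX u ω) 0 ≤ 0 := by
        rw [hH0]
        have : ω (-1) (2 ^ n + j) < 0 := by
          by_contra h2
          exact h0 (hm.2 (not_lt.1 h2))
        nlinarith
      unfold HH Dn at hH h1
      by_contra hcon
      simp only [B, Set.mem_union, Set.mem_ofPred_eq, not_or, not_le] at hcon
      obtain ⟨⟨hc1, hc2⟩, hc3⟩ := hcon
      rw [abs_lt] at hc1 hc2 hc3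
      have e : ∀ c : ℝ, (0 : ℝ) - 1 + c + t = t - 1 + c := fun c => by ring
      rw [e] at hc1 hc2 hc3
      simp only at hH h1
      linarith [hc1.1, hc1.2, hc2.1, hc2.2, hc3.1, hc3.2]
  refine (measure_mono_ae hsub).trans ?_
  refine (measure_biUnion_finset_le _ _).trans ?_
  refine (Finset.sum_le_sum fun j _ => hW j).trans ?_
  rw [Finset.sum_const, Finset.card_range, nsmul_eq_mul]
  have h5 : ((2 ^ n : ℕ) : ℝ≥0∞) = ENNReal.ofReal (2 ^ n) := by
    rw [← ENNReal.ofReal_natCast]; push_cast; rfl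
  rw [h5, ← ENNReal.ofReal_mul (by positivity)]
  apply ENNReal.ofReal_le_ofReal
  have : (4 : ℝ) ^ n = 2 ^ n * 2 ^ n := by rw [← mul_pow]; norm_num
  rw [this]
  apply le_of_eq
  ring

end Pool.Agent.Lib.MP_274522_pr
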