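import Mathlib

set_option autoImplicit false
open MeasureTheory ProbabilityTheory ENNReal Filter
open scoped Topology

namespace Pool.Agent.Lib.MP_274522_pr

/-- A block: the coordinates of the path on a time interval of length one. -/
abbrev Blk := ℕ → ℝ

/-- Two-sided sequences of blocks. -/
abbrev Om := ℤ → Blk

/-- Law of one block: i.i.d. standard Gaussian coordinates. -/
noncomputable def blkLaw : Measure Blk := Measure.infinitePi (fun _ : ℕ => gaussianReal 0 1)

instance : IsProbabilityMeasure blkLaw := by unfold blkLaw; infer_instance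

/-- Law of the i.i.d. sequence of blocks. -/
noncomputable def PP : Measure Om := Measure.infinitePi (fun _ : ℤ => blkLaw)

instance : IsProbabilityMeasure PP := by unfold PP; infer_instance

/-- Change the sign of the `j`-th coordinate of a block. -/
def neg1 (j : ℕ) (z : Blk) : Blk := fun k => if k = j then -z k else z k

/-- Change the sign of the `j`-th coordinate of the `i`-th block. -/
def negC (i : ℤ) (j : ℕ) (ω : Om) : Om := fun l => if l = i then neg1 j (ω l) else ω l

/-- Shift of the block sequence. -/
def sh (n : ℤ) (ω : Om) : Om := fun i => ω (i + n)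

lemma measurable_neg1 (j : ℕ) : Measurable (neg1 j) := by
  rw [measurable_pi_iff]
  intro k
  unfold neg1
  split_ifs <;> fun_prop

lemma measurable_negC (i : ℤ) (j : ℕ) : Measurable (negC i j) := by
  rw [measurable_pi_iff]
  intro l
  unfold negC
  split_ifs
  · exact (measurable_neg1 j).comp (measurable_pi_apply l)
  · exact measurable_pi_apply l

lemma measurable_sh (n : ℤ) : Measurable (sh n) := by
  unfold sh; fun_prop

lemma map_neg1 (j : ℕ) : blkLaw.map (neg1 j) = blkLaw := by
  have h := Measure.infinitePi_map_pi (μ := fun _ : ℕ => gaussianReal 0 1)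
    (f := fun (k : ℕ) (x : ℝ) => if k = j then -x else x)
    (by intro k; split_ifs <;> fun_prop)
  have e1 : neg1 j = fun (x : Blk) (i : ℕ) => if i = j then -x i else x i := rfl
  unfold blkLaw
  rw [e1, h]
  congr 1
  ext1 k
  by_cases hk : k = j
  · simp only [hk, if_true]
    simpa using gaussianReal_map_neg (μ := 0) (v := 1)
  · simp only [hk, if_false]
    exact Measure.map_id

lemma map_negC (i : ℤ) (j : ℕ) : PP.map (negC i j) = PP := by
  have h := Measure.infinitePi_map_pi (μ := fun _ : ℤ => blkLaw)
    (f := fun (l : ℤ) (x : Blk) => if l = i then neg1 j x else x)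
    (by
      intro l; split_ifs
      · exact measurable_neg1 j
      · exact measurable_id)
  have e1 : negC i j = fun (x : Om) (l : ℤ) => if l = i then neg1 j (x l) else x l := rfl
  unfold PP
  rw [e1, h]
  congr 1
  ext1 l
  by_cases hl : l = i
  · simp only [hl, if_true]
    exact map_neg1 j
  · simp only [hl, if_false]
    exact Measure.map_id

lemma map_sh (n : ℤ) : PP.map (sh n) = PP := by
  have h := Measure.map_infinitePi_infinitePi_of_inj (P := fun _ : ℤ => blkLaw)
    (f := fun i : ℤ => i + n) (add_left_injective n)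
  exact h

lemma coord_ae_ne_zero (i : ℤ) (j : ℕ) : ∀ᵐ ω ∂PP, ω i j ≠ 0 := by
  have h1 : ∀ᵐ x ∂(gaussianReal 0 1), x ≠ 0 := by
    have := nullSingletonClass_gaussianReal (μ := 0) (v := 1) one_ne_zero
    exact Measure.ae_ne _ 0
  have h2 : ∀ᵐ z ∂blkLaw, z j ≠ 0 := by
    have := (measurePreserving_eval_infinitePi (fun _ : ℕ => gaussianReal 0 1) j)
    exact this.quasiMeasurePreserving.ae h1
  have := (measurePreserving_eval_infinitePi (fun _ : ℤ => blkLaw) i)
  exact this.quasiMeasurePreserving.ae h2

lemma comap_le_of_dependsOn {γ : Type*} [MeasurableSpace γ] (u : Om → γ) (hu : Measurable u)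
    (U : Set ℤ) (hU : DependsOn u U) : MeasurableSpace.comap u inferInstance ≤
      ⨆ i ∈ U, MeasurableSpace.comap (fun ω : Om => ω i) inferInstance := by
  classical
  let pr : Om → Om := fun ω i => if i ∈ U then ω i else 0
  have e1 : u = u ∘ pr := by
    ext ω
    refine hU fun i hi => ?_
    simp [pr, hi]
  have e2 : @Measurable _ _ (⨆ i ∈ U, MeasurableSpace.comap (fun ω : Om => ω i) inferInstance)
      MeasurableSpace.pi pr := by
    refine @measurable_pi_lambda _ _ _ (_) _ _ fun i => ?_
    by_cases hi : i ∈ U
    · simp only [pr, hi, if_true]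
      refine Measurable.mono (comap_measurable (fun ω : Om => ω i)) ?_ le_rfl
      exact le_iSup₂_of_le i hi le_rfl
    · simp only [pr, hi, if_false]
      exact @measurable_const _ _ _ (_) _
  have e3 : @Measurable _ _ (⨆ i ∈ U, MeasurableSpace.comap (fun ω : Om => ω i) inferInstance)
      _ u := by
    rw [e1]
    exact hu.comp e2
  exact e3.comap_le

/-- functions of disjoint sets of blocks are independent -/
lemma indepFun_of_dependsOn {α β : Type*} [MeasurableSpace α] [MeasurableSpace β]
    {f : Om → α} {g : Om → β} (hf : Measurable f) (hg : Measurable g) {S T : Set ℤ}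
    (hfS : DependsOn f S) (hgT : DependsOn g T) (hST : Disjoint S T) : IndepFun f g PP := by
  have h1 : iIndepFun (fun (i : ℤ) (ω : Om) => ω i) PP :=
    iIndepFun_infinitePi (X := fun _ x => x) (fun _ => measurable_id)
  have h2 : Indep (⨆ i ∈ S, MeasurableSpace.comap (fun ω : Om => ω i) inferInstance)
      (⨆ i ∈ T, MeasurableSpace.comap (fun ω : Om => ω i) inferInstance) PP := by
    refine indep_iSup_of_disjoint (fun i => ?_) h1.iIndep hST
    exact (measurable_pi_apply i).comap_le
  exact indep_of_indep_of_le_left (indep_of_indep_of_le_right h2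
    (comap_le_of_dependsOn g hg T hgT)) (comap_le_of_dependsOn f hf S hfS)

/-- Every bounded measurable function is close in `L¹` to a function of finitely many blocks. -/
lemma exists_cyl_approx (Q : Measure Om) [IsProbabilityMeasure Q] (h : Om → ℝ) (hm : Measurable h)
    (h01 : ∀ ω, 0 ≤ h ω ∧ h ω ≤ 1) (ε : ℝ) (hε : 0 < ε) :
    ∃ (M : ℕ) (h' : Om → ℝ), Measurable h' ∧ (∀ ω, 0 ≤ h' ω ∧ h' ω ≤ 1) ∧
      DependsOn h' (Set.Icc (-M : ℤ) M) ∧ ∫ ω, |h ω - h' ω| ∂Q ≤ ε := by
  classical
  let F : Filtration ℕ (MeasurableSpace.pi : MeasurableSpace Om) :=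
    { seq := fun M => Filtration.piFinset (X := fun _ : ℤ => Blk) (Finset.Icc (-M : ℤ) M)
      mono' := by
        intro M M' hMM
        refine (Filtration.piFinset (X := fun _ : ℤ => Blk)).mono ?_
        apply Finset.Icc_subset_Icc
        · have : (M : ℤ) ≤ M' := by exact_mod_cast hMM
          omega
        · exact_mod_cast hMM
      le' := fun M => Filtration.le _ _ }
  have hFsup : ⨆ n, F n = (MeasurableSpace.pi : MeasurableSpace Om) := by
    refine le_antisymm (iSup_le fun n => F.le n) ?_
    refine iSup_le fun i => ?_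
    have h1 : i ∈ Finset.Icc (-(i.natAbs : ℤ)) (i.natAbs : ℤ) := by
      simp only [Finset.mem_Icc]; omega
    refine le_trans ?_ (le_iSup _ i.natAbs)
    show MeasurableSpace.comap (fun ω : Om => ω i) _ ≤ MeasurableSpace.comap
      (Finset.restrict (Finset.Icc (-(i.natAbs : ℤ)) (i.natAbs : ℤ))) MeasurableSpace.pi
    have h2 : (fun ω : Om => ω i) = (fun y : (Π j : Finset.Icc (-(i.natAbs : ℤ)) (i.natAbs : ℤ), Blk)
        => y ⟨i, h1⟩) ∘ (Finset.restrict (Finset.Icc (-(i.natAbs : ℤ)) (i.natAbs : ℤ))) := rfl
    rw [h2, ← MeasurableSpace.comap_comp]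
    exact MeasurableSpace.comap_mono (measurable_pi_apply _).comap_le
  have hint : Integrable h Q := by
    refine Integrable.of_bound hm.aestronglyMeasurable 1 (Eventually.of_forall fun ω => ?_)
    rw [Real.norm_of_nonneg (h01 ω).1]; exact (h01 ω).2
  have hsm : StronglyMeasurable[⨆ n, F n] h := by
    rw [hFsup]; exact hm.stronglyMeasurable
  have hlim := hint.tendsto_eLpNorm_condExp hsm
  have hev : ∀ᶠ n in atTop, eLpNorm (Q[h | F n] - h) 1 Q < ENNReal.ofReal ε :=
    hlim.eventually_lt_const (by simpa using hε)
  obtain ⟨M, hM⟩ := hev.exists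
  let g : Om → ℝ := Q[h | F M]
  have hgsm : StronglyMeasurable[F M] g := stronglyMeasurable_condExp
  let h' : Om → ℝ := fun ω => max 0 (min 1 (g ω))
  have hh'm : Measurable[F M] h' := by
    have := hgsm.measurable
    exact measurable_const.max (measurable_const.min this)
  refine ⟨M, h', hh'm.mono (F.le M) le_rfl, ?_, ?_, ?_⟩
  · intro ω
    exact ⟨le_max_left _ _, max_le zero_le_one (min_le_left _ _)⟩
  · have := hh'm.dependsOn_of_piFinset
    simpa using this
  · have hgint : Integrable g Q := integrable_condExp
    have h2 : ∫ ω, |h ω - h' ω| ∂Q ≤ ∫ ω, ‖(g - h) ω‖ ∂Q := by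
      refine integral_mono_of_nonneg (Eventually.of_forall fun ω => abs_nonneg _)
        (hgint.sub hint).norm (Eventually.of_forall fun ω => ?_)
      simp only [Pi.sub_apply, Real.norm_eq_abs, h']
      obtain ⟨h3, h4⟩ := h01 ω
      rcases le_total 1 (g ω) with h5 | h5
      · rw [min_eq_left h5, max_eq_right zero_le_one]
        rw [abs_of_nonpos (by linarith), abs_of_nonneg (by linarith)]
        linarith
      · rw [min_eq_right h5]
        rcases le_total 0 (g ω) with h6 | h6
        · rw [max_eq_right h6, abs_sub_comm]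
        · rw [max_eq_left h6, sub_zero, abs_of_nonneg h3, abs_of_nonpos (by linarith)]
          linarith
    refine h2.trans ?_
    rw [integral_norm_eq_lintegral_enorm (hgint.sub hint).aestronglyMeasurable,
      ← eLpNorm_one_eq_lintegral_enorm]
    exact ENNReal.toReal_le_of_le_ofReal hε.le hM.le

end Pool.Agent.Lib.MP_274522_pr
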