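import Pool.Agent.Lib.MP_274522_pr.Gauss

set_option autoImplicit false
open MeasureTheory ProbabilityTheory Filter
open scoped Topology ENNReal NNReal

namespace Pool.Agent.Lib.MP_274522_pr

/-- The finite-dimensional distributions are those of a two-sided Brownian motion. -/
structure TB {Ω : Type*} [MeasurableSpace Ω] (Z : ℝ → Ω → ℝ) (P : Measure Ω) : Prop where
  gauss : IsGaussianProcess Z P
  mean : ∀ t, ∫ ω, Z t ω ∂P = 0
  cov : ∀ s t, cov[Z s, Z t; P] = KK s t

lemma KK_self_nonneg (s : ℝ) : 0 ≤ KK s s := by
  unfold KK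
  rw [min_self]
  rcases le_total s 0 with h | h
  · rw [min_eq_left h]; linarith
  · rw [min_eq_right h]; linarith

lemma KK_comm (s t : ℝ) : KK s t = KK t s := by
  unfold KK
  rw [min_comm s t]; ring

lemma KK_zero (s : ℝ) : KK s 0 = 0 := by
  unfold KK; simp

lemma TB_XX : TB XX PP := by
  have hG : IsGaussianProcess XX PP := by
    refine ⟨fun I => ⟨?_⟩⟩
    refine isGaussian_of_map_eq_gaussianReal fun L => ?_
    have hmeas : Measurable fun ω : Om => I.restrict (XX · ω) := by
      rw [measurable_pi_iff]
      intro i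
      exact measurable_XX i.1
    rw [Measure.map_map L.continuous.measurable hmeas]
    refine ⟨0, (∑ i : I, ∑ j : I, L (Pi.single i 1) * L (Pi.single j 1) * KK i j).toNNReal, ?_⟩
    · have h := XX_lin (ι := I) (fun i => i.1) (fun i => L (Pi.single i 1))
      rw [← h]
      congr 1
      ext ω
      simp only [Function.comp_apply]
      conv_lhs => rw [← L.sum_comp_single]
      refine Finset.sum_congr rfl fun i _ => ?_
      simp only [ContinuousLinearMap.comp_apply, ContinuousLinearMap.single_apply,
        Finset.restrict_def]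
      have : (Pi.single i (XX i.1 ω) : I → ℝ) = XX i.1 ω • Pi.single i 1 := by
        ext j
        by_cases hj : j = i
        · subst hj; simp
        · simp [hj]
      rw [this, map_smul, smul_eq_mul, mul_comm]
  have hlaw1 : ∀ t, PP.map (XX t) = gaussianReal 0 (KK t t).toNNReal := by
    intro t
    have h := XX_lin (ι := Unit) (fun _ => t) (fun _ => 1)
    simpa using h
  have hmean : ∀ t, ∫ ω, XX t ω ∂PP = 0 := by
    intro t
    have h := integral_map (μ := PP) (measurable_XX t).aemeasurable
      (f := fun x : ℝ => x) (by fun_prop)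
    rw [← h, hlaw1, integral_id_gaussianReal]
  have hvar : ∀ t, Var[XX t; PP] = KK t t := by
    intro t
    have h := variance_map (μ := PP) (X := (id : ℝ → ℝ)) (Y := XX t) (by fun_prop)
      (measurable_XX t).aemeasurable
    rw [Function.id_comp] at h
    rw [← h, hlaw1, variance_id_gaussianReal, Real.coe_toNNReal _ (KK_self_nonneg t)]
  refine ⟨hG, hmean, fun s t => ?_⟩
  have hm : ∀ t, MemLp (XX t) 2 PP := fun t => (hG.hasGaussianLaw_eval t).memLp_two
  have h1 := variance_add (hm s) (hm t)
  have h2 : Var[XX s + XX t; PP] = KK s s + 2 * KK s t + KK t t := by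
    have hnn : 0 ≤ KK s s + 2 * KK s t + KK t t := by
      unfold KK
      rcases le_total s 0 with hs | hs <;> rcases le_total t 0 with ht | ht <;>
        rcases le_total s t with hst | hst <;>
        simp only [min_self, min_eq_left hs, min_eq_right hs, min_eq_left ht, min_eq_right ht,
          min_eq_left hst, min_eq_right hst] <;> linarith
    have h := XX_lin (ι := Bool) (fun b => if b then s else t) (fun _ => 1)
    simp only [Fintype.sum_bool, one_mul, if_true, Bool.false_eq_true, if_false] at h
    have h3 := variance_map (μ := PP) (X := (id : ℝ → ℝ)) (Y := fun ω => XX s ω + XX t ω)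
      (by fun_prop) ((measurable_XX s).add (measurable_XX t)).aemeasurable
    rw [Function.id_comp] at h3
    have h4 : (XX s + XX t) = fun ω => XX s ω + XX t ω := rfl
    rw [h4, ← h3, h, variance_id_gaussianReal, Real.coe_toNNReal, KK_comm t s]
    · ring
    · rw [KK_comm t s]; linarith
  rw [h2, hvar, hvar] at h1
  linarith

section
variable {Ω : Type*} [MeasurableSpace Ω] {Z : ℝ → Ω → ℝ} {P : Measure Ω}

lemma TB.isProb (h : TB Z P) : IsProbabilityMeasure P := h.gauss.isProbabilityMeasure

lemma TB.memLp (h : TB Z P) (t : ℝ) : MemLp (Z t) 2 P := (h.gauss.hasGaussianLaw_eval t).memLp_two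

lemma TB.integrable (h : TB Z P) (t : ℝ) : Integrable (Z t) P :=
  (h.gauss.hasGaussianLaw_eval t).integrable

lemma TB.incr_cov (h : TB Z P) (a b c d : ℝ) :
    cov[fun ω => Z a ω - Z b ω, fun ω => Z c ω - Z d ω; P] =
      KK a c - KK a d - KK b c + KK b d := by
  have := h.isProb
  rw [covariance_fun_sub_fun_sub (h.memLp a) (h.memLp b) (h.memLp c) (h.memLp d)]
  rw [h.cov, h.cov, h.cov, h.cov]

lemma TB.incr_mean (h : TB Z P) (a b : ℝ) : ∫ ω, (Z a ω - Z b ω) ∂P = 0 := by
  rw [integral_sub (h.integrable a) (h.integrable b), h.mean, h.mean, sub_zero]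

/-- any process of increments is Gaussian -/
lemma TB.incr_gauss (h : TB Z P) {S : Type*} (f g : S → ℝ) :
    IsGaussianProcess (fun s ω => Z (f s) ω - Z (g s) ω) P := by
  classical
  refine h.gauss.of_isGaussianProcess fun s => ⟨{f s, g s},
    { toFun x := x ⟨f s, by simp⟩ - x ⟨g s, by simp⟩
      map_add' x y := by simp; abel
      map_smul' c x := by simp; ring }, by simp⟩

lemma TB.shift (h : TB Z P) (s : ℝ) : TB (fun t ω => Z (s + t) ω - Z s ω) P where
  gauss := h.incr_gauss (fun t => s + t) (fun _ => s)
  mean t := h.incr_mean _ _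
  cov t u := by
    rw [h.incr_cov]
    unfold KK
    have e1 : min (s + t) (s + u) = s + min t u := min_add_add_left _ _ _
    have e2 : min (s + t) s = s + min t 0 := by
      rw [← min_add_add_left, add_zero]
    have e3 : min s (s + u) = s + min u 0 := by
      rw [min_comm, ← min_add_add_left, add_zero]
    rw [e1, e2, e3, min_self]
    ring

lemma TB.fwd (h : TB Z P) (s : ℝ) :
    IsPreBrownianReal (fun (t : ℝ≥0) ω => Z (s + t) ω - Z s ω) P := by
  refine IsGaussianProcess.isPreBrownianReal_of_covariance
    (h.incr_gauss (fun t : ℝ≥0 => s + t) (fun _ => s)) (fun t => h.incr_mean _ _)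
    (fun t u htu => ?_)
  rw [h.incr_cov]
  have htu' : (t : ℝ) ≤ u := by exact_mod_cast htu
  have ht : (0 : ℝ) ≤ t := t.2
  have hu : (0 : ℝ) ≤ u := u.2
  unfold KK
  rw [min_eq_left (show s + t ≤ s + u by linarith), min_eq_right (show s ≤ s + t by linarith),
    min_eq_left (show s ≤ s + u by linarith), min_self]
  ring

lemma TB.bwd (h : TB Z P) (s : ℝ) :
    IsPreBrownianReal (fun (t : ℝ≥0) ω => Z (s - t) ω - Z s ω) P := by
  refine IsGaussianProcess.isPreBrownianReal_of_covariance
    (h.incr_gauss (fun t : ℝ≥0 => s - t) (fun _ => s)) (fun t => h.incr_mean _ _)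
    (fun t u htu => ?_)
  rw [h.incr_cov]
  have htu' : (t : ℝ) ≤ u := by exact_mod_cast htu
  have ht : (0 : ℝ) ≤ t := t.2
  have hu : (0 : ℝ) ≤ u := u.2
  unfold KK
  rw [min_eq_right (show s - u ≤ s - t by linarith), min_eq_left (show s - t ≤ s by linarith),
    min_eq_right (show s - u ≤ s by linarith), min_self]
  ring

/-- linear combinations -/
lemma TB.lin (h : TB Z P) (I : Finset ℝ) (c : I → ℝ) :
    P.map (fun ω => ∑ i : I, c i * Z i ω) =
      gaussianReal 0 (∑ i, ∑ j, c i * c j * KK i j).toNNReal := by
  have := h.isProb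
  let L : (I → ℝ) →L[ℝ] ℝ := ∑ i : I, c i • ContinuousLinearMap.proj i
  have hL : ∀ x, L x = ∑ i, c i * x i := fun x => by simp [L]
  have hg := ((h.gauss.hasGaussianLaw I).map L).map_eq_gaussianReal
  have e1 : (L ∘ fun ω => I.restrict (Z · ω)) = fun ω => ∑ i : I, c i * Z i ω := by
    ext ω
    simp only [Function.comp_apply, hL, Finset.restrict_def]
  rw [e1] at hg
  rw [hg]
  congr 1
  · rw [integral_finsetSum _ fun i _ => (h.integrable _).const_mul _]
    refine Finset.sum_eq_zero fun i _ => ?_
    rw [integral_const_mul, h.mean, mul_zero]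
  · rw [variance_fun_sum fun i => (h.memLp _).const_mul _]
    congr 1
    refine Finset.sum_congr rfl fun i _ => Finset.sum_congr rfl fun j _ => ?_
    rw [covariance_const_mul_left, covariance_const_mul_right, h.cov]
    ring

/-- The finite-dimensional distributions are determined. -/
lemma TB.unique (h : TB Z P) {Ω' : Type*} [MeasurableSpace Ω'] {Z' : ℝ → Ω' → ℝ} {P' : Measure Ω'}
    (h' : TB Z' P') (I : Finset ℝ) :
    P.map (fun ω => I.restrict (Z · ω)) = P'.map (fun ω => I.restrict (Z' · ω)) := by
  have := h.isProb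
  have := h'.isProb
  have m1 : AEMeasurable (fun ω => I.restrict (Z · ω)) P :=
    aemeasurable_pi_lambda _ fun _ ↦ h.gauss.aemeasurable _
  have m2 : AEMeasurable (fun ω => I.restrict (Z' · ω)) P' :=
    aemeasurable_pi_lambda _ fun _ ↦ h'.gauss.aemeasurable _
  have := Measure.isProbabilityMeasure_map m1
  have := Measure.isProbabilityMeasure_map m2
  apply Measure.ext_of_charFunDual
  ext L
  rw [charFunDual_eq_charFun_map_one, charFunDual_eq_charFun_map_one,
    AEMeasurable.map_map_of_aemeasurable L.continuous.aemeasurable m1,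
    AEMeasurable.map_map_of_aemeasurable L.continuous.aemeasurable m2]
  have key : ∀ x : I → ℝ, L x = ∑ i, L (Pi.single i 1) * x i := by
    intro x
    conv_lhs => rw [← L.sum_comp_single]
    refine Finset.sum_congr rfl fun i _ => ?_
    simp only [ContinuousLinearMap.comp_apply, ContinuousLinearMap.single_apply]
    have : (Pi.single i (x i) : I → ℝ) = x i • Pi.single i 1 := by
      ext j
      by_cases hj : j = i
      · subst hj; simp
      · simp [hj]
    rw [this, map_smul, smul_eq_mul, mul_comm]
  have e1 : (L ∘ fun ω => I.restrict (Z · ω)) = fun ω => ∑ i : I, L (Pi.single i 1) * Z i ω := by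
    ext ω
    rw [Function.comp_apply, key]
    rfl
  have e2 : (L ∘ fun ω => I.restrict (Z' · ω)) = fun ω => ∑ i : I, L (Pi.single i 1) * Z' i ω := by
    ext ω
    rw [Function.comp_apply, key]
    rfl
  rw [e1, e2, h.lin, h'.lin]

lemma TB_of_indep {F B : ℝ≥0 → Ω → ℝ}
    (hF : IsPreBrownianReal F P) (hB : IsPreBrownianReal B P)
    (hFB : IndepFun (fun ω t => F t ω) (fun ω t => B t ω) P) :
    TB (fun t ω => if 0 ≤ t then F t.toNNReal ω else B (-t).toNNReal ω) P := by
  classical
  have hprob : IsProbabilityMeasure P := hF.isGaussianProcess.isProbabilityMeasure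
  have mF : ∀ t, MemLp (F t) 2 P := fun t => (hF.isGaussianProcess.hasGaussianLaw_eval t).memLp_two
  have mB : ∀ t, MemLp (B t) 2 P := fun t => (hB.isGaussianProcess.hasGaussianLaw_eval t).memLp_two
  have hind : ∀ s t, IndepFun (F s) (B t) P := fun s t =>
    hFB.comp (measurable_pi_apply s) (measurable_pi_apply t)
  refine ⟨⟨fun I => ?_⟩, fun t => ?_, fun s t => ?_⟩
  · let A : Finset ℝ≥0 := I.image fun t => t.toNNReal
    let C : Finset ℝ≥0 := I.image fun t => (-t).toNNReal
    have h1 : IndepFun (fun ω => A.restrict (F · ω)) (fun ω => C.restrict (B · ω)) P :=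
      hFB.comp (Finset.measurable_restrict A) (Finset.measurable_restrict C)
    have h2 := h1.hasGaussianLaw (hF.isGaussianProcess.hasGaussianLaw A)
      (hB.isGaussianProcess.hasGaussianLaw C)
    have hA : ∀ i : I, (i : ℝ).toNNReal ∈ A := fun i => Finset.mem_image_of_mem _ i.2
    have hC : ∀ i : I, (-(i : ℝ)).toNNReal ∈ C := fun i => Finset.mem_image_of_mem _ i.2
    let L : (A → ℝ) × (C → ℝ) →L[ℝ] (I → ℝ) := ContinuousLinearMap.pi fun i =>
      if 0 ≤ (i : ℝ) then
        (ContinuousLinearMap.proj (R := ℝ) (φ := fun _ : A => ℝ) ⟨_, hA i⟩).comp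
          (ContinuousLinearMap.fst ℝ _ _)
      else
        (ContinuousLinearMap.proj (R := ℝ) (φ := fun _ : C => ℝ) ⟨_, hC i⟩).comp
          (ContinuousLinearMap.snd ℝ _ _)
    have h3 := h2.map L
    refine h3.congr (Eventually.of_forall fun ω => ?_)
    ext i
    simp only [L, Function.comp_apply, ContinuousLinearMap.coe_pi', Finset.restrict_def]
    split_ifs with h
    · simp
    · simp
  · by_cases ht : 0 ≤ t
    · simp only [ht, if_true]
      exact hF.integral_eval _
    · simp only [ht, if_false]
      exact hB.integral_eval _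
  · by_cases hs : 0 ≤ s <;> by_cases ht : 0 ≤ t
    · simp only [hs, ht, if_true]
      rw [hF.covariance_fun_eval]
      unfold KK
      rw [NNReal.coe_min, Real.coe_toNNReal _ hs, Real.coe_toNNReal _ ht, min_eq_right hs,
        min_eq_right ht]
      ring
    · simp only [hs, ht, if_true, if_false]
      rw [(hind _ _).covariance_eq_zero (mF _) (mB _)]
      push Not at ht
      unfold KK
      rw [min_eq_right (ht.le.trans hs), min_eq_right hs, min_eq_left ht.le]
      ring
    · simp only [hs, ht, if_true, if_false]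
      rw [covariance_comm, (hind _ _).covariance_eq_zero (mF _) (mB _)]
      push Not at hs
      unfold KK
      rw [min_eq_left (hs.le.trans ht), min_eq_left hs.le, min_eq_right ht]
      ring
    · simp only [hs, ht, if_false]
      rw [hB.covariance_fun_eval]
      push Not at hs ht
      unfold KK
      rw [NNReal.coe_min, Real.coe_toNNReal _ (by linarith), Real.coe_toNNReal _ (by linarith),
        min_eq_left hs.le, min_eq_left ht.le]
      rcases le_total s t with h | h
      · rw [min_eq_right (by linarith), min_eq_left h]; ring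
      · rw [min_eq_left (by linarith), min_eq_right h]; ring

end

end Pool.Agent.Lib.MP_274522_pr
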